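import Mathlib

/-!
The chain argument: two values `σ_c(n), σ_c(n')` with the same number of prime divisors in the
finite set `V` are connected by small steps.
-/

set_option autoImplicit false

open Finset Topology

namespace H90.CD

/-- `σ_c(n)`. -/
noncomputable def sg (c : ℂ) (n : ℕ) : ℂ := ∑ d ∈ n.divisors, (d : ℂ) ^ c

noncomputable def pw (c : ℂ) (hc : c ≠ 0) : ArithmeticFunction ℂ :=
  ⟨fun n => (n : ℂ) ^ c, by simp [hc]⟩

theorem sg_mul {c : ℂ} (hc : c ≠ 0) {m n : ℕ} (h : m.Coprime n) :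
    sg c (m * n) = sg c m * sg c n := by
  have h1 : (pw c hc).IsMultiplicative := ⟨by simp [pw], fun {a b} _ => by
    simp only [pw, ArithmeticFunction.coe_mk, Nat.cast_mul]
    exact Complex.natCast_mul_natCast_cpow a b c⟩
  have h2 := (h1.mul ArithmeticFunction.isMultiplicative_zeta.natCast).map_mul_of_coprime h
  simp only [ArithmeticFunction.coe_mul_zeta_apply] at h2
  exact h2

theorem sg_pow (c : ℂ) {q : ℕ} (hq : q.Prime) (a : ℕ) :
    sg c (q ^ a) = ∑ i ∈ range (a + 1), ((q : ℂ) ^ c) ^ i := by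
  unfold sg
  rw [Nat.sum_divisors_prime_pow hq]
  refine sum_congr rfl fun i _ => ?_
  rw [← Complex.cpow_nat_mul, Complex.natCast_cpow_natCast_mul, Nat.cast_pow]

theorem sg_one (c : ℂ) : sg c 1 = 1 := by simp [sg]

theorem ne_zero_of {c : ℂ} (hc : c.re < -1) : c ≠ 0 := by
  rintro rfl; norm_num at hc

theorem norm_w {c : ℂ} {q : ℕ} (hq : 0 < q) : ‖(q : ℂ) ^ c‖ = (q : ℝ) ^ c.re :=
  Complex.norm_natCast_cpow_of_pos hq _

theorem norm_half {c : ℂ} (hc : c.re < -1) {q : ℕ} (hq : 2 ≤ q) : ‖(q : ℂ) ^ c‖ ≤ 1 / 2 := by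
  rw [norm_w (by omega)]
  have hq' : (2 : ℝ) ≤ q := by exact_mod_cast hq
  refine (Real.rpow_le_rpow_of_exponent_le (by linarith) hc.le).trans ?_
  rw [Real.rpow_neg_one, one_div]
  exact inv_anti₀ (by norm_num) hq'

/-- `v_p = log (1 + p^c)`. -/
noncomputable def vv (c : ℂ) (p : ℕ) : ℂ := Complex.log (1 + (p : ℂ) ^ c)

theorem sg_prime {c : ℂ} (hc : c.re < -1) {p : ℕ} (hp : p.Prime) :
    sg c p = Complex.exp (vv c p) := by
  have := sg_pow c hp 1
  rw [pow_one] at this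
  rw [this, vv, Complex.exp_log]
  · simp [sum_range_succ]
  · intro h
    have h1 := norm_half hc hp.two_le
    rw [show (p : ℂ) ^ c = -1 by linear_combination h] at h1
    norm_num at h1

theorem sg_prod {c : ℂ} (hc : c.re < -1) (P : Finset ℕ) (hP : ∀ p ∈ P, p.Prime) :
    sg c (∏ p ∈ P, p) = Complex.exp (∑ p ∈ P, vv c p) := by
  induction P using Finset.induction_on with
  | empty => simp [sg]
  | insert p P hp ih =>
    have hpp := hP p (mem_insert_self _ _)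
    have hP' : ∀ q ∈ P, q.Prime := fun q hq => hP q (mem_insert_of_mem hq)
    rw [prod_insert hp, sum_insert hp, Complex.exp_add, sg_mul (ne_zero_of hc), ih hP',
      sg_prime hc hpp]
    exact Nat.Coprime.prod_right fun q hq =>
        (Nat.coprime_primes hpp (hP' q hq)).2 fun h => hp (h ▸ hq)

/-- All prime factors of `x` are at least `m`. -/
def Rough (m x : ℕ) : Prop := x ≠ 0 ∧ ∀ p, p.Prime → p ∣ x → m ≤ p

theorem summ {c : ℂ} (hc : c.re < -1) : Summable fun d : ℕ => ‖(d : ℂ) ^ c‖ := by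
  simp_rw [Complex.norm_natCast_cpow_of_re_ne_zero _ (show c.re ≠ 0 by linarith)]
  exact Real.summable_nat_rpow.2 hc

theorem sg_bd {c : ℂ} (hc : c.re < -1) : ∃ Z : ℝ, 0 < Z ∧ ∀ n, ‖sg c n‖ ≤ Z :=
  ⟨∑' d : ℕ, ‖(d : ℂ) ^ c‖ + 1, by positivity, fun n =>
    (norm_sum_le _ _).trans (((summ hc).sum_le_tsum _ fun _ _ => norm_nonneg _).trans
      (by linarith))⟩

theorem sg_tail {c : ℂ} (hc : c.re < -1) {ε : ℝ} (hε : 0 < ε) :
    ∃ M : ℕ, ∀ n, Rough M n → ‖sg c n - 1‖ < ε := by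
  obtain ⟨S, hS⟩ := summable_iff_vanishing_norm.1 (summ hc).of_norm ε hε
  refine ⟨S.sup id + 1, fun n hn => ?_⟩
  have h1 : 1 ∈ n.divisors := Nat.one_mem_divisors.2 hn.1
  have : sg c n - 1 = ∑ d ∈ n.divisors.erase 1, (d : ℂ) ^ c := by
    rw [sg, ← add_sum_erase _ _ h1]; simp
  rw [this]
  refine hS _ (disjoint_left.2 fun d hd hd' => ?_)
  obtain ⟨h2, h3⟩ := mem_erase.1 hd
  have h4 := hn.2 _ (Nat.minFac_prime h2) ((Nat.minFac_dvd d).trans (Nat.dvd_of_mem_divisors h3))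
  have h5 := Nat.minFac_le (Nat.pos_of_mem_divisors h3)
  have h6 : d ≤ S.sup id := le_sup (f := id) hd'
  omega

theorem cop {m a b : ℕ} (ha : ∀ p, p.Prime → p ∣ a → p < m) (hb : Rough m b) : a.Coprime b :=
  Nat.coprime_of_dvd fun p hp h1 h2 => absurd (ha p hp h1) (not_lt.2 (hb.2 p hp h2))

/-- `z` is a limit of signed subset sums of the `v_p`, `p` prime with `W p`. -/
def Ap (c : ℂ) (W : ℕ → Prop) (z : ℂ) : Prop := ∀ ε : ℝ, 0 < ε → ∃ A N : Finset ℕ,
  (∀ p ∈ A ∪ N, p.Prime ∧ W p) ∧ ‖z - ∑ p ∈ A, vv c p + ∑ p ∈ N, vv c p‖ < ε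

/-- the elements of `V` dividing `n`. -/
def dV (V : Finset ℕ) (n : ℕ) : Finset ℕ := V.filter (· ∣ n)

theorem mem_dV {V : Finset ℕ} {n v : ℕ} : v ∈ dV V n ↔ v ∈ V ∧ v ∣ n := by simp [dV]

theorem dV_mul {V : Finset ℕ} (hV : ∀ v ∈ V, v.Prime) (a b : ℕ) :
    dV V (a * b) = dV V a ∪ dV V b := by
  ext v
  simp only [mem_union, mem_dV]
  constructor
  · rintro ⟨h1, h2⟩
    rcases (hV v h1).dvd_mul.1 h2 with h | h
    · exact Or.inl ⟨h1, h⟩
    · exact Or.inr ⟨h1, h⟩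
  · rintro (⟨h1, h2⟩ | ⟨h1, h2⟩)
    · exact ⟨h1, h2.mul_right _⟩
    · exact ⟨h1, h2.mul_left _⟩

theorem dV_prod {V : Finset ℕ} (hV : ∀ v ∈ V, v.Prime) (S : Finset ℕ) (hS : ∀ p ∈ S, p.Prime) :
    dV V (∏ p ∈ S, p) = V ∩ S := by
  ext v
  rw [mem_dV, mem_inter]
  constructor
  · rintro ⟨h1, h2⟩
    obtain ⟨r, hr, hd⟩ := (Prime.dvd_finsetProd_iff (hV v h1).prime _).1 h2
    rw [(Nat.prime_dvd_prime_iff_eq (hV v h1) (hS r hr)).1 hd]
    exact ⟨(Nat.prime_dvd_prime_iff_eq (hV v h1) (hS r hr)).1 hd ▸ h1, hr⟩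
  · rintro ⟨h1, h2⟩
    exact ⟨h1, dvd_prod_of_mem _ h2⟩

theorem dV_pow {V : Finset ℕ} (hV : ∀ v ∈ V, v.Prime) (q a : ℕ) (hq : q.Prime) (ha : 1 ≤ a) :
    dV V (q ^ a) = V ∩ {q} := by
  ext v
  rw [mem_dV, mem_inter, mem_singleton]
  constructor
  · rintro ⟨h1, h2⟩
    exact ⟨h1, (Nat.prime_dvd_prime_iff_eq (hV v h1) hq).1 ((hV v h1).dvd_of_dvd_pow h2)⟩
  · rintro ⟨h1, rfl⟩
    exact ⟨h1, dvd_pow_self _ (by omega)⟩

theorem dV_pow_notMem {V : Finset ℕ} (hV : ∀ v ∈ V, v.Prime) (q a : ℕ) (hq : q.Prime)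
    (hqV : q ∉ V) : dV V (q ^ a) = ∅ := by
  ext v
  simp only [mem_dV, notMem_empty, iff_false, not_and]
  intro h1 h2
  apply hqV
  rw [← (Nat.prime_dvd_prime_iff_eq (hV v h1) hq).1 ((hV v h1).dvd_of_dvd_pow h2)]
  exact h1

theorem exp_close {c : ℂ} {Z δ : ℝ} (hZ : 0 < Z) (hb : ∀ n, ‖sg c n‖ ≤ Z) (hδ : 0 < δ)
    {a b : ℕ} {e : ℂ} (he : ‖e‖ < min 1 (δ / Z / 2)) (h : sg c a = sg c b * Complex.exp e) :
    ‖sg c a - sg c b‖ < δ := by
  rw [h, ← mul_sub_one, norm_mul]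
  have h2 := Complex.norm_exp_sub_one_le (he.le.trans (min_le_left _ _))
  have h3 := he.trans_le (min_le_right _ _)
  rw [lt_div_iff₀ two_pos, lt_div_iff₀ hZ] at h3
  nlinarith [hb b, norm_nonneg (Complex.exp e - 1), norm_nonneg e, norm_nonneg (sg c b)]

section

variable {c : ℂ} {V : Finset ℕ} {φ : ℕ → Prop} {δ : ℝ}

theorem step_q (hc : c.re < -1) (hV : ∀ v ∈ V, v.Prime) (hδ : 0 < δ)
    (hφ : ∀ n n', n ≠ 0 → n' ≠ 0 → (dV V n).card = (dV V n').card → ‖sg c n - sg c n'‖ < δ →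
      (φ n ↔ φ n'))
    {q : ℕ} (hq : q.Prime) {a : ℕ} {w : ℂ} (hw : sg c (q ^ (a + 1)) = sg c (q ^ a) * Complex.exp w)
    (hAp : Ap c (fun p => q < p ∧ p ∉ V) w) (hj : dV V (q ^ (a + 1)) = dV V (q ^ a))
    (ih : ∀ n0, n0 ≠ 0 → (∀ p, p.Prime → p ∣ n0 → p < q + 1) → ∀ n, Rough (q + 1) n →
      (φ (n0 * n) ↔ φ (n0 * ∏ v ∈ dV V n, v)))
    {n0 : ℕ} (h0 : n0 ≠ 0) (h1 : ∀ p, p.Prime → p ∣ n0 → p < q) {S : Finset ℕ} (hS : S ⊆ V)
    (hSq : ∀ p ∈ S, q < p) :
    φ (n0 * q ^ (a + 1) * ∏ v ∈ S, v) ↔ φ (n0 * q ^ a * ∏ v ∈ S, v) := by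
  obtain ⟨Z, hZ, hb⟩ := sg_bd hc
  have hc0 := ne_zero_of hc
  obtain ⟨A, N, hAN, he⟩ := hAp (min 1 (δ / Z / 2)) (by positivity)
  have hsm : ∀ a p, p.Prime → p ∣ n0 * q ^ a → p < q + 1 := by
    intro a p hpp hd
    rcases (Nat.Prime.dvd_mul hpp).1 hd with h | h
    · exact (h1 p hpp h).trans (Nat.lt_succ_self _)
    · rw [(Nat.prime_dvd_prime_iff_eq hpp hq).1 (hpp.dvd_of_dvd_pow h)]
      exact Nat.lt_succ_self _
  have hne : ∀ a, n0 * q ^ a ≠ 0 := fun a => mul_ne_zero h0 (pow_ne_zero _ hq.ne_zero)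
  have hcq : ∀ a, n0.Coprime (q ^ a) := fun a => Nat.Coprime.pow_right _
    ((Nat.Prime.coprime_iff_not_dvd hq).2 fun h => lt_irrefl _ (h1 q hq h)).symm
  have hSp : ∀ p ∈ S, p.Prime := fun p hp => hV p (hS hp)
  -- products over subsets of A ∪ N
  have key : ∀ T : Finset ℕ, T ⊆ A ∪ N → Rough (q + 1) ((∏ v ∈ S, v) * ∏ p ∈ T, p) ∧
      dV V ((∏ v ∈ S, v) * ∏ p ∈ T, p) = S ∧
      sg c ((∏ v ∈ S, v) * ∏ p ∈ T, p) = sg c (∏ v ∈ S, v) * Complex.exp (∑ p ∈ T, vv c p) := by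
    intro T hT
    have hTp : ∀ p ∈ T, p.Prime := fun p hp => (hAN p (hT hp)).1
    refine ⟨⟨mul_ne_zero (prod_ne_zero_iff.2 fun p hp => (hSp p hp).ne_zero)
      (prod_ne_zero_iff.2 fun p hp => (hTp p hp).ne_zero), fun p hp hd => ?_⟩, ?_, ?_⟩
    · rcases (Nat.Prime.dvd_mul hp).1 hd with h | h
      · obtain ⟨r, hr, hd'⟩ := (Prime.dvd_finsetProd_iff hp.prime _).1 h
        rw [(Nat.prime_dvd_prime_iff_eq hp (hSp r hr)).1 hd']
        exact hSq r hr
      · obtain ⟨r, hr, hd'⟩ := (Prime.dvd_finsetProd_iff hp.prime _).1 h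
        rw [(Nat.prime_dvd_prime_iff_eq hp (hTp r hr)).1 hd']
        exact (hAN r (hT hr)).2.1
    · rw [dV_mul hV, dV_prod hV _ hSp, dV_prod hV _ hTp, inter_eq_right.2 hS]
      have : V ∩ T = ∅ := by
        ext p
        simp only [mem_inter, notMem_empty, iff_false, not_and]
        exact fun h1 h2 => (hAN p (hT h2)).2.2 h1
      rw [this, union_empty]
    · rw [sg_mul hc0, sg_prod hc T hTp]
      exact Nat.Coprime.prod_left fun p hp => Nat.Coprime.prod_right fun r hr =>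
        (Nat.coprime_primes (hSp p hp) (hTp r hr)).2 fun h =>
          (hAN r (hT hr)).2.2 (h ▸ hS hp)
  obtain ⟨rx, dx, sx⟩ := key A subset_union_left
  obtain ⟨ry, dy, sy⟩ := key N subset_union_right
  have ex := ih _ (hne a) (hsm a) _ rx
  have ey := ih _ (hne (a + 1)) (hsm (a + 1)) _ ry
  rw [dx] at ex
  rw [dy] at ey
  rw [← ex, ← ey]
  refine hφ _ _ (mul_ne_zero (hne _) ry.1) (mul_ne_zero (hne _) rx.1) ?_
    (exp_close hZ hb hδ he ?_)
  · rw [dV_mul hV, dV_mul hV n0, dV_mul hV (n0 * q ^ a), dV_mul hV n0, hj, dx, dy]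
  · rw [sg_mul hc0 (cop (hsm _) ry), sg_mul hc0 (cop (hsm _) rx), sg_mul hc0 (hcq _),
      sg_mul hc0 (hcq _), sx, sy, hw]
    have : Complex.exp w * Complex.exp (∑ p ∈ N, vv c p) = Complex.exp (∑ p ∈ A, vv c p) *
        Complex.exp (w - ∑ p ∈ A, vv c p + ∑ p ∈ N, vv c p) := by
      rw [← Complex.exp_add, ← Complex.exp_add]; congr 1; ring
    linear_combination (sg c n0 * sg c (q ^ a) * sg c (∏ v ∈ S, v)) * this

theorem main_q (hc : c.re < -1) (hV : ∀ v ∈ V, v.Prime) (hδ : 0 < δ)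
    (hφ : ∀ n n', n ≠ 0 → n' ≠ 0 → (dV V n).card = (dV V n').card → ‖sg c n - sg c n'‖ < δ →
      (φ n ↔ φ n'))
    (hst : ∀ q, q.Prime → ∀ a, (q ∈ V → 1 ≤ a) →
      ∃ w, sg c (q ^ (a + 1)) = sg c (q ^ a) * Complex.exp w ∧ Ap c (fun p => q < p ∧ p ∉ V) w) :
    ∃ M, ∀ m ≤ M, ∀ n0, n0 ≠ 0 → (∀ p, p.Prime → p ∣ n0 → p < m) → ∀ n, Rough m n →
      (φ (n0 * n) ↔ φ (n0 * ∏ v ∈ dV V n, v)) := by
  obtain ⟨Z, hZ, hb⟩ := sg_bd hc
  obtain ⟨M, hM⟩ := sg_tail hc (div_pos hδ hZ)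
  have hc0 := ne_zero_of hc
  refine ⟨max M (V.sup id + 1), fun m hm => ?_⟩
  induction hm using Nat.decreasingInduction with
  | self =>
    intro n0 h0 h1 n hn
    have hdn : dV V n = ∅ := by
      ext v
      simp only [mem_dV, notMem_empty, iff_false, not_and]
      intro hv hd
      have h2 := hn.2 v (hV v hv) hd
      have h3 : v ≤ V.sup id := le_sup (f := id) hv
      have := le_of_max_le_right h2
      omega
    have hMn : Rough M n := ⟨hn.1, fun p hp hd => le_of_max_le_left (hn.2 p hp hd)⟩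
    rw [hdn, prod_empty, mul_one]
    refine hφ _ _ (mul_ne_zero h0 hn.1) h0 (by rw [dV_mul hV, hdn, union_empty]) ?_
    rw [sg_mul hc0 (cop h1 hn), ← mul_sub_one, norm_mul]
    have := hM n hMn
    rw [lt_div_iff₀ hZ] at this
    nlinarith [hb n0, norm_nonneg (sg c n - 1)]
  | of_succ q hq ih =>
    intro n0 h0 h1 n hn
    by_cases hp : q.Prime
    · have hsm : ∀ a p, p.Prime → p ∣ n0 * q ^ a → p < q + 1 := by
        intro a p hpp hd
        rcases (Nat.Prime.dvd_mul hpp).1 hd with h | h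
        · exact (h1 p hpp h).trans (Nat.lt_succ_self _)
        · rw [(Nat.prime_dvd_prime_iff_eq hpp hp).1 (hpp.dvd_of_dvd_pow h)]
          exact Nat.lt_succ_self _
      have hne : ∀ a, n0 * q ^ a ≠ 0 := fun a => mul_ne_zero h0 (pow_ne_zero _ hp.ne_zero)
      obtain ⟨a, n', hnd, rfl⟩ := Nat.exists_eq_pow_mul_and_not_dvd hn.1 q hp.ne_one
      have hr' : Rough (q + 1) n' := ⟨right_ne_zero_of_mul hn.1, fun p hpp hd =>
        lt_of_le_of_ne (hn.2 p hpp (hd.mul_left _)) fun h => hnd (h ▸ hd)⟩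
      have hS : dV V n' ⊆ V := filter_subset _ _
      have hSq : ∀ p ∈ dV V n', q < p := fun p hp => hr'.2 p (hV p (hS hp)) (mem_dV.1 hp).2
      rw [← mul_assoc, ih _ (hne a) (hsm a) n' hr']
      by_cases hqV : q ∈ V
      · -- `q ∈ V`
        rcases Nat.eq_zero_or_pos a with rfl | ha
        · simp
        · have hpow : ∀ b, 1 ≤ b → (φ (n0 * q ^ b * ∏ v ∈ dV V n', v) ↔
              φ (n0 * q ^ 1 * ∏ v ∈ dV V n', v)) := by
            intro b hb1
            induction b, hb1 using Nat.le_induction with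
            | base => rfl
            | succ b hb1 ihb =>
              obtain ⟨w, hw, hA⟩ := hst q hp b (fun _ => hb1)
              rw [← ihb]
              exact step_q hc hV hδ hφ hp hw hA (by rw [dV_pow hV q _ hp (by omega),
                dV_pow hV q _ hp hb1]) ih h0 h1 hS hSq
          rw [hpow a ha]
          have : dV V (q ^ a * n') = insert q (dV V n') := by
            rw [dV_mul hV, dV_pow hV q a hp ha]
            ext v
            simp only [mem_union, mem_inter, mem_singleton, mem_insert]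
            constructor
            · rintro (h | h)
              · exact Or.inl h.2
              · exact Or.inr h
            · rintro (h | h)
              · exact Or.inl ⟨h ▸ hqV, h⟩
              · exact Or.inr h
          rw [this, prod_insert (fun h => hnd (mem_dV.1 h).2), pow_one, mul_assoc]
      · have hpow : ∀ b, (φ (n0 * q ^ b * ∏ v ∈ dV V n', v) ↔ φ (n0 * ∏ v ∈ dV V n', v)) := by
          intro b
          induction b with
          | zero => simp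
          | succ b ihb =>
            obtain ⟨w, hw, hA⟩ := hst q hp b (fun h => absurd h hqV)
            rw [← ihb]
            exact step_q hc hV hδ hφ hp hw hA (by rw [dV_pow_notMem hV q _ hp hqV,
                dV_pow_notMem hV q _ hp hqV]) ih h0 h1 hS hSq
        rw [hpow a, dV_mul hV, dV_pow_notMem hV q a hp hqV, empty_union]
    · exact ih n0 h0 (fun p hpp hd => (h1 p hpp hd).trans (Nat.lt_succ_self _)) n
        ⟨hn.1, fun p hpp hd => lt_of_le_of_ne (hn.2 p hpp hd) fun h => hp (h ▸ hpp)⟩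

theorem chain (hc : c.re < -1) (hV : ∀ v ∈ V, v.Prime) (hδ : 0 < δ)
    (hφ : ∀ n n', n ≠ 0 → n' ≠ 0 → (dV V n).card = (dV V n').card → ‖sg c n - sg c n'‖ < δ →
      (φ n ↔ φ n'))
    (hst : ∀ q, q.Prime → ∀ a, (q ∈ V → 1 ≤ a) →
      ∃ w, sg c (q ^ (a + 1)) = sg c (q ^ a) * Complex.exp w ∧ Ap c (fun p => q < p ∧ p ∉ V) w)
    (hsw : ∀ a ∈ V, ∀ b ∈ V, Ap c (fun p => p ∉ V) (vv c a - vv c b)) :
    ∀ n n', n ≠ 0 → n' ≠ 0 → (dV V n).card = (dV V n').card → (φ n ↔ φ n') := by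
  obtain ⟨M, hM⟩ := main_q hc hV hδ hφ hst
  obtain ⟨Z, hZ, hb⟩ := sg_bd hc
  have hc0 := ne_zero_of hc
  have hrad : ∀ n, n ≠ 0 → (φ n ↔ φ (∏ v ∈ dV V n, v)) := by
    intro n hn
    simpa using hM 0 (Nat.zero_le _) 1 one_ne_zero
      (fun p hp hd => absurd (Nat.dvd_one.1 hd) hp.ne_one) n ⟨hn, fun _ _ _ => Nat.zero_le _⟩
  -- swapping one element
  have hswap : ∀ S : Finset ℕ, S ⊆ V → ∀ a ∈ V, ∀ b ∈ V, a ∉ S → b ∉ S →
      (φ (∏ v ∈ insert a S, v) ↔ φ (∏ v ∈ insert b S, v)) := by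
    intro S hS a ha b hb' haS hbS
    obtain ⟨A, N, hAN, he⟩ := hsw a ha b hb' (min 1 (δ / Z / 2)) (by positivity)
    have key : ∀ (u : ℕ) (T : Finset ℕ), u ∈ V → u ∉ S → T ⊆ A ∪ N →
        ((∏ v ∈ insert u S, v) * ∏ p ∈ T, p) ≠ 0 ∧
        dV V ((∏ v ∈ insert u S, v) * ∏ p ∈ T, p) = insert u S ∧
        sg c ((∏ v ∈ insert u S, v) * ∏ p ∈ T, p) =
          sg c (∏ v ∈ S, v) * Complex.exp (vv c u + ∑ p ∈ T, vv c p) := by
      intro u T hu huS hT
      have hSp : ∀ p ∈ S, p.Prime := fun p hp => hV p (hS hp)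
      have hSu : insert u S ⊆ V := insert_subset hu hS
      have hSup : ∀ p ∈ insert u S, p.Prime := fun p hp => hV p (hSu hp)
      have hTp : ∀ p ∈ T, p.Prime := fun p hp => (hAN p (hT hp)).1
      refine ⟨mul_ne_zero (prod_ne_zero_iff.2 fun p hp => (hSup p hp).ne_zero)
        (prod_ne_zero_iff.2 fun p hp => (hTp p hp).ne_zero), ?_, ?_⟩
      · rw [dV_mul hV, dV_prod hV _ hSup, dV_prod hV _ hTp, inter_eq_right.2 hSu]
        have : V ∩ T = ∅ := by
          ext p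
          simp only [mem_inter, notMem_empty, iff_false, not_and]
          exact fun h1 h2 => (hAN p (hT h2)).2 h1
        rw [this, union_empty]
      · rw [sg_mul hc0, sg_prod hc T hTp, sg_prod hc _ hSup, sg_prod hc _ hSp, sum_insert huS,
          ← Complex.exp_add, ← Complex.exp_add]
        · congr 1; ring
        · exact Nat.Coprime.prod_left fun p hp => Nat.Coprime.prod_right fun r hr =>
            (Nat.coprime_primes (hSup p hp) (hTp r hr)).2 fun h =>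
              (hAN r (hT hr)).2 (h ▸ hSu hp)
    obtain ⟨n1, d1, s1⟩ := key a N ha haS subset_union_right
    obtain ⟨n2, d2, s2⟩ := key b A hb' hbS subset_union_left
    have e1 := hrad _ n1
    have e2 := hrad _ n2
    rw [d1] at e1
    rw [d2] at e2
    rw [← e1, ← e2]
    refine hφ _ _ n1 n2 (by rw [d1, d2, card_insert_of_notMem haS, card_insert_of_notMem hbS])
      (exp_close hZ hb hδ he ?_)
    rw [s1, s2, mul_assoc, ← Complex.exp_add]
    congr 2
    ring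
  have hsets : ∀ k, ∀ S S' : Finset ℕ, S ⊆ V → S' ⊆ V → S.card = S'.card → (S \ S').card = k →
      (φ (∏ v ∈ S, v) ↔ φ (∏ v ∈ S', v)) := by
    intro k
    induction k with
    | zero =>
      intro S S' hS hS' hcard hk
      have h1 : S ⊆ S' := by rwa [card_eq_zero, sdiff_eq_empty_iff_subset] at hk
      rw [eq_of_subset_of_card_le h1 hcard.ge]
    | succ k ih =>
      intro S S' hS hS' hcard hk
      have h1 : (S \ S').Nonempty := by rw [← card_pos]; omega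
      have h2 : (S' \ S).Nonempty := by
        rw [← card_pos]
        have := card_sdiff_add_card_inter S S'
        have := card_sdiff_add_card_inter S' S
        rw [inter_comm] at this
        omega
      obtain ⟨a, ha⟩ := h1
      obtain ⟨b, hb'⟩ := h2
      rw [mem_sdiff] at ha hb'
      have h3 := hswap (S.erase a) ((erase_subset _ _).trans hS) a (hS ha.1) b (hS' hb'.1)
        (notMem_erase _ _) (fun h => hb'.2 (mem_of_mem_erase h))
      rw [insert_erase ha.1] at h3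
      rw [h3]
      have h4 : b ∉ S.erase a := fun h => hb'.2 (mem_of_mem_erase h)
      refine ih _ _ (insert_subset (hS' hb'.1) ((erase_subset _ _).trans hS)) hS' ?_ ?_
      · rw [card_insert_of_notMem h4, card_erase_of_mem ha.1, ← hcard]
        have := card_pos.2 ⟨a, ha.1⟩
        omega
      · have : insert b (S.erase a) \ S' = (S \ S').erase a := by
          ext x
          simp only [mem_sdiff, mem_insert, mem_erase]
          constructor
          · rintro ⟨rfl | ⟨h5, h6⟩, h7⟩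
            · exact absurd hb'.1 h7
            · exact ⟨h5, h6, h7⟩
          · rintro ⟨h5, h6, h7⟩
            exact ⟨Or.inr ⟨h5, h6⟩, h7⟩
        rw [this, card_erase_of_mem (mem_sdiff.2 ha), hk]
        rfl
  intro n n' hn hn' hcard
  rw [hrad n hn, hrad n' hn']
  exact hsets _ _ _ (filter_subset _ _) (filter_subset _ _) hcard rfl

end

end H90.CD
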