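import Pool.Agent.H90.CD.Chain

/-!
Counting connected components.
-/

set_option autoImplicit false

open Finset Topology

namespace H90.CD

theorem comp_count {X : Type*} [TopologicalSpace X] (m : ℕ) (K : Fin m → Set X)
    (hK : ∀ j, IsClosed (K j)) (hc : ∀ j, IsConnected (K j))
    (hd : ∀ i j, i ≠ j → Disjoint (K i) (K j)) (S : Set X) (hS : S = ⋃ j, K j) :
    ENat.card (ConnectedComponents S) = m := by
  have hmem : ∀ y : S, ∃ j, (y : X) ∈ K j := fun y => by
    have h1 : (y : X) ∈ ⋃ j, K j := hS ▸ y.2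
    exact Set.mem_iUnion.1 h1
  choose g hg using hmem
  have huniq : ∀ (y : S) j, (y : X) ∈ K j → g y = j := by
    intro y j hj
    by_contra h
    exact Set.disjoint_left.1 (hd _ _ h) (hg y) hj
  have hpre : ∀ j, g ⁻¹' {j} = Subtype.val ⁻¹' (K j) := by
    intro j
    ext y
    simp only [Set.mem_preimage, Set.mem_singleton_iff]
    exact ⟨fun h => h ▸ hg y, huniq y j⟩
  have hclosed : ∀ j, IsClosed (g ⁻¹' {j}) := fun j => by
    rw [hpre]; exact (hK j).preimage continuous_subtype_val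
  have hcont : Continuous g := by
    rw [continuous_discrete_rng]
    intro j
    have : g ⁻¹' {j} = (⋃ i ∈ {i : Fin m | i ≠ j}, g ⁻¹' {i})ᶜ := by
      ext y
      simp only [Set.mem_preimage, Set.mem_singleton_iff, Set.mem_compl_iff, Set.mem_iUnion,
        not_exists]
      constructor
      · intro h i hi h2
        exact hi (h2.symm.trans h)
      · intro h
        by_contra h2
        exact h (g y) h2 rfl
    rw [this, isOpen_compl_iff]
    exact (Set.toFinite _).isClosed_biUnion fun i _ => hclosed i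
  have hpc : ∀ j, IsPreconnected (g ⁻¹' {j}) := by
    intro j
    rw [hpre, ← IsInducing.subtypeVal.isPreconnected_image, Subtype.image_preimage_coe,
      Set.inter_eq_right.2]
    · exact (hc j).isPreconnected
    · rw [hS]; exact Set.subset_iUnion K j
  have hbij : Function.Bijective hcont.connectedComponentsLift := by
    constructor
    · intro a b hab
      obtain ⟨x, rfl⟩ := ConnectedComponents.surjective_coe a
      obtain ⟨y, rfl⟩ := ConnectedComponents.surjective_coe b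
      rw [hcont.connectedComponentsLift_apply_coe, hcont.connectedComponentsLift_apply_coe] at hab
      rw [ConnectedComponents.coe_eq_coe']
      exact (hpc (g y)).subset_connectedComponent (x := y) rfl hab
    · intro j
      obtain ⟨x, hx⟩ := (hc j).nonempty
      have hxS : x ∈ S := by rw [hS]; exact Set.mem_iUnion.2 ⟨j, hx⟩
      refine ⟨((⟨x, hxS⟩ : S) : ConnectedComponents S), ?_⟩
      rw [hcont.connectedComponentsLift_apply_coe]
      exact huniq _ _ hx
  rw [ENat.card_congr (Equiv.ofBijective _ hbij)]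
  simp

section

variable {c : ℂ} {V : Finset ℕ}

/-- values with exactly `j` prime divisors in `V`. -/
def cls (c : ℂ) (V : Finset ℕ) (j : ℕ) : Set ℂ := sg c '' {n | n ≠ 0 ∧ (dV V n).card = j}

theorem cls_nonempty (hV : ∀ v ∈ V, v.Prime) {j : ℕ} (hj : j ≤ V.card) : (cls c V j).Nonempty := by
  obtain ⟨S, hS, hc⟩ := exists_subset_card_eq hj
  refine ⟨_, ∏ v ∈ S, v, ⟨prod_ne_zero_iff.2 fun p hp => (hV p (hS hp)).ne_zero, ?_⟩, rfl⟩
  rw [dV_prod hV S (fun p hp => hV p (hS hp)), inter_eq_right.2 hS, hc]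

theorem cls_bounded (hc : c.re < -1) (j : ℕ) : IsCompact (closure (cls c V j)) := by
  obtain ⟨Z, hZ, hb⟩ := sg_bd hc
  refine (isCompact_closedBall (0 : ℂ) Z).of_isClosed_subset isClosed_closure ?_
  refine closure_minimal ?_ Metric.isClosed_closedBall
  rintro _ ⟨n, _, rfl⟩
  simpa using hb n

theorem cls_connected (hc : c.re < -1) (hV : ∀ v ∈ V, v.Prime)
    (hst : ∀ q, q.Prime → ∀ a, (q ∈ V → 1 ≤ a) →
      ∃ w, sg c (q ^ (a + 1)) = sg c (q ^ a) * Complex.exp w ∧ Ap c (fun p => q < p ∧ p ∉ V) w)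
    (hsw : ∀ a ∈ V, ∀ b ∈ V, Ap c (fun p => p ∉ V) (vv c a - vv c b)) {j : ℕ}
    (hj : j ≤ V.card) : IsConnected (closure (cls c V j)) := by
  refine ⟨(cls_nonempty hV hj).closure, ?_⟩
  rw [isPreconnected_closed_iff]
  intro t t' ht ht' hcov hn hn'
  by_contra hcon
  have hdisj : Disjoint (closure (cls c V j) ∩ t) (closure (cls c V j) ∩ t') := by
    rw [Set.disjoint_left]
    intro x hx hx'
    exact hcon ⟨x, hx.1, hx.2, hx'.2⟩
  have hK := cls_bounded (V := V) hc j
  obtain ⟨r, hr, hr'⟩ := Metric.exists_pos_forall_lt_edist (hK.inter_right ht)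
    (isClosed_closure.inter ht') hdisj
  have hr2 : ∀ x ∈ closure (cls c V j), ∀ y ∈ closure (cls c V j), ‖x - y‖ < r → x ∈ t → y ∉ t' := by
    intro x hx y hy hxy hxt hyt
    have h1 := hr' x ⟨hx, hxt⟩ y ⟨hy, hyt⟩
    rw [edist_dist, dist_eq_norm] at h1
    have h2 : ENNReal.ofReal ‖x - y‖ ≤ r := by
      rw [← ENNReal.ofReal_coe_nnreal]
      exact ENNReal.ofReal_le_ofReal hxy.le
    exact absurd h1 (not_lt.2 h2)
  have hr3 : ∀ x ∈ closure (cls c V j), ∀ y ∈ closure (cls c V j), ‖x - y‖ < r → x ∈ t → y ∈ t := by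
    intro x hx y hy hxy hxt
    rcases hcov hy with h | h
    · exact h
    · exact absurd h (hr2 x hx y hy hxy hxt)
  have hsub : ∀ n, n ≠ 0 → (dV V n).card = j → sg c n ∈ closure (cls c V j) :=
    fun n h1 h2 => subset_closure ⟨n, ⟨h1, h2⟩, rfl⟩
  have hr0 : (0 : ℝ) < r := by exact_mod_cast hr
  have key := chain (φ := fun n => (dV V n).card = j → sg c n ∈ t) hc hV hr0 (by
    intro n n' h1 h2 h3 h4
    constructor
    · intro h5 h6
      exact hr3 _ (hsub n h1 (h3.trans h6)) _ (hsub n' h2 h6) h4 (h5 (h3.trans h6))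
    · intro h5 h6
      exact hr3 _ (hsub n' h2 (h3.symm.trans h6)) _ (hsub n h1 h6)
        (by rw [norm_sub_rev]; exact h4) (h5 (h3.symm.trans h6))) hst hsw
  have near : ∀ x ∈ closure (cls c V j), ∃ n, n ≠ 0 ∧ (dV V n).card = j ∧ ‖x - sg c n‖ < r := by
    intro x hx
    rw [Metric.mem_closure_iff] at hx
    obtain ⟨_, ⟨n, hn, rfl⟩, hd⟩ := hx r hr0
    exact ⟨n, hn.1, hn.2, by rwa [dist_eq_norm] at hd⟩
  obtain ⟨x, hx, hxt⟩ := hn
  obtain ⟨y, hy, hyt⟩ := hn'
  obtain ⟨n, n1, n2, n3⟩ := near x hx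
  obtain ⟨k, k1, k2, k3⟩ := near y hy
  have a1 : sg c n ∈ t := hr3 x hx _ (hsub n n1 n2) n3 hxt
  have a2 : sg c k ∈ t := (key n k n1 k1 (n2.trans k2.symm)).1 (fun _ => a1) k2
  exact hr2 _ (hsub k k1 k2) y hy (by rw [norm_sub_rev]; exact k3) a2 hyt

theorem card_comp (hc : c.re < -1) (hV : ∀ v ∈ V, v.Prime)
    (hst : ∀ q, q.Prime → ∀ a, (q ∈ V → 1 ≤ a) →
      ∃ w, sg c (q ^ (a + 1)) = sg c (q ^ a) * Complex.exp w ∧ Ap c (fun p => q < p ∧ p ∉ V) w)
    (hsw : ∀ a ∈ V, ∀ b ∈ V, Ap c (fun p => p ∉ V) (vv c a - vv c b))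
    (hsep : ∀ i j, i < j → j ≤ V.card → Disjoint (closure (cls c V i)) (closure (cls c V j))) :
    ENat.card (ConnectedComponents (closure (sg c '' {n | 1 ≤ n}))) = (V.card + 1 : ℕ) := by
  refine comp_count (V.card + 1) (fun j => closure (cls c V j)) (fun _ => isClosed_closure)
    (fun j => cls_connected hc hV hst hsw (Nat.lt_succ_iff.1 j.2)) ?_ _ ?_
  · intro i j hij
    rcases lt_or_gt_of_ne hij with h | h
    · exact hsep i j h (Nat.lt_succ_iff.1 j.2)
    · exact (hsep j i h (Nat.lt_succ_iff.1 i.2)).symm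
  · have : sg c '' {n | 1 ≤ n} = ⋃ j : Fin (V.card + 1), cls c V j := by
      ext x
      simp only [Set.mem_image, Set.mem_iUnion, cls, Set.mem_ofPred_eq]
      constructor
      · rintro ⟨n, hn, rfl⟩
        exact ⟨⟨(dV V n).card, Nat.lt_succ_iff.2 (card_le_card (filter_subset _ _))⟩, n,
          ⟨by omega, rfl⟩, rfl⟩
      · rintro ⟨j, n, ⟨h1, h2⟩, rfl⟩
        exact ⟨n, by omega, rfl⟩
    rw [this, closure_iUnion_of_finite]

end

end H90.CD
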