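import Pool.Agent.H90.CD.Kak

/-!
Elementary estimates for `log (1 + w)` and geometric sums.
-/

set_option autoImplicit false

open Finset Filter Topology

namespace H90.CD

theorem log_lip {w z : ℂ} (hw : ‖w‖ ≤ 1 / 2) (hz : ‖z‖ ≤ 1 / 2) :
    ‖Complex.log (1 + w) - Complex.log (1 + z)‖ ≤ 2 * ‖w - z‖ := by
  have hne : ∀ x ∈ Metric.closedBall (0 : ℂ) (1 / 2), 1 + x ∈ Complex.slitPlane ∧ 1 / 2 ≤ ‖1 + x‖ := by
    intro x hx
    have h1 : ‖x‖ ≤ 1 / 2 := by simpa using hx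
    have h2 := Complex.abs_re_le_norm x
    have h3 := abs_le.1 (h2.trans h1)
    refine ⟨Or.inl (by rw [Complex.add_re, Complex.one_re]; linarith), ?_⟩
    have := norm_sub_norm_le (1 : ℂ) (-x)
    rw [norm_one, norm_neg, sub_neg_eq_add] at this
    linarith
  have := Convex.norm_image_sub_le_of_norm_hasDerivWithin_le
    (f := fun x : ℂ => Complex.log (1 + x)) (f' := fun x => (1 + x)⁻¹) (C := 2)
    (s := Metric.closedBall (0 : ℂ) (1 / 2)) (fun x hx => by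
      have h1 := (Complex.hasDerivAt_log (hne x hx).1).comp x ((hasDerivAt_id x).const_add 1)
      simp only [id, mul_one] at h1
      exact h1.hasDerivWithinAt) (fun x hx => by
      rw [norm_inv]
      have := (hne x hx).2
      rw [inv_le_comm₀ (by linarith) (by norm_num)]
      linarith) (convex_closedBall _ _) (show z ∈ _ by simpa using hz) (show w ∈ _ by simpa using hw)
  exact this

theorem log_bd {w : ℂ} (hw : ‖w‖ ≤ 1 / 2) : ‖Complex.log (1 + w)‖ ≤ 3 / 2 * ‖w‖ :=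
  Complex.norm_log_one_add_half_le_self hw

theorem log_sub_bd {w : ℂ} (hw : ‖w‖ ≤ 1 / 2) : ‖Complex.log (1 + w) - w‖ ≤ ‖w‖ ^ 2 := by
  refine (Complex.norm_log_one_add_sub_self_le (by linarith)).trans ?_
  have h2 : (1 - ‖w‖)⁻¹ ≤ 2 := by
    rw [inv_le_comm₀ (by linarith) (by norm_num)]; linarith
  have h3 := mul_le_mul_of_nonneg_left h2 (sq_nonneg ‖w‖)
  linarith

/-- `1 + w + ... + w^a`. -/
noncomputable def GG (w : ℂ) (a : ℕ) : ℂ := ∑ i ∈ range (a + 1), w ^ i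

theorem GG_zero (w : ℂ) : GG w 0 = 1 := by simp [GG]

theorem GG_succ (w : ℂ) (a : ℕ) : GG w (a + 1) = GG w a + w ^ (a + 1) := by
  unfold GG; rw [sum_range_succ]

theorem GG_succ' (w : ℂ) (a : ℕ) : GG w (a + 1) = 1 + w * GG w a := by
  unfold GG; rw [sum_range_succ', mul_sum, add_comm]; simp [pow_succ, mul_comm]

theorem GG_le {w : ℂ} (hw : ‖w‖ ≤ 1 / 2) (a : ℕ) : ‖GG w a‖ ≤ 2 := by
  induction a with
  | zero => rw [GG_zero]; norm_num
  | succ a ih =>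
    rw [GG_succ']
    refine (norm_add_le _ _).trans ?_
    rw [norm_one, norm_mul]
    nlinarith [norm_nonneg w, norm_nonneg (GG w a)]

theorem GG_ge {w : ℂ} (hw : ‖w‖ ≤ 1 / 2) (a : ℕ) : 1 / 2 ≤ ‖GG w a‖ := by
  rcases Nat.eq_zero_or_pos a with rfl | ha
  · rw [GG_zero]; norm_num
  · have h := congrArg norm (mul_neg_geom_sum w (a + 1))
    rw [norm_mul] at h
    have h1 : ‖w ^ (a + 1)‖ ≤ ‖w‖ ^ 2 := by
      rw [norm_pow]
      exact pow_le_pow_of_le_one (norm_nonneg _) (by linarith) (by omega)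
    have h2 := norm_sub_le (1 : ℂ) w
    have h5 := norm_sub_norm_le (1 : ℂ) (w ^ (a + 1))
    rw [norm_one] at h2 h5
    have h0 := norm_nonneg w
    have h6 : (1 - ‖w‖) * (1 + ‖w‖) ≤ ‖GG w a‖ * (1 + ‖w‖) := by
      have h7 : ‖1 - w‖ * ‖GG w a‖ ≤ (1 + ‖w‖) * ‖GG w a‖ :=
        mul_le_mul_of_nonneg_right h2 (norm_nonneg _)
      have h8 : ‖1 - w‖ * ‖GG w a‖ = ‖1 - w ^ (a + 1)‖ := h
      nlinarith
    have h9 := le_of_mul_le_mul_right h6 (by linarith)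
    linarith

theorem GG_ne {w : ℂ} (hw : ‖w‖ ≤ 1 / 2) (a : ℕ) : GG w a ≠ 0 :=
  norm_pos_iff.1 (by linarith [GG_ge hw a])

/-- `ζ_a = w^{a+1} / G_a`. -/
noncomputable def ze (w : ℂ) (a : ℕ) : ℂ := w ^ (a + 1) / GG w a

theorem ze_le {w : ℂ} (hw : ‖w‖ ≤ 1 / 2) (a : ℕ) (ha : 1 ≤ a) : ‖ze w a‖ ≤ 2 * ‖w‖ ^ 2 := by
  have h1 := GG_ge hw a
  unfold ze
  rw [norm_div, norm_pow, div_le_iff₀ (by linarith)]
  have h2 : ‖w‖ ^ (a + 1) ≤ ‖w‖ ^ 2 :=
    pow_le_pow_of_le_one (norm_nonneg _) (by linarith) (by omega)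
  have h3 : 0 ≤ ‖w‖ ^ 2 := by positivity
  nlinarith

theorem ze_le' {w : ℂ} (hw : ‖w‖ ≤ 1 / 2) (a : ℕ) : ‖ze w a‖ ≤ ‖w‖ := by
  rcases Nat.eq_zero_or_pos a with rfl | ha
  · simp [ze, GG_zero]
  · refine (ze_le hw a ha).trans ?_
    nlinarith [norm_nonneg w]

theorem GG_ratio {w : ℂ} (hw : ‖w‖ ≤ 1 / 2) (a : ℕ) :
    GG w (a + 1) = GG w a * Complex.exp (Complex.log (1 + ze w a)) := by
  have h1 := GG_ne hw a
  have h2 := ze_le' hw a
  rw [Complex.exp_log]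
  · rw [GG_succ, ze]; field_simp
  · intro h
    rw [show ze w a = -1 by linear_combination h] at h2
    norm_num at h2
    linarith

theorem GG_near {w : ℂ} {x η : ℝ} (hw : ‖w‖ ≤ 1 / 2) (hx0 : 0 ≤ x) (hx : x ≤ 1 / 2)
    (h : ‖w - x‖ ≤ η) (a : ℕ) : ‖GG w a - GG x a‖ ≤ 4 * η := by
  have hη : 0 ≤ η := (norm_nonneg _).trans h
  have hxn : ‖(x : ℂ)‖ ≤ 1 / 2 := by rw [Complex.norm_real, Real.norm_of_nonneg hx0]; exact hx
  induction a with
  | zero => simp [GG_zero]; exact hη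
  | succ a ih =>
    rw [GG_succ', GG_succ']
    have e : 1 + w * GG w a - (1 + x * GG x a) = w * (GG w a - GG x a) + (w - x) * GG x a := by ring
    rw [e]
    refine (norm_add_le _ _).trans ?_
    rw [norm_mul, norm_mul]
    have h1 := mul_le_mul hw ih (norm_nonneg _) (by norm_num)
    have h2 := mul_le_mul h (GG_le hxn a) (norm_nonneg _) hη
    linarith

theorem pow_near {w : ℂ} {x η : ℝ} (hw : ‖w‖ ≤ 1 / 2) (hx0 : 0 ≤ x) (hx : x ≤ 1 / 2)
    (h : ‖w - x‖ ≤ η) (n : ℕ) : ‖w ^ n - (x : ℂ) ^ n‖ ≤ η := by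
  have hη : 0 ≤ η := (norm_nonneg _).trans h
  have hxn : ‖(x : ℂ)‖ ≤ 1 / 2 := by rw [Complex.norm_real, Real.norm_of_nonneg hx0]; exact hx
  rcases Nat.eq_zero_or_pos n with rfl | hn
  · simpa using hη
  induction n, hn using Nat.le_induction with
  | base => simpa using h
  | succ n hn ih =>
    have e : w ^ (n + 1) - (x : ℂ) ^ (n + 1) = w * (w ^ n - (x : ℂ) ^ n) + (x : ℂ) ^ n * (w - x) := by
      ring
    rw [e]
    refine (norm_add_le _ _).trans ?_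
    rw [norm_mul, norm_mul, norm_pow]
    have h1 := mul_le_mul hw ih (norm_nonneg _) (by norm_num)
    have h3 : ‖(x : ℂ)‖ ^ n ≤ 1 / 2 := by
      calc ‖(x : ℂ)‖ ^ n ≤ ‖(x : ℂ)‖ ^ 1 :=
            pow_le_pow_of_le_one (norm_nonneg _) (by linarith) hn
        _ ≤ 1 / 2 := by rw [pow_one]; exact hxn
    have h2 := mul_le_mul h3 h (norm_nonneg _) (by norm_num)
    linarith

theorem GG_real (x : ℝ) (a : ℕ) : GG (x : ℂ) a = ((∑ i ∈ range (a + 1), x ^ i : ℝ) : ℂ) := by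
  unfold GG; push_cast; rfl

theorem GG_real_ge {x : ℝ} (hx0 : 0 ≤ x) (a : ℕ) : 1 ≤ ∑ i ∈ range (a + 1), x ^ i := by
  rw [sum_range_succ']
  have : 0 ≤ ∑ i ∈ range a, x ^ (i + 1) := sum_nonneg fun i _ => by positivity
  simpa using this

theorem ze_near {w : ℂ} {x η : ℝ} (hw : ‖w‖ ≤ 1 / 2) (hx0 : 0 ≤ x) (hx : x ≤ 1 / 2)
    (h : ‖w - x‖ ≤ η) (a : ℕ) : ‖ze w a - ze x a‖ ≤ 6 * η := by
  have hη : 0 ≤ η := (norm_nonneg _).trans h
  have hxn : ‖(x : ℂ)‖ ≤ 1 / 2 := by rw [Complex.norm_real, Real.norm_of_nonneg hx0]; exact hx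
  have h1 := GG_ne hw a
  have h2 := GG_ne hxn a
  have g1 := GG_ge hw a
  have g2 : 1 ≤ ‖GG (x : ℂ) a‖ := by
    rw [GG_real, Complex.norm_real, Real.norm_eq_abs]
    exact (GG_real_ge hx0 a).trans (le_abs_self _)
  have e : ze w a - ze x a = ((w ^ (a + 1) - (x : ℂ) ^ (a + 1)) * GG x a +
      (x : ℂ) ^ (a + 1) * (GG x a - GG w a)) / (GG w a * GG x a) := by
    unfold ze; field_simp; ring
  rw [e, norm_div, norm_mul, div_le_iff₀ (by positivity)]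
  refine (norm_add_le _ _).trans ?_
  rw [norm_mul, norm_mul, norm_sub_rev (GG (x : ℂ) a)]
  have h3 := pow_near hw hx0 hx h (a + 1)
  have h4 := GG_near hw hx0 hx h a
  have h5 : ‖(x : ℂ) ^ (a + 1)‖ ≤ 1 / 2 := by
    rw [norm_pow]
    calc ‖(x : ℂ)‖ ^ (a + 1) ≤ ‖(x : ℂ)‖ ^ 1 :=
          pow_le_pow_of_le_one (norm_nonneg _) (by linarith) (by omega)
      _ ≤ 1 / 2 := by rw [pow_one]; exact hxn
  have h6 := mul_le_mul_of_nonneg_right h3 (norm_nonneg (GG (x : ℂ) a))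
  have h7 := mul_le_mul h5 h4 (norm_nonneg _) (by norm_num)
  have h8 : η * ‖GG (x : ℂ) a‖ + 2 * η ≤ 6 * η * (‖GG w a‖ * ‖GG (x : ℂ) a‖) := by
    have h9 : (1 / 2) * ‖GG (x : ℂ) a‖ ≤ ‖GG w a‖ * ‖GG (x : ℂ) a‖ :=
      mul_le_mul_of_nonneg_right g1 (norm_nonneg _)
    have h10 := mul_le_mul_of_nonneg_left h9 (show 0 ≤ 6 * η by positivity)
    have h11 := mul_le_mul_of_nonneg_left g2 hη
    linarith
  linarith

theorem ze_im {w : ℂ} {x η : ℝ} (hw : ‖w‖ ≤ 1 / 2) (hx0 : 0 ≤ x) (hx : x ≤ 1 / 2)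
    (h : ‖w - x‖ ≤ η) (a : ℕ) : |(Complex.log (1 + ze w a)).im| ≤ 12 * η := by
  have hxn : ‖(x : ℂ)‖ ≤ 1 / 2 := by rw [Complex.norm_real, Real.norm_of_nonneg hx0]; exact hx
  have h1 := log_lip ((ze_le' hw a).trans hw) ((ze_le' hxn a).trans hxn)
  have h2 := ze_near hw hx0 hx h a
  have h3 : (Complex.log (1 + ze (x : ℂ) a)).im = 0 := by
    have e : 1 + ze (x : ℂ) a = ((1 + x ^ (a + 1) / ∑ i ∈ range (a + 1), x ^ i : ℝ) : ℂ) := by
      unfold ze; rw [GG_real]; push_cast; rfl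
    rw [e, ← Complex.ofReal_log]
    · simp
    · have := GG_real_ge hx0 a
      positivity
  have h4 := Complex.abs_im_le_norm (Complex.log (1 + ze w a) - Complex.log (1 + ze (x : ℂ) a))
  rw [Complex.sub_im, h3, sub_zero] at h4
  linarith

/-- horizontal primes: `x / 2 ≤ Re v ≤ 3x/2`, `|Im v| ≤ 2η`. -/
theorem vv_near {w : ℂ} {x η : ℝ} (hw : ‖w‖ ≤ 1 / 2) (hx0 : 0 ≤ x) (hx : x ≤ 1 / 2)
    (h : ‖w - x‖ ≤ η) (hη : 12 * η ≤ x) :
    x / 2 ≤ (Complex.log (1 + w)).re ∧ |(Complex.log (1 + w)).im| ≤ 2 * η := by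
  have hxn : ‖(x : ℂ)‖ ≤ 1 / 2 := by rw [Complex.norm_real, Real.norm_of_nonneg hx0]; exact hx
  have h1 := log_lip hw hxn
  have e : Complex.log (1 + (x : ℂ)) = ((Real.log (1 + x) : ℝ) : ℂ) := by
    rw [Complex.ofReal_log (by linarith)]; push_cast; rfl
  rw [e] at h1
  have h2 := Complex.abs_re_le_norm (Complex.log (1 + w) - ((Real.log (1 + x) : ℝ) : ℂ))
  have h3 := Complex.abs_im_le_norm (Complex.log (1 + w) - ((Real.log (1 + x) : ℝ) : ℂ))
  rw [Complex.sub_re, Complex.ofReal_re] at h2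
  rw [Complex.sub_im, Complex.ofReal_im, sub_zero] at h3
  have h4 := Real.one_sub_inv_le_log_of_pos (show 0 < 1 + x by linarith)
  have h5 : 2 / 3 * x ≤ 1 - (1 + x)⁻¹ := by
    have : 1 - (1 + x)⁻¹ = x / (1 + x) := by field_simp; ring
    rw [this, le_div_iff₀ (by linarith)]
    nlinarith
  refine ⟨?_, by linarith⟩
  have h6 := (abs_le.1 (h2.trans (h1.trans (mul_le_mul_of_nonneg_left h (by norm_num))))).1
  linarith

/-- logarithm of `G_k` for `w` near a nonnegative real. -/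
theorem GG_log_near {w : ℂ} {x η : ℝ} (hw : ‖w‖ ≤ 1 / 2) (hx0 : 0 ≤ x) (hx : x ≤ 1 / 2)
    (h : ‖w - x‖ ≤ η) (hη : 8 * η ≤ 1) (a : ℕ) :
    ∃ l : ℂ, GG w a = Complex.exp l ∧ |l.im| ≤ 6 * η := by
  set X := ∑ i ∈ range (a + 1), x ^ i with hX
  have hX1 : 1 ≤ X := GG_real_ge hx0 a
  have hX0 : (X : ℂ) ≠ 0 := by exact_mod_cast (by linarith : X ≠ 0)
  have h1 := GG_near hw hx0 hx h a
  rw [GG_real, ← hX] at h1
  set ξ := (GG w a - X) / X with hξ
  have h2 : ‖ξ‖ ≤ 4 * η := by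
    rw [hξ, norm_div, Complex.norm_real, Real.norm_of_nonneg (by linarith)]
    exact (div_le_self (norm_nonneg _) hX1).trans h1
  refine ⟨((Real.log X : ℝ) : ℂ) + Complex.log (1 + ξ), ?_, ?_⟩
  · rw [Complex.exp_add, ← Complex.ofReal_exp, Real.exp_log (by linarith), Complex.exp_log]
    · rw [hξ]; field_simp; ring
    · intro h3
      rw [show ξ = -1 by linear_combination h3, norm_neg, norm_one] at h2
      linarith
  · rw [Complex.add_im, Complex.ofReal_im, zero_add]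
    refine (Complex.abs_im_le_norm _).trans ((log_bd (by linarith)).trans ?_)
    linarith

/-- logarithm of `G_k` relative to `1 + w`. -/
theorem GG_log_V {w : ℂ} (hw : ‖w‖ ≤ 1 / 4) (a : ℕ) (ha : 1 ≤ a) :
    ∃ l : ℂ, GG w a = Complex.exp l ∧ ‖l - Complex.log (1 + w)‖ ≤ 6 * ‖w‖ ^ 2 := by
  obtain ⟨b, rfl⟩ : ∃ b, a = b + 1 := ⟨a - 1, by omega⟩
  have hw' : ‖w‖ ≤ 1 / 2 := by linarith
  have h0 := norm_nonneg w
  have h1w : 3 / 4 ≤ ‖1 + w‖ := by
    have := norm_sub_norm_le (1 : ℂ) (-w)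
    rw [norm_one, norm_neg, sub_neg_eq_add] at this
    linarith
  have hne : 1 + w ≠ 0 := norm_pos_iff.1 (by linarith)
  set ξ := (GG w (b + 1) - (1 + w)) / (1 + w) with hξ
  have h2 : ‖ξ‖ ≤ 4 * ‖w‖ ^ 2 := by
    have h3 : ‖GG w (b + 1) - (1 + w)‖ ≤ 2 * ‖w‖ ^ 2 := by
      rcases Nat.eq_zero_or_pos b with rfl | hb
      · rw [GG_succ, GG_zero]; simp
      · obtain ⟨d, rfl⟩ : ∃ d, b = d + 1 := ⟨b - 1, by omega⟩
        have e : GG w (d + 1 + 1) - (1 + w) = w ^ 2 * GG w d := by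
          rw [GG_succ', GG_succ']; ring
        rw [e, norm_mul, norm_pow]
        have := mul_le_mul_of_nonneg_left (GG_le hw' d) (sq_nonneg ‖w‖)
        linarith
    rw [hξ, norm_div, div_le_iff₀ (by linarith)]
    nlinarith [sq_nonneg ‖w‖]
  have h3 : 4 * ‖w‖ ^ 2 ≤ 1 / 4 := by nlinarith
  refine ⟨Complex.log (1 + w) + Complex.log (1 + ξ), ?_, ?_⟩
  · rw [Complex.exp_add, Complex.exp_log hne, Complex.exp_log]
    · rw [hξ]; field_simp; ring
    · intro h3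
      rw [show ξ = -1 by linear_combination h3, norm_neg, norm_one] at h2
      linarith
  · rw [add_sub_cancel_left]
    refine (log_bd (by linarith)).trans ?_
    linarith

/-- logarithm of `G_k` for small `w`. -/
theorem GG_log_small {w : ℂ} (hw : ‖w‖ ≤ 1 / 4) (a : ℕ) :
    ∃ l : ℂ, GG w a = Complex.exp l ∧ ‖l‖ ≤ 3 * ‖w‖ := by
  have hw' : ‖w‖ ≤ 1 / 2 := by linarith
  have h0 := norm_nonneg w
  rcases Nat.eq_zero_or_pos a with rfl | ha
  · exact ⟨0, by simp [GG_zero], by simpa using h0⟩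
  · obtain ⟨b, rfl⟩ : ∃ b, a = b + 1 := ⟨a - 1, by omega⟩
    have h1 : ‖w * GG w b‖ ≤ 2 * ‖w‖ := by
      rw [norm_mul]
      have := mul_le_mul_of_nonneg_left (GG_le hw' b) h0
      linarith
    refine ⟨Complex.log (1 + w * GG w b), ?_, ?_⟩
    · rw [Complex.exp_log, GG_succ']
      intro h2
      rw [show w * GG w b = -1 by linear_combination h2, norm_neg, norm_one] at h1
      linarith
    · refine (log_bd (by linarith)).trans ?_
      linarith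

end H90.CD
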