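import Pool.Agent.H90.CD.Poly
import Pool.Graph.R_seed8.H442R2.EHI.PntErr

/-!
Prime exponential sums `∑_{y < q ≤ 2y} q^{2it}` for `t₀ ≤ |t| ≤ (log y)^8`.
-/

set_option autoImplicit false

open Filter Topology Finset

namespace H90.CD

theorem abel1 (f : ℕ → ℂ) (g : ℕ → ℝ) (a b : ℕ) (hab : a ≤ b) :
    ∑ n ∈ Ioc a b, f n * (g n : ℂ) = (∑ n ∈ Ioc a b, f n) * (g (b + 1) : ℂ) +
      ∑ n ∈ Ioc a b, (∑ k ∈ Ioc a n, f k) * ((g n - g (n + 1) : ℝ) : ℂ) := by
  induction b, hab using Nat.le_induction with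
  | base => simp
  | succ b hab ih =>
    rw [sum_Ioc_succ_top (by omega), sum_Ioc_succ_top (by omega), ih,
      sum_Ioc_succ_top (by omega : a ≤ b) (fun n => (∑ k ∈ Ioc a n, f k) * ((g n - g (n + 1) : ℝ) : ℂ)),
      sum_Ioc_succ_top (by omega) f]
    push_cast
    ring

theorem abel1_bd (f : ℕ → ℂ) (g : ℕ → ℝ) (a b : ℕ) (hab : a ≤ b) (B : ℝ)
    (hB : ∀ n, a ≤ n → n ≤ b → ‖∑ k ∈ Ioc a n, f k‖ ≤ B)
    (hg : ∀ n, a < n → g (n + 1) ≤ g n) (hg0 : ∀ n, a < n → 0 ≤ g n) :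
    ‖∑ n ∈ Ioc a b, f n * (g n : ℂ)‖ ≤ B * g (a + 1) := by
  rw [abel1 f g a b hab]
  have htel : ∀ b, a ≤ b → ∑ n ∈ Ioc a b, (g n - g (n + 1)) = g (a + 1) - g (b + 1) := by
    intro b hb
    induction b, hb using Nat.le_induction with
    | base => simp
    | succ b hab ih => rw [sum_Ioc_succ_top (by omega), ih]; ring
  have h1 : ‖(∑ n ∈ Ioc a b, f n) * (g (b + 1) : ℂ)‖ ≤ B * g (b + 1) := by
    rw [norm_mul, Complex.norm_real, Real.norm_of_nonneg (hg0 _ (by omega))]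
    exact mul_le_mul_of_nonneg_right (hB b hab le_rfl) (hg0 _ (by omega))
  have h2 : ‖∑ n ∈ Ioc a b, (∑ k ∈ Ioc a n, f k) * ((g n - g (n + 1) : ℝ) : ℂ)‖ ≤
      B * (g (a + 1) - g (b + 1)) := by
    rw [← htel b hab, mul_sum]
    refine norm_sum_le_of_le _ fun n hn => ?_
    rw [mem_Ioc] at hn
    have h3 : 0 ≤ g n - g (n + 1) := by linarith [hg n hn.1]
    rw [norm_mul, Complex.norm_real, Real.norm_of_nonneg h3]
    exact mul_le_mul_of_nonneg_right (hB n (by omega) hn.2) h3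
  refine (norm_add_le _ _).trans ?_
  linarith

theorem abel2 (f : ℕ → ℂ) (E : ℕ → ℝ) (a b : ℕ) (hab : a ≤ b) :
    ∑ n ∈ Ioc a b, f n * ((E n - E (n - 1) : ℝ) : ℂ) = f b * E b - f a * E a -
      ∑ n ∈ Ioc a b, (f n - f (n - 1)) * (E (n - 1) : ℂ) := by
  induction b, hab using Nat.le_induction with
  | base => simp
  | succ b hab ih =>
    rw [sum_Ioc_succ_top (by omega), sum_Ioc_succ_top (by omega), ih]
    simp only [Nat.add_sub_cancel]
    push_cast
    ring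

theorem lam_bd {m : ℕ} (hm : 1 ≤ m) :
    0 ≤ Real.log ((m + 1 : ℕ) : ℝ) - Real.log m ∧
    Real.log ((m + 1 : ℕ) : ℝ) - Real.log m ≤ 1 / m ∧
    1 / (m : ℝ) - 1 / (m : ℝ) ^ 2 ≤ Real.log ((m + 1 : ℕ) : ℝ) - Real.log m := by
  have hm0 : (0 : ℝ) < m := by exact_mod_cast hm
  have hm1 : (0 : ℝ) < m + 1 := by linarith
  rw [← Real.log_div (by positivity) hm0.ne']
  push_cast
  refine ⟨Real.log_nonneg ?_, ?_, ?_⟩
  · rw [le_div_iff₀ hm0]; linarith
  · have := Real.log_le_sub_one_of_pos (show 0 < ((m : ℝ) + 1) / m by positivity)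
    have h2 : ((m : ℝ) + 1) / m - 1 = 1 / m := by field_simp; ring
    linarith
  · have := Real.one_sub_inv_le_log_of_pos (show 0 < ((m : ℝ) + 1) / m by positivity)
    have h2 : 1 - (((m : ℝ) + 1) / m)⁻¹ = 1 / (m + 1) := by field_simp; ring
    have h3 : 1 / (m : ℝ) - 1 / (m : ℝ) ^ 2 ≤ 1 / (m + 1) := by
      rw [div_sub_div _ _ hm0.ne' (by positivity), div_le_div_iff₀ (by positivity) hm1]
      nlinarith
    linarith

theorem ee_sub (a b : ℝ) : ‖ee a - ee b‖ ≤ |a - b| := by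
  have h : ee a - ee b = ee b * (ee (a - b) - 1) := by
    rw [mul_sub, ← ee_add]; ring_nf
  rw [h, norm_mul, norm_ee, one_mul]
  have := Real.norm_exp_I_mul_ofReal_sub_one_le (x := a - b)
  rw [Real.norm_eq_abs] at this
  unfold ee
  rwa [mul_comm]

theorem ee_quad (θ : ℝ) (h : |θ| ≤ 1) : ‖ee θ - 1 - θ * Complex.I‖ ≤ θ ^ 2 := by
  have h1 : ‖(θ : ℂ) * Complex.I‖ = |θ| := by
    rw [norm_mul, Complex.norm_I, mul_one, Complex.norm_real, Real.norm_eq_abs]
  have := Complex.norm_exp_sub_one_sub_id_le (x := (θ : ℂ) * Complex.I) (by rw [h1]; exact h)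
  rw [h1, sq_abs] at this
  exact this

theorem step (t : ℝ) (m : ℕ) (hm : 1 ≤ m) (hmt : 2 * |t| ≤ m) :
    ‖((m + 1 : ℕ) : ℂ) * ee (2 * Real.log ((m + 1 : ℕ) : ℝ) * t) - m * ee (2 * Real.log m * t) -
      (1 + 2 * t * Complex.I) * ee (2 * Real.log ((m + 1 : ℕ) : ℝ) * t)‖ ≤
      (2 * |t| + 4 * t ^ 2) / m := by
  obtain ⟨l0, l1, l2⟩ := lam_bd hm
  set lam := Real.log ((m + 1 : ℕ) : ℝ) - Real.log m with hlam
  have hm0 : (0 : ℝ) < m := by exact_mod_cast hm
  have e1 : ee (2 * Real.log m * t) = ee (2 * Real.log ((m + 1 : ℕ) : ℝ) * t) *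
      ee (-(2 * lam * t)) := by
    rw [← ee_add]; congr 1; rw [hlam]; ring
  rw [e1]
  have e2 : ((m + 1 : ℕ) : ℂ) * ee (2 * Real.log ((m + 1 : ℕ) : ℝ) * t) -
      m * (ee (2 * Real.log ((m + 1 : ℕ) : ℝ) * t) * ee (-(2 * lam * t))) -
      (1 + 2 * t * Complex.I) * ee (2 * Real.log ((m + 1 : ℕ) : ℝ) * t) =
      ee (2 * Real.log ((m + 1 : ℕ) : ℝ) * t) *
      (-(m * (ee (-(2 * lam * t)) - 1 - ((-(2 * lam * t) : ℝ) : ℂ) * Complex.I)) +
        ((2 * t * (m * lam - 1) : ℝ) : ℂ) * Complex.I) := by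
    push_cast; ring
  rw [e2, norm_mul, norm_ee, one_mul]
  refine (norm_add_le _ _).trans ?_
  rw [norm_neg, norm_mul, norm_mul, Complex.norm_I, mul_one, Complex.norm_real, Real.norm_eq_abs,
    Complex.norm_natCast]
  have h3 : |-(2 * lam * t)| ≤ 2 * |t| / m := by
    rw [abs_neg, abs_mul, abs_of_nonneg (by positivity)]
    have := mul_le_mul_of_nonneg_right l1 (show 0 ≤ 2 * |t| by positivity)
    calc 2 * lam * |t| = lam * (2 * |t|) := by ring
      _ ≤ 1 / m * (2 * |t|) := this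
      _ = _ := by ring
  have h4 := ee_quad (-(2 * lam * t)) (h3.trans (by rw [div_le_one hm0]; exact hmt))
  have h5 : (-(2 * lam * t)) ^ 2 ≤ (2 * |t| / m) ^ 2 := by
    rw [← sq_abs]; exact pow_le_pow_left₀ (abs_nonneg _) h3 2
  have h6 : |m * lam - 1| ≤ 1 / m := by
    rw [abs_le]
    constructor
    · have := mul_le_mul_of_nonneg_left l2 hm0.le
      have h7 : (m : ℝ) * (1 / m - 1 / (m : ℝ) ^ 2) = 1 - 1 / m := by field_simp
      linarith
    · have := mul_le_mul_of_nonneg_left l1 hm0.le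
      have h7 : (m : ℝ) * (1 / m) = 1 := by field_simp
      have : 0 < 1 / (m : ℝ) := by positivity
      linarith
  have h8 : |2 * t * (m * lam - 1)| ≤ 2 * |t| * (1 / m) := by
    rw [abs_mul, abs_mul, abs_of_pos (show (0 : ℝ) < 2 by norm_num)]
    exact mul_le_mul_of_nonneg_left h6 (by positivity)
  have h9 : (m : ℝ) * ‖ee (-(2 * lam * t)) - 1 - ((-(2 * lam * t) : ℝ) : ℂ) * Complex.I‖ ≤
      m * (2 * |t| / m) ^ 2 := mul_le_mul_of_nonneg_left (h4.trans h5) hm0.le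
  have h10 : (m : ℝ) * (2 * |t| / m) ^ 2 + 2 * |t| * (1 / m) = (2 * |t| + 4 * t ^ 2) / m := by
    rw [← sq_abs t]; field_simp; ring
  linarith

theorem S_bd (t : ℝ) (y N : ℕ) (hy : 1 ≤ y) (hyt : 2 * |t| ≤ y) (hN : y ≤ N) (hN' : N ≤ 2 * y) :
    ‖(1 + 2 * t * Complex.I) * ∑ n ∈ Ioc y N, ee (2 * Real.log n * t)‖ ≤
      3 * y + (2 * |t| + 4 * t ^ 2) := by
  have hy0 : (0 : ℝ) < y := by exact_mod_cast hy
  have key : ‖(N : ℂ) * ee (2 * Real.log N * t) - y * ee (2 * Real.log y * t) -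
      (1 + 2 * t * Complex.I) * ∑ n ∈ Ioc y N, ee (2 * Real.log n * t)‖ ≤
      ((N : ℝ) - y) * ((2 * |t| + 4 * t ^ 2) / y) := by
    clear hN'
    induction N, hN using Nat.le_induction with
    | base => simp
    | succ N hN ih =>
      rw [sum_Ioc_succ_top (by omega)]
      have h1 := step t N (by omega) (hyt.trans (by exact_mod_cast hN))
      have h2 : (2 * |t| + 4 * t ^ 2) / N ≤ (2 * |t| + 4 * t ^ 2) / y := by
        have : (y : ℝ) ≤ N := by exact_mod_cast hN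
        exact div_le_div_of_nonneg_left (by positivity) hy0 this
      have e : ((N + 1 : ℕ) : ℂ) * ee (2 * Real.log ((N + 1 : ℕ) : ℝ) * t) -
          y * ee (2 * Real.log y * t) - (1 + 2 * t * Complex.I) *
          (∑ n ∈ Ioc y N, ee (2 * Real.log n * t) + ee (2 * Real.log ((N + 1 : ℕ) : ℝ) * t)) =
          ((N : ℂ) * ee (2 * Real.log N * t) - y * ee (2 * Real.log y * t) -
          (1 + 2 * t * Complex.I) * ∑ n ∈ Ioc y N, ee (2 * Real.log n * t)) +
          (((N + 1 : ℕ) : ℂ) * ee (2 * Real.log ((N + 1 : ℕ) : ℝ) * t) -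
          N * ee (2 * Real.log N * t) -
          (1 + 2 * t * Complex.I) * ee (2 * Real.log ((N + 1 : ℕ) : ℝ) * t)) := by ring
      rw [e]
      refine (norm_add_le _ _).trans ?_
      have h3 : (((N + 1 : ℕ) : ℝ) - y) * ((2 * |t| + 4 * t ^ 2) / y) =
          ((N : ℝ) - y) * ((2 * |t| + 4 * t ^ 2) / y) + (2 * |t| + 4 * t ^ 2) / y := by
        push_cast; ring
      rw [h3]
      linarith
  have hNr : (N : ℝ) ≤ 2 * y := by exact_mod_cast hN'
  have hNy : (y : ℝ) ≤ N := by exact_mod_cast hN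
  have h4 : ((N : ℝ) - y) * ((2 * |t| + 4 * t ^ 2) / y) ≤ 2 * |t| + 4 * t ^ 2 := by
    have h5 : 0 ≤ (2 * |t| + 4 * t ^ 2) / y := by positivity
    calc _ ≤ (y : ℝ) * ((2 * |t| + 4 * t ^ 2) / y) :=
          mul_le_mul_of_nonneg_right (by linarith) h5
      _ = _ := by field_simp
  have h6 : ‖(N : ℂ) * ee (2 * Real.log N * t) - y * ee (2 * Real.log y * t)‖ ≤ 3 * y := by
    refine (norm_sub_le _ _).trans ?_
    rw [norm_mul, norm_mul, norm_ee, norm_ee, Complex.norm_natCast, Complex.norm_natCast]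
    linarith
  have h7 := norm_sub_norm_le ((1 + 2 * t * Complex.I) * ∑ n ∈ Ioc y N, ee (2 * Real.log n * t))
    ((N : ℂ) * ee (2 * Real.log N * t) - y * ee (2 * Real.log y * t))
  rw [norm_sub_rev] at key
  linarith

open Pool.Agent.H442R2.EHI in
theorem pi_sub (y : ℕ) : (((Icc 1 (2 * y)).filter (fun p : ℕ => p.Prime)).card : ℝ) -
    (((Icc 1 y).filter (fun p : ℕ => p.Prime)).card : ℝ) = (PS y).card := by
  have h : (Icc 1 (2 * y)).filter (fun p : ℕ => p.Prime) =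
      ((Icc 1 y).filter (fun p : ℕ => p.Prime)) ∪ PS y := by
    ext p
    simp only [mem_filter, mem_Icc, mem_union, mem_PS]
    constructor
    · rintro ⟨⟨h1, h2⟩, h3⟩
      by_cases h : p ≤ y
      · exact Or.inl ⟨⟨h1, h⟩, h3⟩
      · exact Or.inr ⟨h3, by omega, h2⟩
    · rintro (⟨⟨h1, h2⟩, h3⟩ | ⟨h1, h2, h3⟩)
      · exact ⟨⟨h1, by omega⟩, h3⟩
      · exact ⟨⟨by omega, h3⟩, h1⟩
  rw [h, card_union_of_disjoint]
  · push_cast; ring
  · rw [disjoint_left]
    intro p hp hp'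
    simp only [mem_filter, mem_Icc, mem_PS] at hp hp'
    omega

open Pool.Agent.H442R2.EHI in
theorem lis_sub (y b : ℕ) (hy : 1 ≤ y) (hb : y ≤ b) : lis b - lis y = ∑ n ∈ Ioc y b, 1 / Real.log n := by
  induction b, hb using Nat.le_induction with
  | base => simp
  | succ b hb ih =>
    rw [sum_Ioc_succ_top (by omega), ← ih]
    unfold lis
    rw [sum_Icc_succ_top (by omega)]
    ring

open Pool.Agent.H442R2.EHI in
theorem hcard_ev : ∃ y0 : ℕ, ∀ y : ℕ, y0 ≤ y → (y : ℝ) / (2 * Real.log y) ≤ (PS y).card := by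
  obtain ⟨C, hC⟩ := pnt_err 2
  have hC0 : 0 ≤ C := by
    have h1 := (abs_nonneg _).trans (hC 2 le_rfl)
    have h2 : 0 < Real.log (2 : ℕ) := Real.log_pos (by norm_num)
    by_contra hn
    push Not at hn
    have h3 : C * (2 : ℕ) / Real.log (2 : ℕ) ^ 2 < 0 :=
      div_neg_of_neg_of_pos (by push_cast; linarith) (by positivity)
    linarith
  have t1 : Tendsto (fun y : ℕ => Real.log (y : ℝ)) atTop atTop :=
    Real.tendsto_log_atTop.comp tendsto_natCast_atTop_atTop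
  obtain ⟨y0, hy0⟩ := (t1.eventually_ge_atTop (16 * C + 4)).exists_forall_of_atTop
  refine ⟨max y0 3, fun y hy => ?_⟩
  have hl := hy0 y (le_of_max_le_left hy)
  have hy3 : 3 ≤ y := le_of_max_le_right hy
  have hyr : (3 : ℝ) ≤ y := by exact_mod_cast hy3
  set L := Real.log (y : ℝ) with hL
  have hL0 : 0 < L := by linarith
  have h2y : Real.log ((2 * y : ℕ) : ℝ) = Real.log 2 + L := by
    push_cast; rw [Real.log_mul (by norm_num) (by positivity)]
  have hlog2 : Real.log 2 ≤ 1 := by linarith [Real.log_two_lt_d9]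
  have hlog2' : 0 < Real.log 2 := Real.log_pos (by norm_num)
  have e1 := hC (2 * y) (by omega)
  have e2 := hC y (by omega)
  rw [h2y] at e1
  have e1' : C * ((2 * y : ℕ) : ℝ) / (Real.log 2 + L) ^ 2 ≤ 2 * C * y / L ^ 2 := by
    push_cast
    rw [show C * (2 * (y : ℝ)) = 2 * C * y by ring]
    apply div_le_div_of_nonneg_left (by positivity) (by positivity)
    apply pow_le_pow_left₀ hL0.le; linarith
  have e2' : C * (y : ℝ) / L ^ 2 ≤ C * y / L ^ 2 := le_rfl
  have e3 := lis_sub y (2 * y) (by omega) (by omega)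
  have e4 : (y : ℝ) / (L + 1) ≤ ∑ n ∈ Ioc y (2 * y), 1 / Real.log n := by
    have : ∑ n ∈ Ioc y (2 * y), 1 / (L + 1) ≤ ∑ n ∈ Ioc y (2 * y), 1 / Real.log (n : ℝ) := by
      apply sum_le_sum
      intro n hn
      rw [mem_Ioc] at hn
      have h1 : Real.log (n : ℝ) ≤ L + 1 := by
        have : Real.log (n : ℝ) ≤ Real.log ((2 * y : ℕ) : ℝ) :=
          Real.log_le_log (by exact_mod_cast (by omega : 0 < n)) (by exact_mod_cast hn.2)
        linarith
      have h2 : 0 < Real.log (n : ℝ) := Real.log_pos (by exact_mod_cast (by omega : 1 < n))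
      exact div_le_div_of_nonneg_left (by norm_num) h2 h1
    rw [sum_const, Nat.card_Ioc, nsmul_eq_mul, show 2 * y - y = y by omega] at this
    rw [div_eq_mul_one_div]
    exact this
  have e5 := pi_sub y
  rw [abs_le] at e1 e2
  have e6 : (y : ℝ) / (L + 1) - 3 * C * y / L ^ 2 ≤ (PS y).card := by
    have : 3 * C * y / L ^ 2 = 2 * C * y / L ^ 2 + C * y / L ^ 2 := by ring
    linarith [e1.1, e2.2]
  refine le_trans ?_ e6
  rw [le_sub_iff_add_le, div_add_div _ _ (by positivity) (by positivity), div_le_div_iff₀ (by positivity)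
    (by positivity)]
  have h7 : (y : ℝ) * L ^ 2 + 2 * L * (3 * C * y) = y * L * (L + 6 * C) := by ring
  rw [h7]
  have h8 : (L + 6 * C) * (L + 1) ≤ 2 * L ^ 2 := by nlinarith
  have h9 : 0 ≤ (y : ℝ) * L := by positivity
  nlinarith [mul_le_mul_of_nonneg_left h8 h9]


/-- `π(n)`. -/
noncomputable def pp (n : ℕ) : ℝ := (((Icc 1 n).filter (fun p : ℕ => p.Prime)).card : ℝ)

theorem pp_succ (n : ℕ) (hn : 1 ≤ n) : pp n - pp (n - 1) = if n.Prime then 1 else 0 := by
  obtain ⟨m, rfl⟩ : ∃ m, n = m + 1 := ⟨n - 1, by omega⟩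
  simp only [Nat.add_sub_cancel, pp]
  rw [← insert_Icc_right_eq_Icc_add_one (by omega), filter_insert]
  split_ifs with h
  · rw [card_insert_of_notMem (by simp)]
    push_cast; ring
  · ring

theorem SS_eq (y : ℕ) (t : ℝ) : SS y t =
    ∑ n ∈ Ioc y (2 * y), ee (2 * Real.log n * t) * ((pp n - pp (n - 1) : ℝ) : ℂ) := by
  unfold SS PS
  rw [sum_filter]
  apply sum_congr rfl
  intro n hn
  rw [mem_Ioc] at hn
  rw [pp_succ n (by omega)]
  split_ifs <;> simp

open Pool.Agent.H442R2.EHI in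
theorem hfar_ev : ∃ y0 : ℕ, ∀ y : ℕ, y0 ≤ y → ∀ t : ℝ, 24 ≤ |t| → |t| ≤ Real.log y ^ 8 →
      ‖SS y t‖ ≤ (PS y).card / 2 := by
  obtain ⟨y1, hy1⟩ := hcard_ev
  obtain ⟨C, hC⟩ := pnt_err 10
  have hC0 : 0 ≤ C := by
    have h1 := (abs_nonneg _).trans (hC 2 le_rfl)
    have h2 : 0 < Real.log (2 : ℕ) := Real.log_pos (by norm_num)
    by_contra hn
    push Not at hn
    have h3 : C * (2 : ℕ) / Real.log (2 : ℕ) ^ 10 < 0 :=
      div_neg_of_neg_of_pos (by push_cast; linarith) (by positivity)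
    linarith
  have t1 : Tendsto (fun y : ℕ => Real.log (y : ℝ)) atTop atTop :=
    Real.tendsto_log_atTop.comp tendsto_natCast_atTop_atTop
  have t2 : ∀ᶠ x : ℝ in atTop, ‖Real.log x ^ 8‖ ≤ (1 / 64) * ‖id x‖ :=
    (Real.isLittleO_pow_log_id_atTop (n := 8)).bound (by norm_num)
  obtain ⟨y2, hy2⟩ := ((t1.eventually_ge_atTop (64 * C + 1)).and
    ((tendsto_natCast_atTop_atTop (R := ℝ)).eventually t2)).exists_forall_of_atTop
  refine ⟨max y1 (max y2 100), fun y hy t ht1 ht2 => ?_⟩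
  have hyy1 : y1 ≤ y := le_of_max_le_left hy
  have hyy2 : y2 ≤ y := le_of_max_le_left (le_of_max_le_right hy)
  have hy3 : 100 ≤ y := le_of_max_le_right (le_of_max_le_right hy)
  have hyr : (100 : ℝ) ≤ y := by exact_mod_cast hy3
  obtain ⟨hL1, hL2⟩ := hy2 y hyy2
  have hcd := hy1 y hyy1
  set L := Real.log (y : ℝ) with hL
  have hL0 : 1 ≤ L := by linarith
  rw [Real.norm_of_nonneg (by positivity), id, Real.norm_of_nonneg (by positivity)] at hL2
  have hty : 2 * |t| ≤ y := by linarith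
  have hmono : ∀ n : ℕ, y ≤ n → L ≤ Real.log n := fun n hn =>
    Real.log_le_log (by linarith) (by exact_mod_cast hn)
  -- the error function
  set E : ℕ → ℝ := fun n => pp n - lis n with hE
  have hEb : ∀ n : ℕ, y ≤ n → n ≤ 2 * y → |E n| ≤ 2 * C * y / L ^ 10 := by
    intro n h1 h2
    refine (hC n (by omega)).trans ?_
    have h3 : (n : ℝ) ≤ 2 * y := by exact_mod_cast h2
    apply div_le_div₀ (by positivity) _ (by positivity) (pow_le_pow_left₀ (by linarith) (hmono n h1) 10)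
    nlinarith
  have hsplit : SS y t = ∑ n ∈ Ioc y (2 * y), ee (2 * Real.log n * t) * ((1 / Real.log n : ℝ) : ℂ) +
      ∑ n ∈ Ioc y (2 * y), ee (2 * Real.log n * t) * ((E n - E (n - 1) : ℝ) : ℂ) := by
    rw [SS_eq, ← sum_add_distrib]
    apply sum_congr rfl
    intro n hn
    rw [mem_Ioc] at hn
    rw [← mul_add, ← Complex.ofReal_add]
    congr 2
    have := lis_sub (n - 1) n (by omega) (by omega)
    rw [show Ioc (n - 1) n = {n} by ext k; simp only [mem_Ioc, mem_singleton]; omega,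
      sum_singleton] at this
    simp only [hE]
    linarith
  -- first sum
  have hB : ∀ n, y ≤ n → n ≤ 2 * y → ‖∑ k ∈ Ioc y n, ee (2 * Real.log k * t)‖ ≤ y / 8 := by
    intro n h1 h2
    have h3 := S_bd t y n (by omega) hty h1 h2
    rw [norm_mul] at h3
    have h4 : 2 * |t| ≤ ‖(1 : ℂ) + 2 * t * Complex.I‖ := by
      have := Complex.abs_im_le_norm ((1 : ℂ) + 2 * t * Complex.I)
      simpa [abs_mul] using this
    have h5 := mul_le_mul_of_nonneg_right h4 (norm_nonneg (∑ k ∈ Ioc y n, ee (2 * Real.log k * t)))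
    have h6 : 2 * |t| * ‖∑ k ∈ Ioc y n, ee (2 * Real.log k * t)‖ ≤ 2 * |t| * (y / 8) := by
      refine (h5.trans h3).trans ?_
      rw [← sq_abs t]
      nlinarith
    exact le_of_mul_le_mul_left h6 (by linarith)
  have hs1 : ‖∑ n ∈ Ioc y (2 * y), ee (2 * Real.log n * t) * ((1 / Real.log n : ℝ) : ℂ)‖ ≤
      y / (8 * L) := by
    refine (abel1_bd _ (fun n : ℕ => 1 / Real.log n) y (2 * y) (by omega) (y / 8) hB ?_ ?_).trans ?_
    · intro n hn
      have h1 : 0 < Real.log (n : ℝ) := by linarith [hmono n hn.le]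
      exact div_le_div_of_nonneg_left (by norm_num) h1
        (Real.log_le_log (by exact_mod_cast (by omega : 0 < n)) (by push_cast; linarith))
    · intro n hn
      have h1 : 0 < Real.log (n : ℝ) := by linarith [hmono n hn.le]
      positivity
    · have h1 : (1 : ℝ) / Real.log ((y + 1 : ℕ) : ℝ) ≤ 1 / L :=
        div_le_div_of_nonneg_left (by norm_num) (by linarith) (hmono _ (by omega))
      calc (y : ℝ) / 8 * (1 / Real.log ((y + 1 : ℕ) : ℝ)) ≤ y / 8 * (1 / L) :=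
            mul_le_mul_of_nonneg_left h1 (by positivity)
        _ = _ := by field_simp
  have hs2 : ‖∑ n ∈ Ioc y (2 * y), ee (2 * Real.log n * t) * ((E n - E (n - 1) : ℝ) : ℂ)‖ ≤
      8 * C * y / L ^ 2 := by
    rw [abel2 (fun n => ee (2 * Real.log n * t)) E y (2 * y) (by omega)]
    have hBE : 0 ≤ 2 * C * y / L ^ 10 := by positivity
    have h1 : ‖∑ n ∈ Ioc y (2 * y), (ee (2 * Real.log n * t) - ee (2 * Real.log ((n - 1 : ℕ) : ℝ) * t)) *
        (E (n - 1) : ℂ)‖ ≤ 2 * |t| * (2 * C * y / L ^ 10) := by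
      have h2 : ∀ n ∈ Ioc y (2 * y), ‖(ee (2 * Real.log n * t) -
          ee (2 * Real.log ((n - 1 : ℕ) : ℝ) * t)) * (E (n - 1) : ℂ)‖ ≤
          (2 * |t| / y) * (2 * C * y / L ^ 10) := by
        intro n hn
        rw [mem_Ioc] at hn
        rw [norm_mul, Complex.norm_real, Real.norm_eq_abs]
        apply mul_le_mul _ (hEb _ (by omega) (by omega)) (abs_nonneg _) (by positivity)
        refine (ee_sub _ _).trans ?_
        have h3 := lam_bd (show 1 ≤ n - 1 by omega)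
        rw [show n - 1 + 1 = n by omega] at h3
        rw [show 2 * Real.log n * t - 2 * Real.log ((n - 1 : ℕ) : ℝ) * t =
          2 * (Real.log n - Real.log ((n - 1 : ℕ) : ℝ)) * t by ring, abs_mul,
          abs_of_nonneg (by linarith)]
        have h4 : (1 : ℝ) / ((n - 1 : ℕ) : ℝ) ≤ 1 / y :=
          div_le_div_of_nonneg_left (by norm_num) (by linarith) (by exact_mod_cast (by omega : y ≤ n - 1))
        have h5 := mul_le_mul_of_nonneg_right (h3.2.1.trans h4) (show 0 ≤ 2 * |t| by positivity)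
        calc _ = (Real.log n - Real.log ((n - 1 : ℕ) : ℝ)) * (2 * |t|) := by ring
          _ ≤ _ := h5
          _ = _ := by ring
      refine (norm_sum_le_of_le _ h2).trans (le_of_eq ?_)
      rw [sum_const, Nat.card_Ioc, nsmul_eq_mul, show 2 * y - y = y by omega]
      field_simp
    have h2 : ‖ee (2 * Real.log ((2 * y : ℕ) : ℝ) * t) * (E (2 * y) : ℂ)‖ ≤ 2 * C * y / L ^ 10 := by
      rw [norm_mul, norm_ee, one_mul, Complex.norm_real, Real.norm_eq_abs]
      exact hEb _ (by omega) le_rfl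
    have h3 : ‖ee (2 * Real.log (y : ℝ) * t) * (E y : ℂ)‖ ≤ 2 * C * y / L ^ 10 := by
      rw [norm_mul, norm_ee, one_mul, Complex.norm_real, Real.norm_eq_abs]
      exact hEb _ le_rfl (by omega)
    have h4 := norm_sub_le (ee (2 * Real.log ((2 * y : ℕ) : ℝ) * t) * (E (2 * y) : ℂ) -
      ee (2 * Real.log (y : ℝ) * t) * (E y : ℂ)) (∑ n ∈ Ioc y (2 * y),
        (ee (2 * Real.log n * t) - ee (2 * Real.log ((n - 1 : ℕ) : ℝ) * t)) * (E (n - 1) : ℂ))
    have h5 := norm_sub_le (ee (2 * Real.log ((2 * y : ℕ) : ℝ) * t) * (E (2 * y) : ℂ))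
      (ee (2 * Real.log (y : ℝ) * t) * (E y : ℂ))
    have h6 : (2 + 2 * |t|) * (2 * C * y / L ^ 10) ≤ 4 * L ^ 8 * (2 * C * y / L ^ 10) := by
      apply mul_le_mul_of_nonneg_right _ hBE
      have : 1 ≤ L ^ 8 := one_le_pow₀ hL0
      linarith
    have h7 : 4 * L ^ 8 * (2 * C * y / L ^ 10) = 8 * C * y / L ^ 2 := by
      field_simp
      ring
    refine h4.trans ?_
    have h8 : (2 + 2 * |t|) * (2 * C * y / L ^ 10) = 2 * C * y / L ^ 10 + 2 * C * y / L ^ 10 +
      2 * |t| * (2 * C * y / L ^ 10) := by ring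
    linarith
  rw [hsplit]
  refine (norm_add_le _ _).trans ?_
  have h9 : 8 * C * y / L ^ 2 ≤ y / (8 * L) := by
    rw [div_le_div_iff₀ (by positivity) (by positivity)]
    have : 64 * C * (y * L) ≤ L * (y * L) := mul_le_mul_of_nonneg_right (by linarith) (by positivity)
    nlinarith
  have h10 : (y : ℝ) / (8 * L) + y / (8 * L) = (y / (2 * L)) / 2 := by field_simp; ring
  linarith

/-- The unconditional form of `good`. -/
theorem far_all : ∃ y0 : ℕ, (∀ y : ℕ, y0 ≤ y → ∀ t : ℝ, 24 ≤ |t| → |t| ≤ Real.log y ^ 8 →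
      ‖SS y t‖ ≤ (PS y).card / 2) ∧
    (∀ y : ℕ, y0 ≤ y → (y : ℝ) / (2 * Real.log y) ≤ (PS y).card) := by
  obtain ⟨a, ha⟩ := hfar_ev
  obtain ⟨b, hb⟩ := hcard_ev
  exact ⟨max a b, fun y hy => ha y (le_of_max_le_left hy), fun y hy => hb y (le_of_max_le_right hy)⟩

end H90.CD
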