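import Pool.Agent.H90.CD.Est

/-!
The frame bound in a dyadic block and the resulting ball lemma.
-/

set_option autoImplicit false

open Finset Filter Topology

namespace H90.CD

/-- `c = -r + i τ`. -/
noncomputable def cc (r τ : ℝ) : ℂ := ⟨-r, τ⟩

theorem cc_re (r τ : ℝ) : (cc r τ).re = -r := rfl

theorem w_eq (r τ : ℝ) {q : ℕ} (hq : 0 < q) :
    (q : ℂ) ^ cc r τ = (((q : ℝ) ^ (-r) : ℝ) : ℂ) * ee (Real.log q * τ) := by
  have hq' : (0 : ℝ) < q := by exact_mod_cast hq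
  rw [Complex.cpow_def_of_ne_zero (by exact_mod_cast hq.ne'), ← Complex.natCast_log,
    Real.rpow_def_of_pos hq', Complex.ofReal_exp, ee, ← Complex.exp_add]
  congr 1
  apply Complex.ext <;> simp [cc] <;> ring

theorem x_pos (r : ℝ) {q : ℕ} (hq : 0 < q) : 0 < (q : ℝ) ^ (-r) :=
  Real.rpow_pos_of_pos (by exact_mod_cast hq) _

theorem norm_w' (r τ : ℝ) {q : ℕ} (hq : 0 < q) : ‖(q : ℂ) ^ cc r τ‖ = (q : ℝ) ^ (-r) :=
  norm_w hq

theorem x_anti {r : ℝ} (hr : 1 < r) {a b : ℕ} (ha : 0 < a) (hab : a ≤ b) :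
    (b : ℝ) ^ (-r) ≤ (a : ℝ) ^ (-r) :=
  Real.rpow_le_rpow_of_nonpos (by exact_mod_cast ha) (by exact_mod_cast hab) (by linarith)

theorem frame {r τ : ℝ} (hr : 1 < r) {y : ℕ} (hy : 16 ≤ y)
    (hS : ‖SS y τ‖ ≤ (PS y).card / 2) (u : ℂ) :
    (PS y).card * (2 * y : ℝ) ^ (-r) / 8 * ‖u‖ ≤
      ∑ q ∈ PS y, |(vv (cc r τ) q * (starRingEnd ℂ) u).re| := by
  set n : ℝ := ((PS y).card : ℝ) with hn
  set X : ℝ := (2 * y : ℝ) ^ (-r) with hX
  set ρ : ℝ := ‖u‖ with hρ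
  have hy0 : (16 : ℝ) ≤ y := by exact_mod_cast hy
  have hX0 : 0 < X := Real.rpow_pos_of_pos (by linarith) _
  have hn0 : 0 ≤ n := by positivity
  rcases (norm_nonneg u).eq_or_lt with h0 | h0
  · rw [hρ, ← h0, mul_zero]
    exact sum_nonneg fun _ _ => abs_nonneg _
  have hρ0 : 0 < ρ := h0
  set e : ℕ → ℂ := fun q => ee (Real.log q * τ) with he
  set t : ℕ → ℝ := fun q => (e q * (starRingEnd ℂ) u).re with ht
  have hsq : ∀ q, 2 * t q ^ 2 = ρ ^ 2 + (e q ^ 2 * (starRingEnd ℂ) u ^ 2).re := by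
    intro q
    have h1 : ∀ z : ℂ, 2 * z.re ^ 2 = ‖z‖ ^ 2 + (z ^ 2).re := by
      intro z
      rw [Complex.sq_norm, Complex.normSq_apply, pow_two z, Complex.mul_re]
      ring
    have h2 := h1 (e q * (starRingEnd ℂ) u)
    rw [norm_mul, RCLike.norm_conj, he, norm_ee, one_mul, mul_pow] at h2
    exact h2
  have habs : ∀ q, t q ^ 2 ≤ ρ * |t q| := by
    intro q
    have h1 : |t q| ≤ ρ := by
      have := Complex.abs_re_le_norm (e q * (starRingEnd ℂ) u)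
      rw [norm_mul, RCLike.norm_conj, he, norm_ee, one_mul] at this
      exact this
    rw [← sq_abs, pow_two]
    exact mul_le_mul_of_nonneg_right h1 (abs_nonneg _)
  have hSS : SS y τ = ∑ q ∈ PS y, e q ^ 2 := by
    unfold SS
    apply sum_congr rfl
    intro q _
    rw [he]
    simp only
    rw [ee_pow]
    congr 1
    push_cast
    ring
  have hsum : n * ρ ^ 2 / 4 ≤ ∑ q ∈ PS y, t q ^ 2 := by
    have h1 : 2 * ∑ q ∈ PS y, t q ^ 2 = n * ρ ^ 2 + (SS y τ * (starRingEnd ℂ) u ^ 2).re := by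
      rw [mul_sum, sum_congr rfl fun q _ => hsq q, sum_add_distrib, sum_const, nsmul_eq_mul, hSS,
        sum_mul, Complex.re_sum]
    have h2 : |(SS y τ * (starRingEnd ℂ) u ^ 2).re| ≤ n / 2 * ρ ^ 2 := by
      refine (Complex.abs_re_le_norm _).trans ?_
      rw [norm_mul, norm_pow, RCLike.norm_conj]
      exact mul_le_mul_of_nonneg_right hS (by positivity)
    have h3 := (abs_le.1 h2).1
    linarith
  have hxq : ∀ q ∈ PS y, X ≤ (q : ℝ) ^ (-r) ∧ ((q : ℝ) ^ (-r)) ^ 2 ≤ X / 8 ∧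
      (q : ℝ) ^ (-r) ≤ 1 / 2 := by
    intro q hq
    obtain ⟨h1, h2, h3⟩ := mem_PS.1 hq
    have hq0 : (0 : ℝ) < q := by exact_mod_cast h1.pos
    have h4 : (q : ℝ) ^ (-r) ≤ (y : ℝ) ^ (-r) := x_anti hr (by omega) h2.le
    have h5 : (y : ℝ) ^ (-r) ≤ (16 : ℝ) ^ (-r) :=
      Real.rpow_le_rpow_of_nonpos (by norm_num) hy0 (by linarith)
    have h6 : (16 : ℝ) ^ (-r) = (2 : ℝ) ^ (-r) * (8 : ℝ) ^ (-r) := by
      rw [← Real.mul_rpow (by norm_num) (by norm_num)]; norm_num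
    have h7 : (8 : ℝ) ^ (-r) ≤ 1 / 8 := by
      refine (Real.rpow_le_rpow_of_exponent_le (by norm_num) (by linarith : -r ≤ -1)).trans ?_
      rw [Real.rpow_neg_one]; norm_num
    have h8 : (2 : ℝ) ^ (-r) ≤ 1 / 2 := by
      refine (Real.rpow_le_rpow_of_exponent_le (by norm_num) (by linarith : -r ≤ -1)).trans ?_
      rw [Real.rpow_neg_one]; norm_num
    have h9 : 0 < (2 : ℝ) ^ (-r) := Real.rpow_pos_of_pos (by norm_num) _
    have h10 : X = (2 : ℝ) ^ (-r) * (y : ℝ) ^ (-r) := by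
      rw [hX, Real.mul_rpow (by norm_num) (by linarith)]
    have h11 : 0 < (y : ℝ) ^ (-r) := Real.rpow_pos_of_pos (by linarith) _
    have h12 : 0 < (q : ℝ) ^ (-r) := Real.rpow_pos_of_pos hq0 _
    refine ⟨Real.rpow_le_rpow_of_nonpos hq0 (by exact_mod_cast h3) (by linarith), ?_, ?_⟩
    · have h13 : (y : ℝ) ^ (-r) ≤ (2 : ℝ) ^ (-r) / 8 := by nlinarith
      calc ((q : ℝ) ^ (-r)) ^ 2 ≤ ((y : ℝ) ^ (-r)) ^ 2 := pow_le_pow_left₀ h12.le h4 2
        _ = (y : ℝ) ^ (-r) * (y : ℝ) ^ (-r) := pow_two _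
        _ ≤ (2 : ℝ) ^ (-r) / 8 * (y : ℝ) ^ (-r) := mul_le_mul_of_nonneg_right h13 h11.le
        _ = X / 8 := by rw [h10]; ring
    · have : (16 : ℝ) ^ (-r) ≤ 1 / 2 := by rw [h6]; nlinarith
      linarith
  have hterm : ∀ q ∈ PS y, X * t q ^ 2 - X / 8 * ρ ^ 2 ≤
      ρ * |(vv (cc r τ) q * (starRingEnd ℂ) u).re| := by
    intro q hq
    obtain ⟨h1, h2, h3⟩ := hxq q hq
    have hq0 : 0 < q := (mem_PS.1 hq).1.pos
    have hw := norm_w' r τ hq0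
    have h4 := log_sub_bd (w := (q : ℂ) ^ cc r τ) (by rw [hw]; exact h3)
    rw [hw] at h4
    have h5 : vv (cc r τ) q * (starRingEnd ℂ) u = (q : ℂ) ^ cc r τ * (starRingEnd ℂ) u +
        (vv (cc r τ) q - (q : ℂ) ^ cc r τ) * (starRingEnd ℂ) u := by ring
    have h6 : |((vv (cc r τ) q - (q : ℂ) ^ cc r τ) * (starRingEnd ℂ) u).re| ≤ X / 8 * ρ := by
      refine (Complex.abs_re_le_norm _).trans ?_
      rw [norm_mul, RCLike.norm_conj]
      exact mul_le_mul_of_nonneg_right (h4.trans h2) hρ0.le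
    have h7 : ((q : ℂ) ^ cc r τ * (starRingEnd ℂ) u).re = (q : ℝ) ^ (-r) * t q := by
      rw [w_eq r τ hq0, mul_assoc, Complex.re_ofReal_mul]
    have h8 : (q : ℝ) ^ (-r) * |t q| - X / 8 * ρ ≤ |(vv (cc r τ) q * (starRingEnd ℂ) u).re| := by
      rw [h5, Complex.add_re, h7]
      have h9 := abs_sub_abs_le_abs_sub ((q : ℝ) ^ (-r) * t q)
        (-((vv (cc r τ) q - (q : ℂ) ^ cc r τ) * (starRingEnd ℂ) u).re)
      rw [abs_neg, sub_neg_eq_add, abs_mul, abs_of_pos (x_pos r hq0)] at h9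
      linarith
    have h10 := mul_le_mul_of_nonneg_left h8 hρ0.le
    have h11 : X * t q ^ 2 ≤ ρ * ((q : ℝ) ^ (-r) * |t q|) := by
      calc X * t q ^ 2 ≤ X * (ρ * |t q|) := mul_le_mul_of_nonneg_left (habs q) hX0.le
        _ ≤ (q : ℝ) ^ (-r) * (ρ * |t q|) := mul_le_mul_of_nonneg_right h1 (by positivity)
        _ = _ := by ring
    nlinarith
  have hfin := sum_le_sum hterm
  rw [sum_sub_distrib, ← mul_sum, sum_const, nsmul_eq_mul, ← mul_sum, ← hn] at hfin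
  have h12 : X * (n * ρ ^ 2 / 4) ≤ X * ∑ q ∈ PS y, t q ^ 2 := mul_le_mul_of_nonneg_left hsum hX0.le
  have h13 : ρ * (n * X / 8 * ρ) ≤ ρ * ∑ q ∈ PS y, |(vv (cc r τ) q * (starRingEnd ℂ) u).re| := by
    refine le_trans (le_of_eq ?_) (le_trans (sub_le_sub_right h12 (n * (X / 8 * ρ ^ 2))) hfin)
    ring
  exact le_of_mul_le_mul_left h13 hρ0

/-- radius for the block `(2^j P, 2^{j+1} P]`. -/
noncomputable def LL (r : ℝ) (y : ℕ) : ℝ := (PS y).card * (2 * y : ℝ) ^ (-r) / 8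

theorem LL_step {r : ℝ} (hr2 : r ≤ 2) {P : ℕ} (hP : 16 ≤ P)
    (hn : ∀ j : ℕ, 768 ≤ (PS (2 ^ j * P)).card) (j : ℕ) :
    3 / 2 * ((2 ^ j * P : ℕ) : ℝ) ^ (-r) ≤ LL r (2 ^ (j + 1) * P) := by
  have hyj : ∀ j, 16 ≤ 2 ^ j * P := fun j => hP.trans (Nat.le_mul_of_pos_left _ Nat.one_le_two_pow)
  have h4r : (1 / 16 : ℝ) ≤ (4 : ℝ) ^ (-r) := by
    refine le_trans ?_ (Real.rpow_le_rpow_of_exponent_le (by norm_num) (by linarith : (-2 : ℝ) ≤ -r))
    rw [Real.rpow_neg (by norm_num), Real.rpow_two]; norm_num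
  unfold LL
  have h1 : (2 * ((2 ^ (j + 1) * P : ℕ) : ℝ)) ^ (-r) = (4 : ℝ) ^ (-r) * ((2 ^ j * P : ℕ) : ℝ) ^ (-r) := by
    rw [← Real.mul_rpow (by norm_num) (by positivity)]
    congr 1
    push_cast
    ring
  rw [h1]
  have h2 : (768 : ℝ) ≤ (PS (2 ^ (j + 1) * P)).card := by exact_mod_cast hn (j + 1)
  have h3 : 0 < ((2 ^ j * P : ℕ) : ℝ) ^ (-r) := x_pos r (by have := hyj j; omega)
  have h4 : (48 : ℝ) ≤ (PS (2 ^ (j + 1) * P)).card * (4 : ℝ) ^ (-r) := by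
    calc (48 : ℝ) = 768 * (1 / 16) := by norm_num
      _ ≤ _ := mul_le_mul h2 h4r (by norm_num) (by positivity)
  nlinarith

theorem ball' {r τ : ℝ} (hr : 1 < r) (hr2 : r ≤ 2) {P : ℕ} (hP : 16 ≤ P)
    (hn : ∀ j : ℕ, 768 ≤ (PS (2 ^ j * P)).card)
    (hS : ∀ j : ℕ, ‖SS (2 ^ j * P) τ‖ ≤ (PS (2 ^ j * P)).card / 2) {j : ℕ} {z : ℂ}
    (hz : ‖z‖ ≤ LL r (2 ^ j * P)) : Ap (cc r τ) (fun p => 2 ^ j * P < p) z := by
  have hyj : ∀ j, 16 ≤ 2 ^ j * P := fun j => hP.trans (Nat.le_mul_of_pos_left _ Nat.one_le_two_pow)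
  refine ball (L := fun j => LL r (2 ^ j * P)) (b := fun j => 3 / 2 * ((2 ^ j * P : ℕ) : ℝ) ^ (-r))
    (fun j => by positivity) (fun j u => frame hr (hyj j) (hS j) u) ?_ ?_ ?_ hz
  · intro j q hq
    obtain ⟨h1, h2, h3⟩ := mem_PS.1 hq
    have h4 := norm_w' r τ h1.pos
    have h5 : ‖(q : ℂ) ^ cc r τ‖ ≤ 1 / 2 := norm_half (by rw [cc_re]; linarith) h1.two_le
    refine (log_bd h5).trans ?_
    rw [h4]
    exact mul_le_mul_of_nonneg_left (x_anti hr (by have := hyj j; omega) h2.le) (by norm_num)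
  · exact LL_step hr2 hP hn
  · have h1 : Tendsto (fun j : ℕ => ((2 ^ j * P : ℕ) : ℝ)) atTop atTop := by
      apply tendsto_natCast_atTop_atTop.comp
      apply tendsto_atTop_mono (fun j => ?_) tendsto_id
      calc j ≤ 2 ^ j := Nat.lt_two_pow_self.le
        _ ≤ 2 ^ j * P := Nat.le_mul_of_pos_right _ (by omega)
    have h2 := (tendsto_rpow_neg_atTop (show 0 < r by linarith)).comp h1
    have h3 := h2.const_mul (3 / 2 : ℝ)
    rw [mul_zero] at h3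
    exact h3

end H90.CD
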