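import Mathlib

/-!
Gaussian averages of trigonometric polynomials.
-/

set_option autoImplicit false

open MeasureTheory ProbabilityTheory Filter Topology Finset

namespace H90.CD

/-- The standard Gaussian measure. -/
noncomputable abbrev gm : Measure ℝ := gaussianReal 0 1

/-- `exp (i x)`. -/
noncomputable def ee (x : ℝ) : ℂ := Complex.exp (x * Complex.I)

theorem norm_ee (x : ℝ) : ‖ee x‖ = 1 := Complex.norm_exp_ofReal_mul_I x

theorem ee_zero : ee 0 = 1 := by simp [ee]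

theorem ee_add (x y : ℝ) : ee (x + y) = ee x * ee y := by
  simp only [ee]; rw [← Complex.exp_add]; push_cast; ring_nf

theorem ee_ne (x : ℝ) : ee x ≠ 0 := Complex.exp_ne_zero _

theorem conj_ee (x : ℝ) : (starRingEnd ℂ) (ee x) = ee (-x) := by
  simp only [ee]; rw [← Complex.exp_conj]; simp

theorem ee_pow (x : ℝ) (n : ℕ) : ee x ^ n = ee (n * x) := by
  simp only [ee]; rw [← Complex.exp_nat_mul]; push_cast; ring_nf

theorem cont_ee : Continuous ee := by unfold ee; fun_prop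

theorem int_ee (a : ℝ) : ∫ u, ee (a * u) ∂gm = (Real.exp (-a ^ 2 / 2) : ℂ) := by
  have h := charFun_gaussianReal (μ := 0) (v := 1) a
  rw [charFun_apply_real] at h
  rw [← show (∫ x : ℝ, Complex.exp (a * x * Complex.I) ∂gm) = ∫ u, ee (a * u) ∂gm by
    congr 1; ext u; simp [ee], h]
  push_cast
  congr 1
  simp
  ring

theorem integrable_ee (a : ℝ) (c : ℂ) : Integrable (fun u => c * ee (a * u)) gm := by
  refine Integrable.of_bound (C := ‖c‖) ?_ (Eventually.of_forall fun u => ?_)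
  · exact (continuous_const.mul (cont_ee.comp (continuous_const.mul continuous_id))).aestronglyMeasurable
  · rw [norm_mul, norm_ee, mul_one]

theorem ms {ι : Type*} (s : Finset ι) (b : ι → ℂ) (l : ι → ℝ) (T : ℝ) :
    ∫ u, ‖∑ k ∈ s, b k * ee (l k * (T * u))‖ ^ 2 ∂gm =
      ∑ k ∈ s, ∑ j ∈ s, (b k * (starRingEnd ℂ) (b j)).re *
        Real.exp (-((l k - l j) * T) ^ 2 / 2) := by
  have h1 : ∀ u : ℝ, ((‖∑ k ∈ s, b k * ee (l k * (T * u))‖ ^ 2 : ℝ) : ℂ) =
      ∑ k ∈ s, ∑ j ∈ s, (b k * (starRingEnd ℂ) (b j)) * ee ((l k - l j) * T * u) := by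
    intro u
    rw [← Complex.normSq_eq_norm_sq, Complex.normSq_eq_conj_mul_self, mul_comm, map_sum,
      sum_mul_sum]
    refine sum_congr rfl fun k _ => sum_congr rfl fun j _ => ?_
    rw [map_mul, conj_ee, show (l k - l j) * T * u = l k * (T * u) + -(l j * (T * u)) by ring,
      ee_add]
    ring
  have h2 : ((∫ u, ‖∑ k ∈ s, b k * ee (l k * (T * u))‖ ^ 2 ∂gm : ℝ) : ℂ) =
      ∑ k ∈ s, ∑ j ∈ s, (b k * (starRingEnd ℂ) (b j)) *
        (Real.exp (-((l k - l j) * T) ^ 2 / 2) : ℂ) := by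
    rw [← integral_complex_ofReal]
    simp_rw [h1]
    rw [integral_finsetSum _ fun k _ => integrable_finsetSum _ fun j _ => integrable_ee _ _]
    refine sum_congr rfl fun k _ => ?_
    rw [integral_finsetSum _ fun j _ => integrable_ee _ _]
    refine sum_congr rfl fun j _ => ?_
    rw [integral_const_mul, int_ee]
  have h3 := congrArg Complex.re h2
  rw [Complex.ofReal_re] at h3
  rw [h3, Complex.re_sum]
  refine sum_congr rfl fun k _ => ?_
  rw [Complex.re_sum]
  refine sum_congr rfl fun j _ => ?_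
  rw [Complex.mul_re, Complex.ofReal_re, Complex.ofReal_im]
  ring

/-- the exact limit for distinct frequencies -/
theorem ms_lim {ι : Type*} (s : Finset ι) (b : ι → ℂ) (l : ι → ℝ)
    (hl : Set.InjOn l s) :
    Tendsto (fun T : ℝ => ∫ u, ‖∑ k ∈ s, b k * ee (l k * (T * u))‖ ^ 2 ∂gm) atTop
      (𝓝 (∑ k ∈ s, ‖b k‖ ^ 2)) := by
  simp_rw [ms]
  refine tendsto_finsetSum _ fun k hk => ?_
  classical
  rw [show ‖b k‖ ^ 2 = ∑ j ∈ s, if j = k then ‖b k‖ ^ 2 else 0 by
    rw [sum_ite_eq' s k]; simp [hk]]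
  refine tendsto_finsetSum _ fun j hj => ?_
  split_ifs with h
  · subst h
    have : (b j * (starRingEnd ℂ) (b j)).re = ‖b j‖ ^ 2 := by
      rw [Complex.mul_conj, Complex.ofReal_re, Complex.normSq_eq_norm_sq]
    simp [this]
  · have hd : l k - l j ≠ 0 := sub_ne_zero.2 fun e => h (hl hj hk e.symm)
    rw [show (0 : ℝ) = (b k * (starRingEnd ℂ) (b j)).re * 0 by ring]
    refine Tendsto.const_mul _ ?_
    refine Real.tendsto_exp_atBot.comp ?_
    have h1 : Tendsto (fun T : ℝ => ((l k - l j) ^ 2 / 2) * T ^ 2) atTop atTop :=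
      Tendsto.const_mul_atTop (by positivity) (tendsto_pow_atTop two_ne_zero)
    have h2 := tendsto_neg_atTop_atBot.comp h1
    refine h2.congr fun T => ?_
    simp only [Function.comp]
    ring

/-- Schur bound -/
theorem ms_schur {ι : Type*} (s : Finset ι) (b : ι → ℂ) (l : ι → ℝ) (T C : ℝ)
    (hb : ∀ k ∈ s, ‖b k‖ ≤ 1)
    (hC : ∀ k ∈ s, ∑ j ∈ s, Real.exp (-((l k - l j) * T) ^ 2 / 2) ≤ C) :
    ∫ u, ‖∑ k ∈ s, b k * ee (l k * (T * u))‖ ^ 2 ∂gm ≤ s.card * C := by
  rw [ms]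
  refine (sum_le_sum fun k hk => (sum_le_sum fun j hj => ?_).trans (hC k hk)).trans ?_
  · have h1 : (b k * (starRingEnd ℂ) (b j)).re ≤ 1 := by
      refine (Complex.re_le_norm _).trans ?_
      rw [norm_mul, RCLike.norm_conj]
      exact mul_le_one₀ (hb k hk) (norm_nonneg _) (hb j hj)
    have h2 := Real.exp_pos (-((l k - l j) * T) ^ 2 / 2)
    nlinarith
  · rw [sum_const, nsmul_eq_mul]

end H90.CD
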