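import Pool.Agent.H90.CD.Poly

/-!
Preparations for the choice of the imaginary part.
-/

set_option autoImplicit false

open MeasureTheory ProbabilityTheory Filter Topology Finset

namespace H90.CD

theorem ae_ne_zero : ∀ᵐ u ∂gm, u ≠ 0 := by
  have : NullSingletonClass gm := nullSingletonClass_gaussianReal one_ne_zero
  have h : gm {0} = 0 := measure_singleton 0
  rw [ae_iff]
  simp

theorem small_lim (t0 : ℝ) :
    Tendsto (fun T : ℝ => ∫ u, (if |T * u| ≤ t0 then (1 : ℝ) else 0) ∂gm) atTop (𝓝 0) := by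
  have h := tendsto_integral_filter_of_dominated_convergence (μ := gm)
    (F := fun (T : ℝ) u => if |T * u| ≤ t0 then (1 : ℝ) else 0) (f := fun _ => (0 : ℝ))
    (l := atTop) (bound := fun _ => 1) ?_ ?_ (integrable_const _) ?_
  · simpa using h
  · refine Eventually.of_forall fun T => ?_
    exact (Measurable.ite (measurableSet_le (by fun_prop) measurable_const)
      measurable_const measurable_const).aestronglyMeasurable
  · refine Eventually.of_forall fun T => Eventually.of_forall fun u => ?_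
    split_ifs <;> simp
  · filter_upwards [ae_ne_zero] with u hu
    have hu' : 0 < |u| := abs_pos.2 hu
    refine tendsto_const_nhds.congr' ?_
    filter_upwards [eventually_gt_atTop (max 0 (t0 / |u|))] with T hT
    have h1 := (le_max_left _ _).trans_lt hT
    have h2 := (le_max_right _ _).trans_lt hT
    rw [div_lt_iff₀ hu'] at h2
    rw [if_neg]
    rw [abs_mul, abs_of_pos h1]
    linarith

theorem large_lim :
    Tendsto (fun T : ℝ => ∫ u, (if T ^ 2 ≤ |T * u| then (1 : ℝ) else 0) ∂gm) atTop (𝓝 0) := by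
  have h := tendsto_integral_filter_of_dominated_convergence (μ := gm)
    (F := fun (T : ℝ) u => if T ^ 2 ≤ |T * u| then (1 : ℝ) else 0) (f := fun _ => (0 : ℝ))
    (l := atTop) (bound := fun _ => 1) ?_ ?_ (integrable_const _) ?_
  · simpa using h
  · refine Eventually.of_forall fun T => ?_
    exact (Measurable.ite (measurableSet_le measurable_const (by fun_prop))
      measurable_const measurable_const).aestronglyMeasurable
  · refine Eventually.of_forall fun T => Eventually.of_forall fun u => ?_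
    split_ifs <;> simp
  · refine Eventually.of_forall fun u => ?_
    refine tendsto_const_nhds.congr' ?_
    filter_upwards [eventually_gt_atTop (max 0 |u|)] with T hT
    have h1 := (le_max_left _ _).trans_lt hT
    have h2 := (le_max_right _ _).trans_lt hT
    rw [if_neg]
    rw [abs_mul, abs_of_pos h1]
    nlinarith

/-- the kernel polynomial -/
noncomputable def AA (P M : ℕ) (θ : ℕ → ℝ) (s : ℝ) : ℂ :=
  ∏ p : pr P, ∑ k ∈ range (M + 1), ee (-(k * θ p)) * ee (k * Real.log (p : ℕ) * s)

/-- the phases -/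
noncomputable def zp (θ : ℕ → ℝ) (p : ℕ) (s : ℝ) : ℂ := ee (Real.log p * s - θ p)

theorem factor_eq (θ : ℕ → ℝ) (p k : ℕ) (s : ℝ) :
    ee (-(k * θ p)) * ee (k * Real.log p * s) = zp θ p s ^ k := by
  rw [zp, ee_pow, ← ee_add]
  congr 1
  ring

theorem norm_zp_sub (θ : ℕ → ℝ) (p : ℕ) (s : ℝ) :
    ‖zp θ p s - 1‖ = ‖ee (Real.log p * s) - ee (θ p)‖ := by
  have : zp θ p s - 1 = ee (-θ p) * (ee (Real.log p * s) - ee (θ p)) := by
    rw [mul_sub, ← ee_add, ← ee_add, zp, neg_add_cancel, ee_zero]
    congr 2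
    ring
  rw [this, norm_mul, norm_ee, one_mul]

theorem AA_cont (P M : ℕ) (θ : ℕ → ℝ) : Continuous (AA P M θ) := by
  unfold AA
  refine continuous_finsetProd _ fun p _ => continuous_finsetSum _ fun k _ => ?_
  exact continuous_const.mul (cont_ee.comp (by fun_prop))

theorem SS_cont (y : ℕ) : Continuous (SS y) := by
  unfold SS
  exact continuous_finsetSum _ fun k _ => cont_ee.comp (by fun_prop)

theorem zp_cont (θ : ℕ → ℝ) (p : ℕ) : Continuous (zp θ p) := by
  unfold zp
  exact cont_ee.comp (by fun_prop)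

theorem AA_le (P M : ℕ) (θ : ℕ → ℝ) (s : ℝ) :
    ‖AA P M θ s‖ ≤ ((M : ℝ) + 1) ^ (Fintype.card (pr P)) := by
  unfold AA
  rw [norm_prod]
  have : ∀ p ∈ (univ : Finset (pr P)),
      ‖∑ k ∈ range (M + 1), ee (-(k * θ p)) * ee (k * Real.log (p : ℕ) * s)‖ ≤ (M : ℝ) + 1 := by
    intro p _
    refine (norm_sum_le _ _).trans ?_
    simp [norm_mul, norm_ee]
  refine (prod_le_prod (fun _ _ => norm_nonneg _) this).trans ?_
  simp [Finset.card_univ]

theorem SS_le (y : ℕ) (s : ℝ) : ‖SS y s‖ ≤ (PS y).card := by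
  unfold SS
  refine (norm_sum_le _ _).trans ?_
  simp [norm_ee]

theorem zp_le (θ : ℕ → ℝ) (p : ℕ) (s : ℝ) : ‖zp θ p s - 1‖ ≤ 2 := by
  refine (norm_sub_le _ _).trans ?_
  rw [zp, norm_ee]
  norm_num

theorem lim0 (P M : ℕ) (θ : ℕ → ℝ) :
    Tendsto (fun T : ℝ => ∫ u, ‖AA P M θ (T * u)‖ ^ 2 ∂gm) atTop
      (𝓝 (((M : ℝ) + 1) ^ (Fintype.card (pr P)))) := by
  have h := prod_lim (P := P) (fun _ => range (M + 1)) (fun p k => ee (-(k * θ p))) {1}
    (by
      intro e he
      rw [mem_singleton] at he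
      subst he
      refine ⟨one_ne_zero, fun p hp hd => ?_⟩
      exact (mem_pr.1 hp).1.ne_one (Nat.dvd_one.1 hd))
  simp only [sum_singleton, Nat.cast_one, Real.log_one, mul_zero, zero_mul, ee_zero, mul_one,
    norm_ee, one_pow, sum_const, card_range, nsmul_eq_mul, prod_const, card_singleton,
    Finset.card_univ] at h
  simpa [AA] using h

theorem limS (P M : ℕ) (θ : ℕ → ℝ) (y : ℕ) (hy : P ≤ y) :
    Tendsto (fun T : ℝ => ∫ u, ‖AA P M θ (T * u) * SS y (T * u)‖ ^ 2 ∂gm) atTop
      (𝓝 (((M : ℝ) + 1) ^ (Fintype.card (pr P)) * (PS y).card)) := by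
  have h := prod_lim (P := P) (fun _ => range (M + 1)) (fun p k => ee (-(k * θ p))) (PS y)
    (by
      intro e he
      obtain ⟨h1, h2, h3⟩ := mem_PS.1 he
      refine ⟨h1.ne_zero, fun p hp hd => ?_⟩
      obtain ⟨h4, h5⟩ := mem_pr.1 hp
      have := (Nat.prime_dvd_prime_iff_eq h4 h1).1 hd
      omega)
  simp only [norm_ee, one_pow, sum_const, card_range, nsmul_eq_mul, mul_one, prod_const,
    Finset.card_univ] at h
  simpa [AA, SS] using h

theorem limP (P M : ℕ) (θ : ℕ → ℝ) (p : pr P) :
    Tendsto (fun T : ℝ => ∫ u, ‖AA P M θ (T * u) * (zp θ p (T * u) - 1)‖ ^ 2 ∂gm) atTop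
      (𝓝 (2 * ((M : ℝ) + 1) ^ (Fintype.card (pr P) - 1))) := by
  classical
  have h := prod_lim (P := P) (fun q => if q = p then {0, M + 1} else range (M + 1))
    (fun q k => if q = p ∧ k = 0 then -1 else ee (-(k * θ q))) {1}
    (by
      intro e he
      rw [mem_singleton] at he
      subst he
      refine ⟨one_ne_zero, fun p hp hd => ?_⟩
      exact (mem_pr.1 hp).1.ne_one (Nat.dvd_one.1 hd))
  simp only [sum_singleton, Nat.cast_one, Real.log_one, mul_zero, zero_mul, ee_zero, mul_one,
    card_singleton] at h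
  have e1 : ∀ s : ℝ, (∏ q : pr P, ∑ k ∈ (if q = p then ({0, M + 1} : Finset ℕ) else range (M + 1)),
      (if q = p ∧ k = 0 then -1 else ee (-(k * θ q))) * ee (k * Real.log (q : ℕ) * s)) =
      AA P M θ s * (zp θ p s - 1) := by
    intro s
    unfold AA
    rw [← mul_prod_erase univ _ (mem_univ p), ← mul_prod_erase univ
      (fun q : pr P => ∑ k ∈ range (M + 1), ee (-(k * θ q)) * ee (k * Real.log (q : ℕ) * s))
      (mem_univ p)]
    rw [mul_right_comm]
    congr 1
    · simp only [if_true, true_and]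
      rw [sum_pair (by omega)]
      simp only [if_true, Nat.cast_zero, zero_mul, ee_zero, mul_one]
      rw [if_neg (by omega), factor_eq]
      simp_rw [factor_eq]
      rw [geom_sum_mul]
      ring
    · refine prod_congr rfl fun q hq => ?_
      have hne := (mem_erase.1 hq).1
      simp only [hne, if_false, false_and]
  have e2 : (∏ q : pr P, ∑ k ∈ (if q = p then ({0, M + 1} : Finset ℕ) else range (M + 1)),
      ‖(if q = p ∧ k = 0 then -1 else ee (-(k * θ q)))‖ ^ 2) =
      2 * ((M : ℝ) + 1) ^ (Fintype.card (pr P) - 1) := by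
    rw [← mul_prod_erase univ _ (mem_univ p)]
    congr 1
    · simp only [if_true, true_and]
      rw [sum_pair (by omega)]
      rw [if_pos rfl, if_neg (by omega), norm_ee]
      norm_num
    · rw [prod_congr rfl (g := fun _ => (M : ℝ) + 1) fun q hq => ?_]
      · rw [prod_const, card_erase_of_mem (mem_univ p), Finset.card_univ]
      · have hne := (mem_erase.1 hq).1
        simp only [hne, if_false, false_and, norm_ee]
        simp
  rw [e2] at h
  refine h.congr fun T => ?_
  congr 1
  ext u
  rw [e1]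

end H90.CD
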