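import Pool.Agent.H90.CD.Good1

/-!
The choice of the imaginary part.
-/

set_option autoImplicit false

open MeasureTheory ProbabilityTheory Filter Topology Finset

namespace H90.CD

theorem sqrt_le {y : ℕ} (hy : 4096 ≤ y) : √(y : ℝ) ≤ y / (2 * Real.log y) := by
  have hy' : (4096 : ℝ) ≤ y := by exact_mod_cast hy
  have h0 : (0 : ℝ) ≤ y := by linarith
  have h1 := Real.log_le_rpow_div h0 (show (0 : ℝ) < 1 / 4 by norm_num)
  set s : ℝ := (y : ℝ) ^ (1 / 4 : ℝ) with hs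
  have hs0 : 0 ≤ s := by positivity
  have hs4 : s ^ 4 = y := by
    rw [hs, ← Real.rpow_natCast, ← Real.rpow_mul h0]; norm_num
  have hs8 : 8 ≤ s := by
    by_contra hlt
    push Not at hlt
    have : s ^ 4 < 8 ^ 4 := pow_lt_pow_left₀ hlt hs0 (by norm_num)
    rw [hs4] at this
    norm_num at this
    linarith
  have hlog : 0 < Real.log y := Real.log_pos (by linarith)
  have hsq : √(y : ℝ) = s ^ 2 := by
    rw [← hs4, show s ^ 4 = (s ^ 2) ^ 2 by ring]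
    exact Real.sqrt_sq (by positivity)
  rw [hsq, le_div_iff₀ (by positivity)]
  nth_rewrite 2 [← hs4]
  have h2 : 2 * Real.log y ≤ s ^ 2 := by nlinarith
  have h3 := mul_le_mul_of_nonneg_left h2 (sq_nonneg s)
  calc s ^ 2 * (2 * Real.log y) ≤ s ^ 2 * s ^ 2 := h3
    _ = s ^ 4 := by ring

theorem card_ge {y0 P : ℕ} (hcard : ∀ y : ℕ, y0 ≤ y → (y : ℝ) / (2 * Real.log y) ≤ (PS y).card)
    (hP : y0 ≤ P) (hP' : 4096 ≤ P) (j : ℕ) :
    0 < ((PS (2 ^ j * P)).card : ℝ) ∧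
    1 / ((PS (2 ^ j * P)).card : ℝ) ≤ (3 / 4) ^ j / √P := by
  have h2 : 1 ≤ 2 ^ j := Nat.one_le_two_pow
  have hy : P ≤ 2 ^ j * P := Nat.le_mul_of_pos_left _ h2
  have h3 := (sqrt_le (hP'.trans hy)).trans (hcard _ (hP.trans hy))
  have hP0 : (0 : ℝ) < P := by exact_mod_cast (by omega : 0 < P)
  have h4 : (4 / 3 : ℝ) ^ j * √P ≤ √((2 ^ j * P : ℕ) : ℝ) := by
    push_cast
    rw [Real.sqrt_mul (by positivity)]
    refine mul_le_mul_of_nonneg_right ?_ (Real.sqrt_nonneg _)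
    apply Real.le_sqrt_of_sq_le
    rw [← pow_mul, mul_comm j 2, pow_mul]
    exact pow_le_pow_left₀ (by norm_num) (by norm_num) _
  have h5 : 0 < (4 / 3 : ℝ) ^ j * √P := by positivity
  have h6 := h4.trans h3
  refine ⟨h5.trans_le h6, ?_⟩
  refine (one_div_le_one_div_of_le h5 h6).trans (le_of_eq ?_)
  rw [one_div, mul_inv, ← inv_pow]
  norm_num
  ring

theorem geo_le (n : ℕ) : ∑ j ∈ range n, (3 / 4 : ℝ) ^ j ≤ 4 := by
  rw [geom_sum_eq (by norm_num)]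
  have : 0 ≤ (3 / 4 : ℝ) ^ n := by positivity
  rw [div_le_iff_of_neg (by norm_num)]
  linarith

theorem geo_le' (a b : ℕ) : ∑ j ∈ Finset.Ico a b, (3 / 4 : ℝ) ^ j ≤ 4 * (3 / 4) ^ a := by
  rw [sum_Ico_eq_sum_range]
  simp_rw [pow_add]
  rw [← mul_sum]
  have := geo_le (b - a)
  have h : (0 : ℝ) ≤ (3 / 4) ^ a := by positivity
  nlinarith

theorem ptw (P M : ℕ) (θ : ℕ → ℝ) (δ t0 T : ℝ) (hδ : 0 < δ) (J1 JT : ℕ)
    (hn : ∀ j, 0 < ((PS (2 ^ j * P)).card : ℝ))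
    (s : ℝ)
    (hfar : ∀ j, JT ≤ j → t0 ≤ |s| → |s| ≤ T ^ 2 →
      ‖SS (2 ^ j * P) s‖ ≤ (PS (2 ^ j * P)).card / 2)
    (hbad : ¬ ((∀ p ∈ pr P, ‖ee (Real.log p * s) - ee (θ p)‖ ≤ δ) ∧
      ∀ j : ℕ, ‖SS (2 ^ j * P) s‖ ≤ (PS (2 ^ j * P)).card / 2)) :
    ‖AA P M θ s‖ ^ 2 ≤ ∑ p : pr P, (1 / δ ^ 2) * ‖AA P M θ s * (zp θ p s - 1)‖ ^ 2 +
      ∑ j ∈ range J1, (4 / ((PS (2 ^ j * P)).card : ℝ) ^ 2) *
        ‖AA P M θ s * SS (2 ^ j * P) s‖ ^ 2 +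
      ∑ j ∈ Finset.Ico J1 JT, (4 * (((M : ℝ) + 1) ^ (Fintype.card (pr P))) ^ 2 /
        ((PS (2 ^ j * P)).card : ℝ) ^ 2) * ‖SS (2 ^ j * P) s‖ ^ 2 +
      (((M : ℝ) + 1) ^ (Fintype.card (pr P))) ^ 2 * (if |s| ≤ t0 then (1 : ℝ) else 0) +
      (((M : ℝ) + 1) ^ (Fintype.card (pr P))) ^ 2 * (if T ^ 2 ≤ |s| then (1 : ℝ) else 0) := by
  set N : ℝ := ((M : ℝ) + 1) ^ (Fintype.card (pr P)) with hN
  have hA := AA_le P M θ s
  rw [← hN] at hA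
  have hN0 : 0 ≤ N := (norm_nonneg _).trans hA
  have hA2 : ‖AA P M θ s‖ ^ 2 ≤ N ^ 2 := pow_le_pow_left₀ (norm_nonneg _) hA 2
  have s1 : 0 ≤ ∑ p : pr P, (1 / δ ^ 2) * ‖AA P M θ s * (zp θ p s - 1)‖ ^ 2 :=
    sum_nonneg fun _ _ => by positivity
  have s2 : 0 ≤ ∑ j ∈ range J1, (4 / ((PS (2 ^ j * P)).card : ℝ) ^ 2) *
        ‖AA P M θ s * SS (2 ^ j * P) s‖ ^ 2 := sum_nonneg fun _ _ => by positivity
  have s3 : 0 ≤ ∑ j ∈ Finset.Ico J1 JT, (4 * N ^ 2 /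
        ((PS (2 ^ j * P)).card : ℝ) ^ 2) * ‖SS (2 ^ j * P) s‖ ^ 2 :=
    sum_nonneg fun _ _ => by positivity
  have s4 : 0 ≤ N ^ 2 * (if |s| ≤ t0 then (1 : ℝ) else 0) := by split_ifs <;> positivity
  have s5 : 0 ≤ N ^ 2 * (if T ^ 2 ≤ |s| then (1 : ℝ) else 0) := by split_ifs <;> positivity
  by_cases h1 : |s| ≤ t0
  · rw [if_pos h1, mul_one]
    linarith
  by_cases h2 : T ^ 2 ≤ |s|
  · rw [if_pos h2, mul_one] at s5 ⊢
    linarith
  rw [not_and_or] at hbad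
  rcases hbad with h | h
  · push Not at h
    obtain ⟨p, hp, hp'⟩ := h
    have h3 : ‖AA P M θ s‖ ^ 2 ≤ (1 / δ ^ 2) * ‖AA P M θ s * (zp θ p s - 1)‖ ^ 2 := by
      rw [norm_mul, norm_zp_sub, mul_pow]
      have : δ ^ 2 ≤ ‖ee (Real.log p * s) - ee (θ p)‖ ^ 2 := pow_le_pow_left₀ hδ.le hp'.le 2
      rw [one_div, inv_mul_eq_div, le_div_iff₀ (by positivity)]
      exact mul_le_mul_of_nonneg_left this (by positivity)
    have h4 := single_le_sum (f := fun p : pr P =>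
      (1 / δ ^ 2) * ‖AA P M θ s * (zp θ p s - 1)‖ ^ 2)
      (fun _ _ => by positivity) (mem_univ (⟨p, hp⟩ : pr P))
    simp only at h4
    linarith
  · push Not at h
    obtain ⟨j, hj⟩ := h
    have hj' : j < JT := by
      by_contra hc
      push Not at hc h1 h2
      exact absurd (hfar j hc h1.le h2.le) (not_le.2 hj)
    have hnj := hn j
    have h5 : ((PS (2 ^ j * P)).card : ℝ) ^ 2 / 4 ≤ ‖SS (2 ^ j * P) s‖ ^ 2 := by
      have := pow_le_pow_left₀ (by positivity) hj.le 2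
      calc _ = (((PS (2 ^ j * P)).card : ℝ) / 2) ^ 2 := by ring
        _ ≤ _ := this
    by_cases hj1 : j < J1
    · have h3 : ‖AA P M θ s‖ ^ 2 ≤ (4 / ((PS (2 ^ j * P)).card : ℝ) ^ 2) *
          ‖AA P M θ s * SS (2 ^ j * P) s‖ ^ 2 := by
        rw [norm_mul, mul_pow, div_mul_eq_mul_div, le_div_iff₀ (by positivity)]
        nlinarith [sq_nonneg ‖AA P M θ s‖]
      have h4 := single_le_sum (f := fun j : ℕ => (4 / ((PS (2 ^ j * P)).card : ℝ) ^ 2) *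
          ‖AA P M θ s * SS (2 ^ j * P) s‖ ^ 2)
        (fun _ _ => by positivity) (mem_range.2 hj1)
      linarith
    · have h3 : N ^ 2 ≤ (4 * N ^ 2 / ((PS (2 ^ j * P)).card : ℝ) ^ 2) *
          ‖SS (2 ^ j * P) s‖ ^ 2 := by
        rw [div_mul_eq_mul_div, le_div_iff₀ (by positivity)]
        nlinarith [sq_nonneg N]
      have h4 := single_le_sum (f := fun j : ℕ => (4 * N ^ 2 /
          ((PS (2 ^ j * P)).card : ℝ) ^ 2) * ‖SS (2 ^ j * P) s‖ ^ 2)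
        (fun _ _ => by positivity) (mem_Ico.2 ⟨not_lt.1 hj1, hj'⟩)
      linarith

end H90.CD
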