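import Pool.Agent.H90.CD.Good2

/-!
The choice of the imaginary part: the main theorem.
-/

set_option autoImplicit false

open MeasureTheory ProbabilityTheory Filter Topology Finset

namespace H90.CD

theorem integrable_bdd {f : ℝ → ℝ} (hf : Measurable f) {C : ℝ} (hC : ∀ x, |f x| ≤ C) :
    Integrable f gm :=
  Integrable.of_bound hf.aestronglyMeasurable C (Eventually.of_forall fun u => by
    rw [Real.norm_eq_abs]; exact hC u)

theorem int_ineq (P M : ℕ) (θ : ℕ → ℝ) (δ t0 T : ℝ) (hδ : 0 < δ) (hT : 0 < T) (J1 JT : ℕ)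
    (hn : ∀ j, 0 < ((PS (2 ^ j * P)).card : ℝ)) (hP1 : 1 ≤ P)
    (hfar : ∀ s : ℝ, ∀ j, JT ≤ j → t0 ≤ |s| → |s| ≤ T ^ 2 →
      ‖SS (2 ^ j * P) s‖ ≤ (PS (2 ^ j * P)).card / 2)
    (hbad : ∀ s : ℝ, ¬ ((∀ p ∈ pr P, ‖ee (Real.log p * s) - ee (θ p)‖ ≤ δ) ∧
      ∀ j : ℕ, ‖SS (2 ^ j * P) s‖ ≤ (PS (2 ^ j * P)).card / 2)) :
    ∫ u, ‖AA P M θ (T * u)‖ ^ 2 ∂gm ≤
      ∑ p : pr P, (1 / δ ^ 2) * ∫ u, ‖AA P M θ (T * u) * (zp θ p (T * u) - 1)‖ ^ 2 ∂gm +
      ∑ j ∈ range J1, (4 / ((PS (2 ^ j * P)).card : ℝ) ^ 2) *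
        ∫ u, ‖AA P M θ (T * u) * SS (2 ^ j * P) (T * u)‖ ^ 2 ∂gm +
      ∑ j ∈ Finset.Ico J1 JT, (4 * (((M : ℝ) + 1) ^ (Fintype.card (pr P))) ^ 2 /
        ((PS (2 ^ j * P)).card : ℝ)) *
          (1 + 2 * (2 ^ j * P : ℕ) / T * (1 + Real.log (2 ^ j * P : ℕ))) +
      (((M : ℝ) + 1) ^ (Fintype.card (pr P))) ^ 2 *
        ∫ u, (if |T * u| ≤ t0 then (1 : ℝ) else 0) ∂gm +
      (((M : ℝ) + 1) ^ (Fintype.card (pr P))) ^ 2 *
        ∫ u, (if T ^ 2 ≤ |T * u| then (1 : ℝ) else 0) ∂gm := by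
  set N : ℝ := ((M : ℝ) + 1) ^ (Fintype.card (pr P)) with hN
  have hN0 : 0 ≤ N := (norm_nonneg _).trans (AA_le P M θ 0)
  have i1 : ∀ p : pr P, Integrable
      (fun u => ‖AA P M θ (T * u) * (zp θ p (T * u) - 1)‖ ^ 2) gm := fun p => by
    refine integrable_bdd (C := (N * 2) ^ 2) ?_ fun x => ?_
    · have h1 := AA_cont P M θ
      have h2 := zp_cont θ p
      exact Continuous.measurable (by fun_prop)
    · rw [abs_of_nonneg (by positivity), norm_mul]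
      exact pow_le_pow_left₀ (by positivity) (mul_le_mul (AA_le P M θ _) (zp_le θ p _)
        (norm_nonneg _) hN0) 2
  have i2 : ∀ j : ℕ, Integrable
      (fun u => ‖AA P M θ (T * u) * SS (2 ^ j * P) (T * u)‖ ^ 2) gm := fun j => by
    refine integrable_bdd (C := (N * (PS (2 ^ j * P)).card) ^ 2) ?_ fun x => ?_
    · have h1 := AA_cont P M θ
      have h2 := SS_cont (2 ^ j * P)
      exact Continuous.measurable (by fun_prop)
    · rw [abs_of_nonneg (by positivity), norm_mul]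
      exact pow_le_pow_left₀ (by positivity) (mul_le_mul (AA_le P M θ _) (SS_le _ _)
        (norm_nonneg _) hN0) 2
  have i3 : ∀ j : ℕ, Integrable (fun u => ‖SS (2 ^ j * P) (T * u)‖ ^ 2) gm := fun j => by
    refine integrable_bdd (C := ((PS (2 ^ j * P)).card) ^ 2) ?_ fun x => ?_
    · have h2 := SS_cont (2 ^ j * P)
      exact Continuous.measurable (by fun_prop)
    · rw [abs_of_nonneg (by positivity)]
      exact pow_le_pow_left₀ (by positivity) (SS_le _ _) 2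
  have i4 : Integrable (fun u => if |T * u| ≤ t0 then (1 : ℝ) else 0) gm := by
    refine integrable_bdd (C := 1) ?_ fun x => ?_
    · exact Measurable.ite (measurableSet_le (by fun_prop) measurable_const)
        measurable_const measurable_const
    · split_ifs <;> simp
  have i5 : Integrable (fun u => if T ^ 2 ≤ |T * u| then (1 : ℝ) else 0) gm := by
    refine integrable_bdd (C := 1) ?_ fun x => ?_
    · exact Measurable.ite (measurableSet_le measurable_const (by fun_prop))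
        measurable_const measurable_const
    · split_ifs <;> simp
  have i0 : Integrable (fun u => ‖AA P M θ (T * u)‖ ^ 2) gm := by
    refine integrable_bdd (C := N ^ 2) ?_ fun x => ?_
    · have h1 := AA_cont P M θ
      exact Continuous.measurable (by fun_prop)
    · rw [abs_of_nonneg (by positivity)]
      exact pow_le_pow_left₀ (by positivity) (AA_le P M θ _) 2
  have h1 := integrable_finsetSum (univ : Finset (pr P)) fun p _ => (i1 p).const_mul (1 / δ ^ 2)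
  have h2 := integrable_finsetSum (range J1) fun j _ =>
    (i2 j).const_mul (4 / ((PS (2 ^ j * P)).card : ℝ) ^ 2)
  have h3 := integrable_finsetSum (Finset.Ico J1 JT) fun j _ =>
    (i3 j).const_mul (4 * N ^ 2 / ((PS (2 ^ j * P)).card : ℝ) ^ 2)
  have h4 := i4.const_mul (N ^ 2)
  have h5 := i5.const_mul (N ^ 2)
  have hm := integral_mono i0 ((((h1.add h2).add h3).add h4).add h5) fun u =>
    ptw P M θ δ t0 T hδ J1 JT hn (T * u) (hfar (T * u)) (hbad (T * u))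
  refine hm.trans ?_
  have e : ∫ u, (((((fun u => ∑ p : pr P, (1 / δ ^ 2) * ‖AA P M θ (T * u) *
      (zp θ p (T * u) - 1)‖ ^ 2) + (fun u => ∑ j ∈ range J1,
        (4 / ((PS (2 ^ j * P)).card : ℝ) ^ 2) * ‖AA P M θ (T * u) * SS (2 ^ j * P) (T * u)‖ ^ 2)) +
      (fun u => ∑ j ∈ Finset.Ico J1 JT, (4 * N ^ 2 /
        ((PS (2 ^ j * P)).card : ℝ) ^ 2) * ‖SS (2 ^ j * P) (T * u)‖ ^ 2)) +
      (fun u => N ^ 2 * (if |T * u| ≤ t0 then (1 : ℝ) else 0)) +
      (fun u => N ^ 2 * (if T ^ 2 ≤ |T * u| then (1 : ℝ) else 0))) : ℝ → ℝ) u ∂gm =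
      ∑ p : pr P, (1 / δ ^ 2) * ∫ u, ‖AA P M θ (T * u) * (zp θ p (T * u) - 1)‖ ^ 2 ∂gm +
      ∑ j ∈ range J1, (4 / ((PS (2 ^ j * P)).card : ℝ) ^ 2) *
        ∫ u, ‖AA P M θ (T * u) * SS (2 ^ j * P) (T * u)‖ ^ 2 ∂gm +
      ∑ j ∈ Finset.Ico J1 JT, (4 * N ^ 2 / ((PS (2 ^ j * P)).card : ℝ) ^ 2) *
        ∫ u, ‖SS (2 ^ j * P) (T * u)‖ ^ 2 ∂gm +
      N ^ 2 * ∫ u, (if |T * u| ≤ t0 then (1 : ℝ) else 0) ∂gm +
      N ^ 2 * ∫ u, (if T ^ 2 ≤ |T * u| then (1 : ℝ) else 0) ∂gm := by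
    rw [integral_add' (((h1.add h2).add h3).add h4) h5, integral_add' ((h1.add h2).add h3) h4,
      integral_add' (h1.add h2) h3, integral_add' h1 h2, integral_const_mul, integral_const_mul,
      integral_finsetSum _ fun p _ => (i1 p).const_mul (1 / δ ^ 2),
      integral_finsetSum _ fun j _ => (i2 j).const_mul (4 / ((PS (2 ^ j * P)).card : ℝ) ^ 2),
      integral_finsetSum _ fun j _ =>
        (i3 j).const_mul (4 * N ^ 2 / ((PS (2 ^ j * P)).card : ℝ) ^ 2)]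
    simp_rw [integral_const_mul]
  have e' := e.le
  refine e'.trans ?_
  have h6 : ∑ j ∈ Finset.Ico J1 JT, (4 * N ^ 2 / ((PS (2 ^ j * P)).card : ℝ) ^ 2) *
        ∫ u, ‖SS (2 ^ j * P) (T * u)‖ ^ 2 ∂gm ≤
      ∑ j ∈ Finset.Ico J1 JT, (4 * N ^ 2 / ((PS (2 ^ j * P)).card : ℝ)) *
          (1 + 2 * (2 ^ j * P : ℕ) / T * (1 + Real.log (2 ^ j * P : ℕ))) := by
    refine sum_le_sum fun j _ => ?_
    have h7 := SS_ms (2 ^ j * P) (Nat.mul_pos (by positivity) hP1) T hT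
    have h8 := hn j
    calc _ ≤ (4 * N ^ 2 / ((PS (2 ^ j * P)).card : ℝ) ^ 2) * ((PS (2 ^ j * P)).card *
          (1 + 2 * (2 ^ j * P : ℕ) / T * (1 + Real.log (2 ^ j * P : ℕ)))) :=
          mul_le_mul_of_nonneg_left h7 (by positivity)
      _ = _ := by field_simp
  linarith

end H90.CD
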