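import Pool.Agent.H90.CD.Good3

/-!
The choice of the imaginary part: the main theorem.
-/

set_option autoImplicit false

open MeasureTheory ProbabilityTheory Filter Topology Finset

namespace H90.CD

theorem good {t0 : ℝ} {y0 : ℕ}
    (hfar : ∀ y : ℕ, y0 ≤ y → ∀ t : ℝ, t0 ≤ |t| → |t| ≤ Real.log y ^ 8 →
      ‖SS y t‖ ≤ (PS y).card / 2)
    (hcard : ∀ y : ℕ, y0 ≤ y → (y : ℝ) / (2 * Real.log y) ≤ (PS y).card)
    (P : ℕ) (hP : y0 ≤ P) (hP' : 40000 ≤ P) (θ : ℕ → ℝ) (δ : ℝ) (hδ : 0 < δ) :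
    ∃ s : ℝ, (∀ p ∈ pr P, ‖ee (Real.log p * s) - ee (θ p)‖ ≤ δ) ∧
      ∀ j : ℕ, ‖SS (2 ^ j * P) s‖ ≤ (PS (2 ^ j * P)).card / 2 := by
  by_contra hcon
  push Not at hcon
  have hbad : ∀ s : ℝ, ¬ ((∀ p ∈ pr P, ‖ee (Real.log p * s) - ee (θ p)‖ ≤ δ) ∧
      ∀ j : ℕ, ‖SS (2 ^ j * P) s‖ ≤ (PS (2 ^ j * P)).card / 2) := by
    rintro s ⟨h1, h2⟩
    obtain ⟨j, hj⟩ := hcon s h1
    exact absurd (h2 j) (not_le.2 hj)
  have hge := card_ge hcard hP (by omega)
  set n := Fintype.card (pr P) with hn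
  have hn1 : 1 ≤ n := by
    have : Nonempty (pr P) := ⟨⟨2, mem_pr.2 ⟨Nat.prime_two, by omega⟩⟩⟩
    exact Fintype.card_pos
  obtain ⟨M, hM⟩ := exists_nat_ge (48 * n / δ ^ 2)
  set N : ℝ := ((M : ℝ) + 1) ^ n with hN
  have hM1 : (1 : ℝ) ≤ (M : ℝ) + 1 := by linarith [(Nat.cast_nonneg M : (0 : ℝ) ≤ M)]
  have hN1 : 1 ≤ N := one_le_pow₀ hM1
  have hNN : ((M : ℝ) + 1) ^ (n - 1) * ((M : ℝ) + 1) = N := by
    rw [← pow_succ, hN]; congr 1; omega
  have hPr : (200 : ℝ) ≤ √P := by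
    apply Real.le_sqrt_of_sq_le
    have : (40000 : ℝ) ≤ P := by exact_mod_cast hP'
    linarith
  have hP0 : (0 : ℝ) < P := by exact_mod_cast (by omega : 0 < P)
  obtain ⟨J1, hJ1⟩ := exists_pow_lt_of_lt_one (show (0 : ℝ) < 1 / (256 * N) by positivity)
    (show (3 / 4 : ℝ) < 1 by norm_num)
  -- limits along `T = X ^ 4`
  have hX : Tendsto (fun X : ℝ => X ^ 4) atTop atTop := tendsto_pow_atTop four_ne_zero
  have ea := ((lim0 P M θ).comp hX).eventually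
    (lt_mem_nhds (show 7 / 8 * N < ((M : ℝ) + 1) ^ (Fintype.card (pr P)) by
      rw [← hn, ← hN]; linarith))
  have eb := eventually_all.2 fun p : pr P => ((limP P M θ p).comp hX).eventually
    (gt_mem_nhds (show 2 * ((M : ℝ) + 1) ^ (Fintype.card (pr P) - 1) <
      3 * ((M : ℝ) + 1) ^ (n - 1) by
      rw [← hn]
      have : 0 < ((M : ℝ) + 1) ^ (n - 1) := by positivity
      linarith))
  have ec := (eventually_all_finset (range J1)).2 fun j _ =>
    ((limS P M θ (2 ^ j * P) (Nat.le_mul_of_pos_left _ Nat.one_le_two_pow)).comp hX).eventually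
    (gt_mem_nhds (show ((M : ℝ) + 1) ^ (Fintype.card (pr P)) * ((PS (2 ^ j * P)).card : ℝ) <
      3 / 2 * N * ((PS (2 ^ j * P)).card : ℝ) by
      rw [← hn, ← hN]
      have := (hge j).1
      nlinarith))
  have ed := ((small_lim t0).comp hX).eventually (gt_mem_nhds (show (0 : ℝ) < 1 / (16 * N) by
    positivity))
  have ee' := (large_lim.comp hX).eventually (gt_mem_nhds (show (0 : ℝ) < 1 / (16 * N) by
    positivity))
  obtain ⟨X, ha, hb, hc, hd, he, hX1⟩ := (ea.and (eb.and (ec.and (ed.and (ee'.and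
    (eventually_ge_atTop (3 + Real.log P + 10000 * N))))))).exists
  simp only [Function.comp] at ha hb hc hd he
  have hlogP : 0 ≤ Real.log P := Real.log_nonneg (by exact_mod_cast (by omega : 1 ≤ P))
  have hX0 : 0 < X := by linarith
  have hX3 : 3 + Real.log P ≤ X := by linarith
  have hXN : 9216 * N ≤ X := by linarith
  have hT : 0 < X ^ 4 := by positivity
  set JT : ℕ := ⌈2 * X⌉₊ + 1 with hJT
  have hJT1 : (JT : ℝ) ≤ 2 * X + 2 := by
    have := (Nat.ceil_lt_add_one (show 0 ≤ 2 * X by positivity)).le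
    rw [hJT]; push_cast; linarith
  have hlog : ∀ j : ℕ, Real.log ((2 ^ j * P : ℕ) : ℝ) = j * Real.log 2 + Real.log P := by
    intro j
    push_cast
    rw [Real.log_mul (by positivity) hP0.ne', Real.log_pow]
  have hmain := int_ineq P M θ δ t0 (X ^ 4) hδ hT J1 JT (fun j => (hge j).1) (by omega)
    (fun s j hj h1 h2 => hfar _ (hP.trans (Nat.le_mul_of_pos_left _ Nat.one_le_two_pow)) s h1 (by
      refine h2.trans ?_
      rw [show (X ^ 4) ^ 2 = X ^ 8 by ring]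
      refine pow_le_pow_left₀ hX0.le ?_ 8
      rw [hlog]
      have h3 : 2 * X ≤ j := by
        have := Nat.le_ceil (2 * X)
        have h4 : (⌈2 * X⌉₊ : ℝ) ≤ j := by exact_mod_cast (by omega : ⌈2 * X⌉₊ ≤ j)
        linarith
      have h5 : (1 / 2 : ℝ) ≤ Real.log 2 := by linarith [Real.log_two_gt_d9]
      nlinarith)) hbad
  rw [← hn, ← hN] at hmain
  -- bounds of the terms
  have t1 : ∑ p : pr P, (1 / δ ^ 2) * ∫ u, ‖AA P M θ (X ^ 4 * u) *
      (zp θ p (X ^ 4 * u) - 1)‖ ^ 2 ∂gm ≤ N / 16 := by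
    have h1 : ∀ p ∈ (univ : Finset (pr P)), (1 / δ ^ 2) * ∫ u, ‖AA P M θ (X ^ 4 * u) *
      (zp θ p (X ^ 4 * u) - 1)‖ ^ 2 ∂gm ≤ (1 / δ ^ 2) * (3 * ((M : ℝ) + 1) ^ (n - 1)) :=
      fun p _ => mul_le_mul_of_nonneg_left (hb p).le (by positivity)
    refine (sum_le_sum h1).trans ?_
    rw [sum_const, Finset.card_univ, nsmul_eq_mul, ← hn]
    have h2 : (n : ℝ) * (1 / δ ^ 2) * 48 ≤ M + 1 := by
      have : (n : ℝ) * (1 / δ ^ 2) * 48 = 48 * n / δ ^ 2 := by ring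
      linarith
    have h3 : 0 < ((M : ℝ) + 1) ^ (n - 1) := by positivity
    have h4 := mul_le_mul_of_nonneg_right h2 h3.le
    rw [← hNN]
    linarith
  have hsum1 : ∀ s : Finset ℕ, ∑ j ∈ s, 1 / ((PS (2 ^ j * P)).card : ℝ) ≤
      (∑ j ∈ s, (3 / 4 : ℝ) ^ j) / √P := by
    intro s
    rw [sum_div]
    exact sum_le_sum fun j _ => (hge j).2
  have t2 : ∑ j ∈ range J1, (4 / ((PS (2 ^ j * P)).card : ℝ) ^ 2) *
        ∫ u, ‖AA P M θ (X ^ 4 * u) * SS (2 ^ j * P) (X ^ 4 * u)‖ ^ 2 ∂gm ≤ N / 8 := by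
    have h1 : ∀ j ∈ range J1, (4 / ((PS (2 ^ j * P)).card : ℝ) ^ 2) *
        ∫ u, ‖AA P M θ (X ^ 4 * u) * SS (2 ^ j * P) (X ^ 4 * u)‖ ^ 2 ∂gm ≤
        6 * N * (1 / ((PS (2 ^ j * P)).card : ℝ)) := by
      intro j hj
      have h2 := (hge j).1
      refine (mul_le_mul_of_nonneg_left (hc j hj).le (by positivity)).trans (le_of_eq ?_)
      field_simp
      ring
    refine (sum_le_sum h1).trans ?_
    rw [← mul_sum]
    have h2 := hsum1 (range J1)
    have h3 : (∑ j ∈ range J1, (3 / 4 : ℝ) ^ j) / √P ≤ 4 / 200 :=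
      div_le_div₀ (by norm_num) (geo_le J1) (by norm_num) hPr
    have h4 : 6 * N * ∑ j ∈ range J1, 1 / ((PS (2 ^ j * P)).card : ℝ) ≤ 6 * N * (4 / 200) :=
      mul_le_mul_of_nonneg_left (h2.trans h3) (by positivity)
    linarith
  have t3 : ∑ j ∈ Finset.Ico J1 JT, (4 * N ^ 2 / ((PS (2 ^ j * P)).card : ℝ)) *
          (1 + 2 * (2 ^ j * P : ℕ) / X ^ 4 * (1 + Real.log (2 ^ j * P : ℕ))) ≤ N / 8 := by
    have h1 : ∀ j ∈ Finset.Ico J1 JT, (4 * N ^ 2 / ((PS (2 ^ j * P)).card : ℝ)) *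
          (1 + 2 * (2 ^ j * P : ℕ) / X ^ 4 * (1 + Real.log (2 ^ j * P : ℕ))) ≤
        4 * N ^ 2 * (1 / ((PS (2 ^ j * P)).card : ℝ)) +
          16 * N ^ 2 / X ^ 4 * (3 * X) ^ 2 := by
      intro j hj
      have hjJ := (mem_Ico.1 hj).2
      have h2 := (hge j).1
      have h3 := hcard (2 ^ j * P) (hP.trans (Nat.le_mul_of_pos_left _ Nat.one_le_two_pow))
      set L : ℝ := Real.log ((2 ^ j * P : ℕ) : ℝ) with hL
      have hL0 : 0 < L := by
        rw [hL]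
        apply Real.log_pos
        have h4 : P ≤ 2 ^ j * P := Nat.le_mul_of_pos_left _ Nat.one_le_two_pow
        exact_mod_cast (by omega : 1 < 2 ^ j * P)
      have hL1 : 1 + L ≤ 3 * X := by
        rw [hL, hlog]
        have h5 : (j : ℝ) + 1 ≤ JT := by exact_mod_cast hjJ
        have h6 : Real.log 2 ≤ 1 := by linarith [Real.log_two_lt_d9]
        have h7 : (j : ℝ) * Real.log 2 ≤ j := by
          have := mul_le_mul_of_nonneg_left h6 (Nat.cast_nonneg (α := ℝ) j)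
          linarith
        linarith
      rw [div_le_iff₀ (by positivity)] at h3
      have h8 : ((2 ^ j * P : ℕ) : ℝ) / (PS (2 ^ j * P)).card ≤ 2 * L := by
        rw [div_le_iff₀ h2]; linarith
      have h9 : (4 * N ^ 2 / ((PS (2 ^ j * P)).card : ℝ)) *
          (1 + 2 * (2 ^ j * P : ℕ) / X ^ 4 * (1 + L)) =
          4 * N ^ 2 * (1 / ((PS (2 ^ j * P)).card : ℝ)) +
          8 * N ^ 2 / X ^ 4 * ((((2 ^ j * P : ℕ) : ℝ) / (PS (2 ^ j * P)).card) * (1 + L)) := by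
        field_simp
        ring
      rw [h9]
      have h10 : (((2 ^ j * P : ℕ) : ℝ) / (PS (2 ^ j * P)).card) * (1 + L) ≤ 2 * (3 * X) ^ 2 := by
        calc _ ≤ 2 * L * (1 + L) := mul_le_mul_of_nonneg_right h8 (by positivity)
          _ ≤ 2 * (1 + L) * (1 + L) := by nlinarith
          _ = 2 * (1 + L) ^ 2 := by ring
          _ ≤ _ := by
            have := pow_le_pow_left₀ (by positivity) hL1 2
            linarith
      have h11 := mul_le_mul_of_nonneg_left h10 (show 0 ≤ 8 * N ^ 2 / X ^ 4 by positivity)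
      have h12 : 8 * N ^ 2 / X ^ 4 * (2 * (3 * X) ^ 2) = 16 * N ^ 2 / X ^ 4 * (3 * X) ^ 2 := by ring
      linarith
    refine (sum_le_sum h1).trans ?_
    rw [sum_add_distrib, ← mul_sum, sum_const, nsmul_eq_mul, Nat.card_Ico]
    have h2 : 4 * N ^ 2 * ∑ j ∈ Finset.Ico J1 JT, 1 / ((PS (2 ^ j * P)).card : ℝ) ≤ N / 16 := by
      have h3 := (hsum1 (Finset.Ico J1 JT)).trans (div_le_self (by positivity) (by linarith))
      have h4 := geo_le' J1 JT
      have h5 : 4 * N ^ 2 * ∑ j ∈ Finset.Ico J1 JT, 1 / ((PS (2 ^ j * P)).card : ℝ) ≤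
          4 * N ^ 2 * (4 * (1 / (256 * N))) :=
        mul_le_mul_of_nonneg_left (h3.trans (h4.trans (by linarith))) (by positivity)
      have h6 : 4 * N ^ 2 * (4 * (1 / (256 * N))) = N / 16 := by field_simp; norm_num
      linarith
    have h3 : ((JT - J1 : ℕ) : ℝ) * (16 * N ^ 2 / X ^ 4 * (3 * X) ^ 2) ≤ N / 16 := by
      have h4 : ((JT - J1 : ℕ) : ℝ) ≤ 4 * X := by
        have : ((JT - J1 : ℕ) : ℝ) ≤ JT := by exact_mod_cast Nat.sub_le _ _
        linarith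
      have h5 : ((JT - J1 : ℕ) : ℝ) * (16 * N ^ 2 / X ^ 4 * (3 * X) ^ 2) ≤
          4 * X * (16 * N ^ 2 / X ^ 4 * (3 * X) ^ 2) :=
        mul_le_mul_of_nonneg_right h4 (by positivity)
      have h6 : 4 * X * (16 * N ^ 2 / X ^ 4 * (3 * X) ^ 2) = 576 * N ^ 2 / X := by
        field_simp; norm_num
      have h7 : 576 * N ^ 2 / X ≤ N / 16 := by
        rw [div_le_iff₀ hX0]
        nlinarith
      linarith
    linarith
  have t4 : N ^ 2 * ∫ u, (if |X ^ 4 * u| ≤ t0 then (1 : ℝ) else 0) ∂gm ≤ N / 16 := by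
    have h1 := mul_le_mul_of_nonneg_left hd.le (show 0 ≤ N ^ 2 by positivity)
    have h2 : N ^ 2 * (1 / (16 * N)) = N / 16 := by field_simp
    linarith
  have t5 : N ^ 2 * ∫ u, (if (X ^ 4) ^ 2 ≤ |X ^ 4 * u| then (1 : ℝ) else 0) ∂gm ≤ N / 16 := by
    have h1 := mul_le_mul_of_nonneg_left he.le (show 0 ≤ N ^ 2 by positivity)
    have h2 : N ^ 2 * (1 / (16 * N)) = N / 16 := by field_simp
    linarith
  linarith

end H90.CD
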