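import Pool.Agent.H90.CD.Gauss

/-!
Mean squares of products of trigonometric polynomials with frequencies `k log p`.
-/

set_option autoImplicit false

open MeasureTheory ProbabilityTheory Filter Topology Finset

namespace H90.CD

/-- primes up to `P` -/
def pr (P : ℕ) : Finset ℕ := (Finset.Icc 1 P).filter Nat.Prime

theorem mem_pr {P p : ℕ} : p ∈ pr P ↔ p.Prime ∧ p ≤ P := by
  simp only [pr, mem_filter, mem_Icc]
  constructor
  · rintro ⟨⟨_, h⟩, hp⟩; exact ⟨hp, h⟩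
  · rintro ⟨hp, h⟩; exact ⟨⟨hp.one_lt.le, h⟩, hp⟩

/-- primes in `(y, 2y]` -/
def PS (y : ℕ) : Finset ℕ := (Finset.Ioc y (2 * y)).filter Nat.Prime

theorem mem_PS {y q : ℕ} : q ∈ PS y ↔ q.Prime ∧ y < q ∧ q ≤ 2 * y := by
  simp only [PS, mem_filter, mem_Ioc]; tauto

/-- the sum of the `q^(2 i t)` over the primes in `(y, 2y]` -/
noncomputable def SS (y : ℕ) (t : ℝ) : ℂ := ∑ q ∈ PS y, ee (2 * Real.log q * t)

theorem fact_aux {P : ℕ} (k : pr P → ℕ) {e : ℕ} (he : e ≠ 0) (he' : ∀ p ∈ pr P, ¬ p ∣ e)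
    (p : pr P) : ((∏ q : pr P, (q : ℕ) ^ k q) * e ^ 2).factorization p = k p := by
  have hpr : ∀ q : pr P, (q : ℕ).Prime := fun q => (mem_pr.1 q.2).1
  have h0 : ∏ q : pr P, (q : ℕ) ^ k q ≠ 0 := prod_ne_zero_iff.2 fun q _ =>
    pow_ne_zero _ (hpr q).ne_zero
  rw [Nat.factorization_mul h0 (pow_ne_zero _ he), Nat.factorization_prod fun q _ =>
    pow_ne_zero _ (hpr q).ne_zero, Finsupp.add_apply, Finsupp.finsetSum_apply,
    Nat.factorization_pow, Finsupp.smul_apply, Nat.factorization_eq_zero_of_not_dvd (he' p p.2)]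
  rw [Finset.sum_eq_single p]
  · rw [Nat.factorization_pow, Finsupp.smul_apply, (hpr p).factorization_self]; simp
  · intro q _ hq
    rw [Nat.factorization_pow, Finsupp.smul_apply, Nat.factorization_eq_zero_of_not_dvd]
    · simp
    · intro h
      exact hq (Subtype.ext ((Nat.prime_dvd_prime_iff_eq (hpr p) (hpr q)).1 h).symm)
  · intro h; exact absurd (mem_univ _) h

theorem freq_inj {P : ℕ} {k k' : pr P → ℕ} {e e' : ℕ} (he : e ≠ 0) (he' : ∀ p ∈ pr P, ¬ p ∣ e)
    (hf : e' ≠ 0) (hf' : ∀ p ∈ pr P, ¬ p ∣ e')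
    (h : (∏ q : pr P, (q : ℕ) ^ k q) * e ^ 2 = (∏ q : pr P, (q : ℕ) ^ k' q) * e' ^ 2) :
    k = k' ∧ e = e' := by
  have h1 : k = k' := by
    funext p
    rw [← fact_aux k he he' p, h, fact_aux k' hf hf' p]
  subst h1
  refine ⟨rfl, ?_⟩
  have h0 : ∏ q : pr P, (q : ℕ) ^ k q ≠ 0 := prod_ne_zero_iff.2 fun q _ =>
    pow_ne_zero _ (mem_pr.1 q.2).1.ne_zero
  have h2 := Nat.eq_of_mul_eq_mul_left (Nat.pos_of_ne_zero h0) h
  exact Nat.pow_left_injective two_ne_zero h2

/-- the frequency -/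
noncomputable def fr {P : ℕ} (x : (pr P → ℕ) × ℕ) : ℝ :=
  (∑ p : pr P, (x.1 p : ℝ) * Real.log (p : ℕ)) + 2 * Real.log x.2

theorem fr_eq {P : ℕ} (x : (pr P → ℕ) × ℕ) (hx : x.2 ≠ 0) :
    fr x = Real.log (((∏ q : pr P, (q : ℕ) ^ x.1 q) * x.2 ^ 2 : ℕ) : ℝ) := by
  have h0 : ∀ q : pr P, ((q : ℕ) : ℝ) ≠ 0 := fun q => by
    exact_mod_cast (mem_pr.1 q.2).1.ne_zero
  have hx' : (x.2 : ℝ) ≠ 0 := by exact_mod_cast hx
  push_cast
  rw [Real.log_mul (prod_ne_zero_iff.2 fun q _ => pow_ne_zero _ (h0 q)) (pow_ne_zero _ hx'),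
    Real.log_prod fun q _ => pow_ne_zero _ (h0 q), Real.log_pow]
  unfold fr
  congr 1
  refine sum_congr rfl fun q _ => ?_
  rw [Real.log_pow]

theorem prod_lim {P : ℕ} (t : pr P → Finset ℕ) (c : pr P → ℕ → ℂ) (E : Finset ℕ)
    (hE : ∀ e ∈ E, e ≠ 0 ∧ ∀ p ∈ pr P, ¬ p ∣ e) :
    Tendsto (fun T : ℝ => ∫ u, ‖(∏ p : pr P, ∑ k ∈ t p, c p k *
        ee (k * Real.log (p : ℕ) * (T * u))) * ∑ e ∈ E, ee (2 * Real.log e * (T * u))‖ ^ 2 ∂gm)
      atTop (𝓝 ((∏ p : pr P, ∑ k ∈ t p, ‖c p k‖ ^ 2) * E.card)) := by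
  classical
  have hinj : Set.InjOn (fr (P := P)) ((Fintype.piFinset t ×ˢ E : Finset _) : Set _) := by
    intro x hx y hy hxy
    rw [mem_coe, mem_product] at hx hy
    obtain ⟨h1, h2⟩ := hE _ hx.2
    obtain ⟨h3, h4⟩ := hE _ hy.2
    rw [fr_eq x h1, fr_eq y h3] at hxy
    have hp : ∀ z : (pr P → ℕ) × ℕ, z.2 ≠ 0 →
        (0 : ℝ) < (((∏ q : pr P, (q : ℕ) ^ z.1 q) * z.2 ^ 2 : ℕ) : ℝ) := by
      intro z hz
      have : 0 < (∏ q : pr P, (q : ℕ) ^ z.1 q) * z.2 ^ 2 :=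
        Nat.mul_pos (prod_pos fun q _ => pow_pos (mem_pr.1 q.2).1.pos _)
          (pow_pos (Nat.pos_of_ne_zero hz) _)
      exact_mod_cast this
    have h5 := Real.log_injOn_pos (Set.mem_Ioi.2 (hp x h1)) (Set.mem_Ioi.2 (hp y h3)) hxy
    have h6 : (∏ q : pr P, (q : ℕ) ^ x.1 q) * x.2 ^ 2 = (∏ q : pr P, (q : ℕ) ^ y.1 q) * y.2 ^ 2 := by
      exact_mod_cast h5
    obtain ⟨h7, h8⟩ := freq_inj h1 h2 h3 h4 h6
    exact Prod.ext h7 h8
  have h := ms_lim (Fintype.piFinset t ×ˢ E) (fun x => ∏ p : pr P, c p (x.1 p)) fr hinj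
  have e1 : ∀ s : ℝ, (∏ p : pr P, ∑ k ∈ t p, c p k * ee (k * Real.log (p : ℕ) * s)) *
      ∑ e ∈ E, ee (2 * Real.log e * s) =
      ∑ x ∈ Fintype.piFinset t ×ˢ E, (∏ p : pr P, c p (x.1 p)) * ee (fr x * s) := by
    intro s
    rw [prod_univ_sum, sum_mul_sum, sum_product]
    refine sum_congr rfl fun k _ => sum_congr rfl fun e _ => ?_
    rw [prod_mul_distrib, mul_assoc]
    congr 1
    have : ∀ (S : Finset (pr P)) (f : pr P → ℝ), ∏ p ∈ S, ee (f p) = ee (∑ p ∈ S, f p) := by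
      intro S f
      induction S using Finset.induction_on with
      | empty => simp [ee_zero]
      | insert a S ha ih => rw [prod_insert ha, sum_insert ha, ih, ee_add]
    rw [this, ← ee_add]
    congr 1
    unfold fr
    rw [add_mul, sum_mul]
  have e2 : ∑ x ∈ Fintype.piFinset t ×ˢ E, ‖∏ p : pr P, c p (x.1 p)‖ ^ 2 =
      (∏ p : pr P, ∑ k ∈ t p, ‖c p k‖ ^ 2) * E.card := by
    rw [prod_univ_sum, sum_product, sum_mul]
    refine sum_congr rfl fun k _ => ?_
    simp only [norm_prod, prod_pow, sum_const, nsmul_eq_mul]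
    ring
  rw [← e2]
  refine h.congr fun T => ?_
  congr 1
  ext u
  rw [e1]

/-- the crude bound for the mean square of `SS y` -/
theorem SS_ms (y : ℕ) (hy : 1 ≤ y) (T : ℝ) (hT : 0 < T) :
    ∫ u, ‖SS y (T * u)‖ ^ 2 ∂gm ≤ (PS y).card * (1 + 2 * y / T * (1 + Real.log y)) := by
  have h := ms_schur (PS y) (fun _ => 1) (fun q => 2 * Real.log (q : ℕ)) T
    (1 + 2 * y / T * (1 + Real.log y)) (fun _ _ => by simp) ?_
  · simpa [SS] using h
  intro q hq
  obtain ⟨-, hq1, hq2⟩ := mem_PS.1 hq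
  have hy0 : (0 : ℝ) < y := by exact_mod_cast hy
  have key : ∀ q' ∈ (PS y).erase q,
      Real.exp (-((2 * Real.log q - 2 * Real.log q') * T) ^ 2 / 2) ≤
        y / T * (1 / |(q : ℝ) - q'|) := by
    intro q' hq'
    obtain ⟨hne, hq'⟩ := mem_erase.1 hq'
    obtain ⟨-, h1, h2⟩ := mem_PS.1 hq'
    have hd : 0 < |(q : ℝ) - q'| := abs_pos.2 (sub_ne_zero.2 fun h => hne (by exact_mod_cast h.symm))
    have hlog : |(q : ℝ) - q'| / (2 * y) ≤ |Real.log q - Real.log q'| := by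
      have aux : ∀ a b : ℕ, y < a → a < b → b ≤ 2 * y →
          ((b : ℝ) - a) / (2 * y) ≤ Real.log b - Real.log a := by
        intro a b ha hab hb
        have ha0 : (0 : ℝ) < a := by exact_mod_cast (by omega : 0 < a)
        have hb0 : (0 : ℝ) < b := by exact_mod_cast (by omega : 0 < b)
        have hab' : (a : ℝ) < b := by exact_mod_cast hab
        have hb' : (b : ℝ) ≤ 2 * y := by exact_mod_cast hb
        have h3 := Real.add_one_le_exp (Real.log a - Real.log b)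
        rw [Real.exp_sub, Real.exp_log ha0, Real.exp_log hb0] at h3
        have h4 : ((b : ℝ) - a) / (2 * y) ≤ ((b : ℝ) - a) / b := by
          apply div_le_div_of_nonneg_left (by linarith) hb0 hb'
        have h5 : ((b : ℝ) - a) / b = 1 - a / b := by field_simp
        linarith
      rcases lt_or_gt_of_ne hne with h | h
      · have h3 := aux q' q h1 h hq2
        have h4 : (0 : ℝ) < (q : ℝ) - q' := by
          have : (q' : ℝ) < q := by exact_mod_cast h
          linarith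
        rw [abs_of_pos h4]
        exact h3.trans (le_abs_self _)
      · have h3 := aux q q' hq1 h h2
        have h4 : (q : ℝ) - q' < 0 := by
          have : (q : ℝ) < q' := by exact_mod_cast h
          linarith
        rw [abs_of_neg h4, abs_sub_comm (Real.log _)]
        refine le_trans (le_of_eq ?_) (h3.trans (le_abs_self _))
        ring
    set D := |Real.log q - Real.log q'| with hD
    have hD0 : 0 < D := lt_of_lt_of_le (by positivity) hlog
    have e1 : -((2 * Real.log q - 2 * Real.log q') * T) ^ 2 / 2 = -(2 * (D * T) ^ 2) := by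
      rw [mul_pow D, hD, sq_abs]; ring
    rw [e1, Real.exp_neg]
    have h6 : 2 * (D * T) ≤ Real.exp (2 * (D * T) ^ 2) := by
      have := Real.add_one_le_exp (2 * (D * T) ^ 2)
      nlinarith [sq_nonneg (D * T - 1 / 2)]
    have h7 : (Real.exp (2 * (D * T) ^ 2))⁻¹ ≤ (2 * (D * T))⁻¹ := inv_anti₀ (by positivity) h6
    refine h7.trans ?_
    rw [show (y : ℝ) / T * (1 / |(q : ℝ) - q'|) = (2 * (|(q : ℝ) - q'| / (2 * y) * T))⁻¹ by
      field_simp]
    apply inv_anti₀ (by positivity)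
    have := mul_le_mul_of_nonneg_right hlog hT.le
    linarith
  have hsum : ∑ q' ∈ (PS y).erase q, (1 / |(q : ℝ) - q'|) ≤ 2 * (1 + Real.log y) := by
    have hH : ∑ k ∈ Finset.Icc 1 y, (1 / (k : ℝ)) ≤ 1 + Real.log y := by
      have := harmonic_le_one_add_log y
      rw [harmonic_eq_sum_Icc] at this
      push_cast at this
      simpa using this
    have h2 : ∀ (F : Finset ℕ) (g : ℕ → ℕ), (∀ x ∈ F, g x ∈ Finset.Icc 1 y) → Set.InjOn g F →
        (∀ x ∈ F, |(q : ℝ) - x| = (g x : ℕ)) →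
        ∑ x ∈ F, (1 / |(q : ℝ) - x|) ≤ ∑ k ∈ Finset.Icc 1 y, (1 / (k : ℝ)) := by
      intro F g h1 h2 h3
      calc ∑ x ∈ F, (1 / |(q : ℝ) - x|) = ∑ x ∈ F, (1 / ((g x : ℕ) : ℝ)) :=
            sum_congr rfl fun x hx => by rw [h3 x hx]
        _ = ∑ k ∈ F.image g, (1 / (k : ℝ)) := by rw [sum_image h2]
        _ ≤ _ := sum_le_sum_of_subset_of_nonneg (image_subset_iff.2 h1) fun _ _ _ => by positivity
    rw [← sum_filter_add_sum_filter_not ((PS y).erase q) (· < q)]
    have h3 := h2 (((PS y).erase q).filter (· < q)) (fun x => q - x) (fun x hx => by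
        obtain ⟨hx1, hx2⟩ := mem_filter.1 hx
        obtain ⟨-, h1, h2⟩ := mem_PS.1 (mem_erase.1 hx1).2
        rw [mem_Icc]; omega) (fun x hx z hz h => by
        have := (mem_filter.1 hx).2
        have := (mem_filter.1 hz).2
        simp only at h
        omega) (fun x hx => by
        have h4 := (mem_filter.1 hx).2
        have h5 : (x : ℝ) < q := by exact_mod_cast h4
        rw [abs_of_pos (by linarith), Nat.cast_sub h4.le])
    have h4 := h2 (((PS y).erase q).filter (¬ · < q)) (fun x => x - q) (fun x hx => by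
        obtain ⟨hx1, hx2⟩ := mem_filter.1 hx
        obtain ⟨hne, hx1⟩ := mem_erase.1 hx1
        obtain ⟨-, h1, h2⟩ := mem_PS.1 hx1
        rw [mem_Icc]; omega) (fun x hx z hz h => by
        have := (mem_filter.1 hx).2
        have := (mem_filter.1 hz).2
        simp only at h
        omega) (fun x hx => by
        have h4 := (mem_filter.1 hx).2
        have h5 : (q : ℝ) ≤ x := by exact_mod_cast not_lt.1 h4
        rw [abs_of_nonpos (by linarith), Nat.cast_sub (not_lt.1 h4)]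
        ring)
    linarith
  rw [← add_sum_erase _ _ hq]
  simp only [sub_self, zero_mul, ne_eq, OfNat.ofNat_ne_zero, not_false_eq_true, zero_pow, neg_zero,
    zero_div, Real.exp_zero]
  have h5 := sum_le_sum key
  rw [← mul_sum] at h5
  have h6 : (y : ℝ) / T * ∑ q' ∈ (PS y).erase q, (1 / |(q : ℝ) - q'|) ≤
      y / T * (2 * (1 + Real.log y)) := mul_le_mul_of_nonneg_left hsum (by positivity)
  have h7 : 2 * (y : ℝ) / T * (1 + Real.log y) = y / T * (2 * (1 + Real.log y)) := by ring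
  linarith

end H90.CD
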