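import Pool.Agent.H90.CD.Zono
import Pool.Agent.H90.CD.Chain
import Pool.Agent.H90.CD.Poly

/-!
Signed subset sums: iterating the zonotope lemma over dyadic blocks, and the real Kakeya step.
-/

set_option autoImplicit false

open Finset Filter Topology

namespace H90.CD

theorem Ap_mono {c : ℂ} {W W' : ℕ → Prop} (h : ∀ p, p.Prime → W p → W' p) {z : ℂ}
    (hz : Ap c W z) : Ap c W' z := fun ε hε => by
  obtain ⟨A, N, h1, h2⟩ := hz ε hε
  exact ⟨A, N, fun p hp => ⟨(h1 p hp).1, h p (h1 p hp).1 (h1 p hp).2⟩, h2⟩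

theorem Ap_sub {c : ℂ} {W W' : ℕ → Prop} {q : ℕ} (hq : q.Prime) (hW : ¬ W q) (hW' : W' q)
    (h : ∀ p, p.Prime → W p → W' p) {z : ℂ} (hz : Ap c W (z - vv c q)) : Ap c W' z := fun ε hε => by
  obtain ⟨A, N, h1, h2⟩ := hz ε hε
  have hqA : q ∉ A := fun hA => hW (h1 q (mem_union_left _ hA)).2
  refine ⟨insert q A, N, fun p hp => ?_, ?_⟩
  · rw [insert_union, mem_insert] at hp
    rcases hp with rfl | hp
    · exact ⟨hq, hW'⟩
    · exact ⟨(h1 p hp).1, h p (h1 p hp).1 (h1 p hp).2⟩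
  · rw [sum_insert hqA, ← sub_sub]
    exact h2

theorem Ap_add {c : ℂ} {W W' : ℕ → Prop} {q : ℕ} (hq : q.Prime) (hW : ¬ W q) (hW' : W' q)
    (h : ∀ p, p.Prime → W p → W' p) {z : ℂ} (hz : Ap c W (z + vv c q)) : Ap c W' z := fun ε hε => by
  obtain ⟨A, N, h1, h2⟩ := hz ε hε
  have hqN : q ∉ N := fun hN => hW (h1 q (mem_union_right _ hN)).2
  refine ⟨A, insert q N, fun p hp => ?_, ?_⟩
  · rw [union_insert, mem_insert] at hp
    rcases hp with rfl | hp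
    · exact ⟨hq, hW'⟩
    · exact ⟨(h1 p hp).1, h p (h1 p hp).1 (h1 p hp).2⟩
  · rw [sum_insert hqN, show z - ∑ p ∈ A, vv c p + (vv c q + ∑ p ∈ N, vv c p) =
      z + vv c q - ∑ p ∈ A, vv c p + ∑ p ∈ N, vv c p by ring]
    exact h2

theorem multi {c : ℂ} {P : ℕ} {L b : ℕ → ℝ} (hb0 : ∀ j, 0 ≤ b j)
    (hL : ∀ j, ∀ u : ℂ, L j * ‖u‖ ≤ ∑ q ∈ PS (2 ^ j * P), |(vv c q * (starRingEnd ℂ) u).re|)
    (hB : ∀ j, ∀ q ∈ PS (2 ^ j * P), ‖vv c q‖ ≤ b j) (hstep : ∀ j, b j ≤ L (j + 1))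
    {j : ℕ} {z : ℂ} (hz : ‖z‖ ≤ L j) (n : ℕ) :
    ∃ A N : Finset ℕ, (∀ p ∈ A ∪ N, p.Prime ∧ 2 ^ j * P < p ∧ p ≤ 2 ^ (j + n + 1) * P) ∧
      ‖z - ∑ p ∈ A, vv c p + ∑ p ∈ N, vv c p‖ ≤ b (j + n) := by
  induction n with
  | zero =>
    obtain ⟨A, N, hA, hN, h⟩ := zono _ (vv c) (L j) (b j) (hb0 j) (hL j) (hB j) z hz
    refine ⟨A, N, fun p hp => ?_, h⟩
    have := mem_PS.1 (union_subset hA hN hp)
    refine ⟨this.1, this.2.1, ?_⟩
    rw [add_zero, pow_succ]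
    linarith [this.2.2]
  | succ n ih =>
    obtain ⟨A, N, h1, h2⟩ := ih
    obtain ⟨A', N', hA, hN, h3⟩ := zono _ (vv c) (L (j + n + 1)) (b (j + n + 1)) (hb0 _) (hL _)
      (hB _) _ (h2.trans (hstep _))
    have h4 : ∀ p ∈ A' ∪ N', p.Prime ∧ 2 ^ (j + n + 1) * P < p ∧ p ≤ 2 ^ (j + (n + 1) + 1) * P := by
      intro p hp
      have := mem_PS.1 (union_subset hA hN hp)
      refine ⟨this.1, this.2.1, ?_⟩
      rw [show j + (n + 1) + 1 = (j + n + 1) + 1 by ring, pow_succ]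
      linarith [this.2.2]
    have hd : ∀ p ∈ A ∪ N, p ∉ A' ∪ N' := by
      intro p a b
      have a' := (h1 p a).2.2
      have b' := (h4 p b).2.1
      omega
    refine ⟨A ∪ A', N ∪ N', fun p hp => ?_, ?_⟩
    · have : p ∈ A ∪ N ∨ p ∈ A' ∪ N' := by
        simp only [mem_union] at hp ⊢; tauto
      rcases this with h | h
      · obtain ⟨a, b, c⟩ := h1 p h
        refine ⟨a, b, c.trans (Nat.mul_le_mul_right _ (Nat.pow_le_pow_right (by norm_num) (by omega)))⟩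
      · obtain ⟨a, b, c⟩ := h4 p h
        exact ⟨a, lt_of_le_of_lt (Nat.mul_le_mul_right _
          (Nat.pow_le_pow_right (by norm_num) (by omega))) b, c⟩
    · rw [sum_union (disjoint_left.2 fun p a b => hd p (mem_union_left _ a) (mem_union_left _ b)),
        sum_union (disjoint_left.2 fun p a b => hd p (mem_union_right _ a) (mem_union_right _ b))]
      have e : z - (∑ p ∈ A, vv c p + ∑ p ∈ A', vv c p) + (∑ p ∈ N, vv c p + ∑ p ∈ N', vv c p) =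
          z - ∑ p ∈ A, vv c p + ∑ p ∈ N, vv c p - ∑ p ∈ A', vv c p + ∑ p ∈ N', vv c p := by ring
      rw [e]
      exact h3

theorem ball {c : ℂ} {P : ℕ} {L b : ℕ → ℝ} (hb0 : ∀ j, 0 ≤ b j)
    (hL : ∀ j, ∀ u : ℂ, L j * ‖u‖ ≤ ∑ q ∈ PS (2 ^ j * P), |(vv c q * (starRingEnd ℂ) u).re|)
    (hB : ∀ j, ∀ q ∈ PS (2 ^ j * P), ‖vv c q‖ ≤ b j) (hstep : ∀ j, b j ≤ L (j + 1))
    (hlim : Tendsto b atTop (𝓝 0)) {j : ℕ} {z : ℂ} (hz : ‖z‖ ≤ L j) :
    Ap c (fun p => 2 ^ j * P < p) z := by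
  intro ε hε
  have h1 : ∀ᶠ n in atTop, b n < ε := hlim.eventually (gt_mem_nhds hε)
  obtain ⟨n, hn⟩ := (h1.and (eventually_ge_atTop j)).exists
  obtain ⟨A, N, h2, h3⟩ := multi hb0 hL hB hstep hz (n - j)
  rw [show j + (n - j) = n by omega] at h3
  exact ⟨A, N, fun p hp => ⟨(h2 p hp).1, (h2 p hp).2.1⟩, h3.trans_lt hn.1⟩

/-- horizontal primes above `y`. -/
def HH (P : ℕ) (V : Finset ℕ) (y : ℕ) : Finset ℕ := (pr P).filter fun q => y < q ∧ q ∉ V

theorem HH_top (P : ℕ) (V : Finset ℕ) : HH P V P = ∅ := by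
  ext q
  simp only [HH, mem_filter, mem_pr, notMem_empty, iff_false, not_and]
  intro h1 h2; omega

theorem HH_skip {P : ℕ} {V : Finset ℕ} {y : ℕ} (h : ¬ ((y + 1).Prime ∧ y + 1 ∉ V)) :
    HH P V y = HH P V (y + 1) := by
  ext q
  simp only [HH, mem_filter, mem_pr]
  constructor
  · rintro ⟨h1, h2, h3⟩
    refine ⟨h1, ?_, h3⟩
    by_contra h4
    have : q = y + 1 := by omega
    subst this
    exact h ⟨h1.1, h3⟩
  · rintro ⟨h1, h2, h3⟩
    exact ⟨h1, by omega, h3⟩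

theorem HH_insert {P : ℕ} {V : Finset ℕ} {y : ℕ} (h : (y + 1).Prime) (h' : y + 1 ∉ V)
    (hy : y + 1 ≤ P) : HH P V y = insert (y + 1) (HH P V (y + 1)) := by
  ext q
  simp only [HH, mem_filter, mem_pr, mem_insert]
  constructor
  · rintro ⟨h1, h2, h3⟩
    by_cases h4 : q = y + 1
    · exact Or.inl h4
    · exact Or.inr ⟨h1, by omega, h3⟩
  · rintro (rfl | ⟨h1, h2, h3⟩)
    · exact ⟨⟨h, hy⟩, by omega, h'⟩
    · exact ⟨h1, by omega, h3⟩

theorem kakeya {c : ℂ} {P : ℕ} {V : Finset ℕ} {l : ℝ} (hV : ∀ v ∈ V, v ≤ P)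
    (hball : ∀ z : ℂ, ‖z‖ ≤ 2 * l → Ap c (fun p => P < p) z)
    (hre : ∀ q, q.Prime → q ≤ P → q ∉ V → 0 ≤ (vv c q).re ∧
      (vv c q).re ≤ 2 * (∑ p ∈ HH P V q, (vv c p).re + l))
    {y : ℕ} (hy : y ≤ P) : ∀ z : ℂ, |z.re| ≤ ∑ p ∈ HH P V y, (vv c p).re + l →
      |z.im| ≤ l - ∑ p ∈ HH P V y, |(vv c p).im| → Ap c (fun p => y < p ∧ p ∉ V) z := by
  induction hy using Nat.decreasingInduction with
  | self =>
    intro z h1 h2
    rw [HH_top] at h1 h2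
    simp only [sum_empty] at h1 h2
    refine Ap_mono ?_ (hball z ?_)
    · exact fun p _ hp => ⟨hp, fun h => absurd (hV p h) (not_le.2 hp)⟩
    · refine (Complex.norm_le_abs_re_add_abs_im z).trans ?_
      linarith
  | of_succ y hy ih =>
    intro z h1 h2
    by_cases hyp : (y + 1).Prime ∧ y + 1 ∉ V
    · have hmem : y + 1 ∉ HH P V (y + 1) := by simp [HH]
      rw [HH_insert hyp.1 hyp.2 hy, sum_insert hmem] at h1 h2
      obtain ⟨h3, h4⟩ := hre _ hyp.1 hy hyp.2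
      have hWq : ¬ (fun p => y + 1 < p ∧ p ∉ V) (y + 1) := by simp
      have hW'q : (fun p => y < p ∧ p ∉ V) (y + 1) := ⟨by omega, hyp.2⟩
      have hWW : ∀ p, p.Prime → (fun p => y + 1 < p ∧ p ∉ V) p → (fun p => y < p ∧ p ∉ V) p :=
        fun p _ hp => ⟨by omega, hp.2⟩
      have h5 := abs_nonneg (vv c (y + 1)).im
      by_cases h6 : |z.re| ≤ ∑ p ∈ HH P V (y + 1), (vv c p).re + l
      · exact Ap_mono hWW (ih z h6 (by linarith))
      · push Not at h6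
        rcases abs_cases z.re with ⟨h7, h8⟩ | ⟨h7, h8⟩
        · refine Ap_sub hyp.1 hWq hW'q hWW (ih _ ?_ ?_)
          · rw [Complex.sub_re, abs_le]
            constructor <;> linarith
          · rw [Complex.sub_im]
            have := abs_sub z.im (vv c (y + 1)).im
            linarith
        · refine Ap_add hyp.1 hWq hW'q hWW (ih _ ?_ ?_)
          · rw [Complex.add_re, abs_le]
            constructor <;> linarith
          · rw [Complex.add_im]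
            have := abs_add_le z.im (vv c (y + 1)).im
            linarith
    · rw [HH_skip hyp] at h1 h2
      refine Ap_mono ?_ (ih z h1 h2)
      exact fun p _ hp => ⟨by omega, hp.2⟩

end H90.CD
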