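import Pool.Agent.H90.CD.Setup
import Pool.Agent.H90.CD.Far
import Pool.Agent.H90.CD.Good4

/-!
Choice of the parameters.
-/

set_option autoImplicit false

open Finset Filter Topology

namespace H90.CD

theorem card_big {y0 : ℕ}
    (hcard : ∀ y : ℕ, y0 ≤ y → (y : ℝ) / (2 * Real.log y) ≤ (PS y).card) (N : ℕ) :
    ∃ x0 : ℕ, ∀ x, x0 ≤ x → N ≤ (PS x).card := by
  have t2 : ∀ᶠ x : ℝ in atTop, ‖Real.log x ^ 1‖ ≤ (1 / (2 * N + 1)) * ‖id x‖ :=
    (Real.isLittleO_pow_log_id_atTop (n := 1)).bound (by positivity)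
  obtain ⟨x1, hx1⟩ := ((tendsto_natCast_atTop_atTop (R := ℝ)).eventually t2).exists_forall_of_atTop
  refine ⟨max (max y0 x1) 3, fun x hx => ?_⟩
  have h1 : y0 ≤ x := le_of_max_le_left (le_of_max_le_left hx)
  have h2 : x1 ≤ x := le_of_max_le_right (le_of_max_le_left hx)
  have h3 : 3 ≤ x := le_of_max_le_right hx
  have h4 := hx1 x h2
  have h5 := hcard x h1
  have hx0 : (0 : ℝ) < x := by exact_mod_cast (by omega : 0 < x)
  have hlog : 0 < Real.log (x : ℝ) := Real.log_pos (by exact_mod_cast (by omega : 1 < x))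
  rw [pow_one, id, Real.norm_of_nonneg hlog.le, Real.norm_of_nonneg hx0.le] at h4
  have h6 : (N : ℝ) ≤ x / (2 * Real.log x) := by
    rw [le_div_iff₀ (by positivity)]
    have h7 : 1 / (2 * (N : ℝ) + 1) * x * (2 * N + 1) = x := by field_simp
    have h8 := mul_le_mul_of_nonneg_right h4 (show 0 ≤ 2 * (N : ℝ) + 1 by positivity)
    rw [h7] at h8
    nlinarith
  exact_mod_cast h6.trans h5

theorem div_sum (q0 : ℕ) : ∃ M, q0 ≤ M ∧ 4 ≤ ∑ q ∈ (Ioc q0 M).filter Nat.Prime, 1 / (q : ℝ) := by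
  have h1 := not_summable_one_div_on_primes
  rw [not_summable_iff_tendsto_nat_atTop_of_nonneg (by
    intro n
    apply Set.indicator_nonneg
    intro _ _
    positivity)] at h1
  set f : ℕ → ℝ := Set.indicator {p : ℕ | p.Prime} (fun n : ℕ => (1 : ℝ) / n) with hf
  obtain ⟨n, hn, hn'⟩ := ((h1.eventually (eventually_ge_atTop (4 + ∑ i ∈ range (q0 + 1), f i))).and
    (eventually_ge_atTop (q0 + 1))).exists
  refine ⟨n - 1, by omega, ?_⟩
  have h2 : ∑ i ∈ Ico (q0 + 1) n, f i = ∑ i ∈ range n, f i - ∑ i ∈ range (q0 + 1), f i :=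
    sum_Ico_eq_sub _ hn'
  have h3 : Ico (q0 + 1) n = Ioc q0 (n - 1) := by
    ext i; simp only [mem_Ico, mem_Ioc]; omega
  rw [h3] at h2
  have h4 : ∑ q ∈ (Ioc q0 (n - 1)).filter Nat.Prime, 1 / (q : ℝ) = ∑ i ∈ Ioc q0 (n - 1), f i := by
    rw [sum_filter]
    apply sum_congr rfl
    intro i _
    rw [hf, Set.indicator_apply]
    rfl
  rw [h4, h2]
  linarith

theorem exists_r (q0 : ℕ) : ∃ (r : ℝ) (M : ℕ), 1 < r ∧ r < 2 ∧ q0 ≤ M ∧
    3 ≤ ∑ q ∈ (Ioc q0 M).filter Nat.Prime, (q : ℝ) ^ (-r) := by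
  obtain ⟨M, hM, hs⟩ := div_sum q0
  have hc : ContinuousAt (fun r : ℝ => ∑ q ∈ (Ioc q0 M).filter Nat.Prime, (q : ℝ) ^ (-r)) 1 := by
    apply Continuous.continuousAt
    apply continuous_finsetSum
    intro q hq
    have : (q : ℝ) ≠ 0 := by
      have := (mem_filter.1 hq).2.pos
      exact_mod_cast this.ne'
    exact (Real.continuous_const_rpow this).comp continuous_neg
  have h1 : (3 : ℝ) < ∑ q ∈ (Ioc q0 M).filter Nat.Prime, (q : ℝ) ^ (-(1 : ℝ)) := by
    refine lt_of_lt_of_le (by norm_num) (hs.trans (le_of_eq ?_))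
    apply sum_congr rfl
    intro q _
    rw [Real.rpow_neg_one, one_div]
  have hev : ∀ᶠ s in 𝓝[>] (1 : ℝ), 3 < ∑ q ∈ (Ioc q0 M).filter Nat.Prime, (q : ℝ) ^ (-s) :=
    nhdsWithin_le_nhds (hc.eventually (lt_mem_nhds h1))
  obtain ⟨s, h1, h2⟩ := (hev.and (Ioo_mem_nhdsGT (by norm_num : (1 : ℝ) < 2))).exists
  exact ⟨s, M, h2.1, h2.2, hM, h1.le⟩

theorem theta_exists {x h : ℝ} (hx0 : 0 < x) (hx : x ≤ 1 / 2) (h0 : 0 ≤ h) (hh : h ≤ x / 2) :
    ∃ θ : ℝ, (Complex.log (1 + x * ee θ)).im = h := by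
  have hn : ∀ θ, ‖(x : ℂ) * ee θ‖ = x := fun θ => by
    rw [norm_mul, norm_ee, mul_one, Complex.norm_real, Real.norm_of_nonneg hx0.le]
  have hc : Continuous fun θ : ℝ => (Complex.log (1 + x * ee θ)).im := by
    apply Complex.continuous_im.comp
    apply Continuous.clog
    · exact continuous_const.add (continuous_const.mul cont_ee)
    · intro θ
      left
      have := (abs_le.1 ((Complex.abs_re_le_norm _).trans (hn θ).le)).1
      rw [Complex.add_re, Complex.one_re]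
      linarith
  have h1 := intermediate_value_Icc (show (0 : ℝ) ≤ Real.pi / 2 by positivity) hc.continuousOn
  have h2 : h ∈ Set.Icc ((Complex.log (1 + x * ee 0)).im) ((Complex.log (1 + x * ee (Real.pi / 2))).im) := by
    constructor
    · have : (1 : ℂ) + x * ee 0 = ((1 + x : ℝ) : ℂ) := by rw [ee_zero]; push_cast; ring
      rw [this, ← Complex.ofReal_log (by linarith), Complex.ofReal_im]
      exact h0
    · have h3 := log_sub_bd (w := (x : ℂ) * ee (Real.pi / 2)) (by rw [hn]; exact hx)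
      rw [hn] at h3
      have h4 := (abs_le.1 ((Complex.abs_im_le_norm _).trans h3)).1
      have h5 : ((x : ℂ) * ee (Real.pi / 2)).im = x := by
        have : ee (Real.pi / 2) = Complex.I := by
          unfold ee
          push_cast
          exact Complex.exp_pi_div_two_mul_I
        rw [this]; simp
      rw [Complex.sub_im, h5] at h4
      nlinarith
  obtain ⟨θ, _, hθ⟩ := h1 h2
  exact ⟨θ, hθ⟩

/-- growth conditions on `Q`. -/
theorem growth (r s : ℝ) (k : ℕ) (hr : 1 < r) : ∀ᶠ x : ℝ in atTop,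
    1536 * (Real.log 2 + s * Real.log x) ≤ x ^ (r / 2) ∧
    6 * k * x ^ (-r) + 3 * (x ^ (-(r / 2)) / (r - 1)) ≤ (2 : ℝ) ^ (-r) / 16 := by
  have hr2 : 0 < r / 2 := by linarith
  have h1 : (fun x : ℝ => 1536 * (Real.log 2 + s * Real.log x)) =o[atTop] fun x => x ^ (r / 2) := by
    apply Asymptotics.IsLittleO.const_mul_left
    apply Asymptotics.IsLittleO.add
    · exact Asymptotics.isLittleO_const_left.2 (Or.inr
        (tendsto_norm_atTop_atTop.comp (tendsto_rpow_atTop hr2)))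
    · exact (isLittleO_log_rpow_atTop hr2).const_mul_left _
  have h2 := h1.bound (show (0 : ℝ) < 1 by norm_num)
  have h3 : Tendsto (fun x : ℝ => 6 * k * x ^ (-r) + 3 * (x ^ (-(r / 2)) / (r - 1))) atTop
      (𝓝 (6 * k * 0 + 3 * (0 / (r - 1)))) :=
    ((tendsto_rpow_neg_atTop (by linarith)).const_mul _).add
      (((tendsto_rpow_neg_atTop hr2).div_const _).const_mul _)
  have h4 : 6 * (k : ℝ) * 0 + 3 * (0 / (r - 1)) < (2 : ℝ) ^ (-r) / 16 := by
    have : 0 < (2 : ℝ) ^ (-r) := Real.rpow_pos_of_pos (by norm_num) _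
    simp
    positivity
  filter_upwards [h2, h3.eventually (gt_mem_nhds h4), eventually_ge_atTop (1 : ℝ)] with x a1 a2 a3
  refine ⟨?_, a2.le⟩
  rw [one_mul, Real.norm_eq_abs, Real.norm_of_nonneg (by positivity)] at a1
  exact (le_abs_self _).trans a1

theorem main (k : ℕ) : ∃ c : ℂ,
    ENat.card (ConnectedComponents (closure (sg c '' {n | 1 ≤ n}))) = (k + 1 : ℕ) := by
  obtain ⟨y0, hfar, hcard⟩ := far_all
  obtain ⟨q0, hq0⟩ := card_big hcard 24
  obtain ⟨x1, hx1⟩ := card_big hcard (768 + k)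
  obtain ⟨r, M, hr, hr2, hM, hsumr⟩ := exists_r q0
  have hr1 : 0 < r - 1 := by linarith
  set s : ℝ := 3 * r / (2 * (r - 1)) with hs
  have hs3 : 3 ≤ s := by
    rw [hs, le_div_iff₀ (by linarith)]; linarith
  have hs1 : s * (1 - r) = -(3 * r / 2) := by
    rw [hs]; field_simp; ring
  obtain ⟨Q1, hQ1⟩ := ((tendsto_natCast_atTop_atTop (R := ℝ)).eventually
    (growth r s k hr)).exists_forall_of_atTop
  -- choice of Q
  obtain ⟨Q, hQdef⟩ : ∃ Q : ℕ, Q = Q1 + M + 2 * x1 + y0 + k + 40000 := ⟨_, rfl⟩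
  obtain ⟨hg1, hg2⟩ := hQ1 Q (by omega)
  have hQr : (40000 : ℝ) ≤ Q := by exact_mod_cast (by omega : 40000 ≤ Q)
  have hQ0 : (0 : ℝ) < Q := by linarith
  set P : ℕ := ⌈(Q : ℝ) ^ s⌉₊ with hP
  have hPlow : (Q : ℝ) ^ s ≤ P := Nat.le_ceil _
  have hQs1 : (1 : ℝ) ≤ (Q : ℝ) ^ s := Real.one_le_rpow (by linarith) (by linarith)
  have hPup : (P : ℝ) ≤ 2 * (Q : ℝ) ^ s := by
    have := (Nat.ceil_lt_add_one (show 0 ≤ (Q : ℝ) ^ s by positivity)).le
    rw [hP]; linarith
  have hPQ3 : (Q : ℝ) ^ 2 ≤ P := by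
    refine le_trans ?_ hPlow
    rw [← Real.rpow_two]
    exact Real.rpow_le_rpow_of_exponent_le (by linarith) (by linarith)
  have hQP : 2 * Q ≤ P := by
    have : (2 : ℝ) * Q ≤ P := by nlinarith
    exact_mod_cast this
  have hP0 : (0 : ℝ) < P := by nlinarith
  -- V
  obtain ⟨V, hVsub, hVcard⟩ := exists_subset_card_eq (show k ≤ (PS Q).card by
    have := hx1 Q (by omega); omega)
  have hV : ∀ v ∈ V, v.Prime ∧ Q < v ∧ v ≤ 2 * Q := fun v hv => mem_PS.1 (hVsub hv)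
  set h : ℝ := (2 * Q : ℝ) ^ (-r) / 2 with hh
  have hh0 : 0 < h := by
    have : 0 < (2 * Q : ℝ) ^ (-r) := Real.rpow_pos_of_pos (by linarith) _
    positivity
  have h2Q : (2 * Q : ℝ) ^ (-r) = (2 : ℝ) ^ (-r) * (Q : ℝ) ^ (-r) :=
    Real.mul_rpow (by norm_num) hQ0.le
  -- θ
  have hθex : ∀ v : ℕ, ∃ θ : ℝ, v ∈ V → (Complex.log (1 + (((v : ℝ) ^ (-r) : ℝ) : ℂ) * ee θ)).im = h := by
    intro v
    by_cases hv : v ∈ V
    · obtain ⟨v1, v2, v3⟩ := hV v hv
      have h1 : (v : ℝ) ^ (-r) ≤ 1 / 2 := by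
        have := norm_half (c := cc r 0) (by rw [cc_re]; linarith) v1.two_le
        rwa [norm_w' r 0 v1.pos] at this
      have h2 : (2 * Q : ℝ) ^ (-r) ≤ (v : ℝ) ^ (-r) :=
        Real.rpow_le_rpow_of_nonpos (by exact_mod_cast v1.pos) (by exact_mod_cast v3) (by linarith)
      obtain ⟨θ, hθ⟩ := theta_exists (x_pos r v1.pos) h1 hh0.le (by rw [hh]; linarith)
      exact ⟨θ, fun _ => hθ⟩
    · exact ⟨0, fun h => absurd h hv⟩
  choose θ0 hθ0 using hθex
  set θ : ℕ → ℝ := fun p => if p ∈ V then θ0 p else 0 with hθ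
  -- sizes
  have hcardP := hcard P (by omega)
  have hlogP : 0 < Real.log (P : ℝ) := Real.log_pos (by nlinarith)
  have hPr1 : (P : ℝ) ^ (-r) * P = (P : ℝ) ^ (1 - r) := by
    rw [show (1 : ℝ) - r = -r + 1 by ring, Real.rpow_add hP0, Real.rpow_one]
  have hP1r : (P : ℝ) ^ (1 - r) ≤ (Q : ℝ) ^ (-(3 * r / 2)) := by
    rw [← hs1, Real.rpow_mul hQ0.le]
    exact Real.rpow_le_rpow_of_nonpos (by positivity) hPlow (by linarith)
  have hP1r' : (Q : ℝ) ^ (-(3 * r / 2)) / 2 ≤ (P : ℝ) ^ (1 - r) := by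
    have h1 : (2 * (Q : ℝ) ^ s) ^ (1 - r) ≤ (P : ℝ) ^ (1 - r) :=
      Real.rpow_le_rpow_of_nonpos hP0 hPup (by linarith)
    rw [Real.mul_rpow (by norm_num) (by positivity), ← Real.rpow_mul hQ0.le, hs1] at h1
    have h2 : (1 / 2 : ℝ) ≤ (2 : ℝ) ^ (1 - r) := by
      have := Real.rpow_le_rpow_of_exponent_le (show (1 : ℝ) ≤ 2 by norm_num)
        (show (-1 : ℝ) ≤ 1 - r by linarith)
      rw [Real.rpow_neg_one] at this
      linarith
    have h3 : 0 < (Q : ℝ) ^ (-(3 * r / 2)) := Real.rpow_pos_of_pos hQ0 _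
    nlinarith
  have hlogPle : Real.log P ≤ Real.log 2 + s * Real.log Q := by
    have h1 := Real.log_le_log hP0 hPup
    rwa [Real.log_mul (by norm_num) (by positivity), Real.log_rpow hQ0] at h1
  have h2r : (1 / 4 : ℝ) ≤ (2 : ℝ) ^ (-r) := by
    refine le_trans ?_ (Real.rpow_le_rpow_of_exponent_le (by norm_num) (by linarith : (-2 : ℝ) ≤ -r))
    rw [Real.rpow_neg (by norm_num), Real.rpow_two]; norm_num
  have hLLlow : (P : ℝ) ^ (1 - r) / (64 * Real.log P) ≤ LL r P := by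
    unfold LL
    rw [Real.mul_rpow (by norm_num) hP0.le]
    have h1 : (P : ℝ) / (2 * Real.log P) * ((1 / 4) * (P : ℝ) ^ (-r)) ≤
        (PS P).card * ((2 : ℝ) ^ (-r) * (P : ℝ) ^ (-r)) := by
      apply mul_le_mul hcardP _ (by positivity) (by positivity)
      exact mul_le_mul_of_nonneg_right h2r (by positivity)
    have h2 : (P : ℝ) / (2 * Real.log P) * ((1 / 4) * (P : ℝ) ^ (-r)) =
        (P : ℝ) ^ (1 - r) / (8 * Real.log P) := by
      rw [← hPr1]; field_simp; norm_num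
    rw [h2] at h1
    have h3 : (P : ℝ) ^ (1 - r) / (64 * Real.log P) = (P : ℝ) ^ (1 - r) / (8 * Real.log P) / 8 := by
      field_simp; norm_num
    rw [h3]
    linarith
  have hLL0 : 0 < LL r P := lt_of_lt_of_le (by positivity) hLLlow
  have hVL : 3 * ((Q : ℝ) ^ (-r)) ^ 2 ≤ LL r P / 4 := by
    have h1 : (Q : ℝ) ^ (-(3 * r / 2)) / 2 / (64 * Real.log P) ≤ LL r P :=
      le_trans (div_le_div_of_nonneg_right hP1r' (by positivity)) hLLlow
    have h2 : ((Q : ℝ) ^ (-r)) ^ 2 * (Q : ℝ) ^ (r / 2) = (Q : ℝ) ^ (-(3 * r / 2)) := by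
      rw [← Real.rpow_natCast, ← Real.rpow_mul hQ0.le, ← Real.rpow_add hQ0]
      congr 1; push_cast; ring
    have h3 : 1536 * Real.log P ≤ (Q : ℝ) ^ (r / 2) := by linarith
    rw [← h2] at h1
    have h4 : 12 * ((Q : ℝ) ^ (-r)) ^ 2 ≤
        ((Q : ℝ) ^ (-r)) ^ 2 * (Q : ℝ) ^ (r / 2) / 2 / (64 * Real.log P) := by
      rw [le_div_iff₀ (by positivity)]
      have h5 : 0 ≤ ((Q : ℝ) ^ (-r)) ^ 2 := by positivity
      have h6 := mul_le_mul_of_nonneg_left h3 h5
      linarith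
    linarith
  -- δ
  obtain ⟨δ, hδ0, hδ1, hδ2, hδ3⟩ : ∃ δ : ℝ, 0 < δ ∧ P * δ ≤ LL r P / 4 ∧ δ ≤ 1 / 12 ∧
      5 * δ * P ≤ h / 8 := by
    refine ⟨min (min (LL r P / 4 / P) (1 / 12)) (h / 8 / (5 * P)), by positivity, ?_, ?_, ?_⟩
    · have h1 : min (min (LL r P / 4 / P) (1 / 12)) (h / 8 / (5 * P)) ≤ LL r P / 4 / P :=
        (min_le_left _ _).trans (min_le_left _ _)
      rw [le_div_iff₀ hP0] at h1
      linarith
    · exact (min_le_left _ _).trans (min_le_right _ _)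
    · have h1 : min (min (LL r P / 4 / P) (1 / 12)) (h / 8 / (5 * P)) ≤ h / 8 / (5 * P) :=
        min_le_right _ _
      rw [le_div_iff₀ (by positivity)] at h1
      linarith
  obtain ⟨τ, hτ1, hτ2⟩ := good hfar hcard P (by omega) (by omega) θ δ hδ0
  refine ⟨cc r τ, ?_⟩
  rw [← hVcard]
  have hn : ∀ j : ℕ, 768 ≤ (PS (2 ^ j * P)).card := by
    intro j
    have := hx1 (2 ^ j * P) ((by omega : x1 ≤ P).trans (Nat.le_mul_of_pos_left _ Nat.one_le_two_pow))
    omega
  refine setup (h := h) hr hr2.le (by omega : 4 ≤ Q) (by omega) hQP hV hn hτ2 ?_ ?_ hδ0 hδ1 hδ2 ?_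
    hVL hh0 ?_ ?_
  · intro p hp h1 h2
    have := hτ1 p (mem_pr.2 ⟨hp, h1⟩)
    simp only [hθ, h2, if_false, ee_zero] at this
    exact this
  · intro v hv
    obtain ⟨v1, v2, v3⟩ := hV v hv
    have h1 := hτ1 v (mem_pr.2 ⟨v1, by omega⟩)
    simp only [hθ, hv, if_true] at h1
    have h2 := hθ0 v hv
    have hx2 : (v : ℝ) ^ (-r) ≤ 1 / 2 := by
      have := norm_half (c := cc r 0) (by rw [cc_re]; linarith) v1.two_le
      rwa [norm_w' r 0 v1.pos] at this
    have hx0 := x_pos r v1.pos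
    have hnn : ∀ t, ‖(((v : ℝ) ^ (-r) : ℝ) : ℂ) * ee t‖ = (v : ℝ) ^ (-r) := fun t => by
      rw [norm_mul, norm_ee, mul_one, Complex.norm_real, Real.norm_of_nonneg hx0.le]
    have h3 := log_lip (w := (((v : ℝ) ^ (-r) : ℝ) : ℂ) * ee (Real.log v * τ))
      (z := (((v : ℝ) ^ (-r) : ℝ) : ℂ) * ee (θ0 v)) (by rw [hnn]; exact hx2) (by rw [hnn]; exact hx2)
    rw [← mul_sub, norm_mul, Complex.norm_real, Real.norm_of_nonneg hx0.le] at h3
    have h4 := Complex.abs_im_le_norm (Complex.log (1 + (((v : ℝ) ^ (-r) : ℝ) : ℂ) *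
      ee (Real.log v * τ)) - Complex.log (1 + (((v : ℝ) ^ (-r) : ℝ) : ℂ) * ee (θ0 v)))
    rw [Complex.sub_im, h2] at h4
    unfold vv
    rw [w_eq r τ v1.pos]
    refine h4.trans (h3.trans ?_)
    have h5 : (v : ℝ) ^ (-r) * ‖ee (Real.log v * τ) - ee (θ0 v)‖ ≤ 1 / 2 * δ :=
      mul_le_mul hx2 h1 (norm_nonneg _) (by norm_num)
    linarith
  · -- Kakeya condition
    intro q hq hqP
    have hq1 := hq.two_le
    have hq0' : (0 : ℝ) < q := by exact_mod_cast hq.pos
    have hxq := x_pos r hq.pos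
    have hnn : ∀ T : Finset ℕ, 0 ≤ ∑ p ∈ T, (p : ℝ) ^ (-r) / 2 := fun T =>
      sum_nonneg fun _ _ => by positivity
    by_cases c1 : q < q0
    · -- small primes
      have h1 : (Ioc q0 M).filter Nat.Prime ⊆ HH P V q := by
        intro p hp
        obtain ⟨h2, h3⟩ := mem_filter.1 hp
        rw [mem_Ioc] at h2
        simp only [HH, mem_filter, mem_pr]
        refine ⟨⟨h3, by omega⟩, by omega, fun hpV => ?_⟩
        have := (hV p hpV).2.1
        omega
      have h2 := sum_le_sum_of_subset_of_nonneg h1 (f := fun p : ℕ => (p : ℝ) ^ (-r) / 2)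
        (fun _ _ _ => by positivity)
      rw [← sum_div] at h2
      have h3 : (q : ℝ) ^ (-r) ≤ 1 / 2 := by
        have := norm_half (c := cc r 0) (by rw [cc_re]; linarith) hq.two_le
        rwa [norm_w' r 0 hq.pos] at this
      linarith
    · push Not at c1
      by_cases c2 : 2 * q ≤ P
      · -- middle range
        have h1 : (PS q \ V) ⊆ HH P V q := by
          intro p hp
          rw [Finset.mem_sdiff, mem_PS] at hp
          simp only [HH, mem_filter, mem_pr]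
          exact ⟨⟨hp.1.1, by omega⟩, hp.1.2.1, hp.2⟩
        have h2 := sum_le_sum_of_subset_of_nonneg h1 (f := fun p : ℕ => (p : ℝ) ^ (-r) / 2)
          (fun _ _ _ => by positivity)
        have h3 : 24 ≤ (PS q \ V).card := by
          by_cases c3 : 2 * q ≤ Q
          · have : PS q \ V = PS q := by
              rw [Finset.sdiff_eq_self_iff_disjoint, Finset.disjoint_left]
              intro p hp hpV
              have a1 := (mem_PS.1 hp).2.2
              have a2 := (hV p hpV).2.1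
              omega
            rw [this]
            exact hq0 q c1
          · have h4 := hx1 q (by omega)
            have h5 := le_card_sdiff V (PS q)
            omega
        have h4 : (PS q \ V).card • ((2 * q : ℝ) ^ (-r) / 2) ≤ ∑ p ∈ PS q \ V, (p : ℝ) ^ (-r) / 2 := by
          apply card_nsmul_le_sum
          intro p hp
          rw [Finset.mem_sdiff, mem_PS] at hp
          have : (2 * q : ℝ) ^ (-r) ≤ (p : ℝ) ^ (-r) :=
            Real.rpow_le_rpow_of_nonpos (by exact_mod_cast hp.1.1.pos) (by exact_mod_cast hp.1.2.2)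
              (by linarith)
          linarith
        rw [nsmul_eq_mul, Real.mul_rpow (by norm_num) hq0'.le] at h4
        have h5 : (24 : ℝ) ≤ (PS q \ V).card := by exact_mod_cast h3
        have h6 : 24 * ((1 / 4 : ℝ) * (q : ℝ) ^ (-r) / 2) ≤
            (PS q \ V).card * ((2 : ℝ) ^ (-r) * (q : ℝ) ^ (-r) / 2) := by
          apply mul_le_mul h5 _ (by positivity) (by positivity)
          have := mul_le_mul_of_nonneg_right h2r hxq.le
          linarith
        linarith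
      · -- `P / 2 < q ≤ P`
        push Not at c2
        have h1 : (4 : ℝ) ^ (-r) * (q : ℝ) ^ (-r) ≤ (2 * P : ℝ) ^ (-r) := by
          rw [← Real.mul_rpow (by norm_num) hq0'.le]
          apply Real.rpow_le_rpow_of_nonpos (by positivity) _ (by linarith)
          have : (P : ℝ) < 2 * q := by exact_mod_cast c2
          linarith
        have h4r : (1 / 16 : ℝ) ≤ (4 : ℝ) ^ (-r) := by
          refine le_trans ?_ (Real.rpow_le_rpow_of_exponent_le (by norm_num)
            (by linarith : (-2 : ℝ) ≤ -r))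
          rw [Real.rpow_neg (by norm_num), Real.rpow_two]; norm_num
        have h2 : (768 : ℝ) ≤ (PS P).card := by
          have := hn 0
          rw [pow_zero, one_mul] at this
          exact_mod_cast this
        have h3 : 768 * ((1 / 16) * (q : ℝ) ^ (-r)) ≤ (PS P).card * (2 * P : ℝ) ^ (-r) := by
          apply mul_le_mul h2 _ (by positivity) (by positivity)
          exact (mul_le_mul_of_nonneg_right h4r hxq.le).trans h1
        have h4 := hnn (HH P V q)
        unfold LL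
        linarith
  · -- sum condition
    rw [hVcard]
    have h1 : 3 * ((P : ℝ) ^ (1 - r) / (r - 1)) ≤ 3 * ((Q : ℝ) ^ (-(3 * r / 2)) / (r - 1)) := by
      gcongr
    have h2 : (Q : ℝ) ^ (-(3 * r / 2)) = (Q : ℝ) ^ (-r) * (Q : ℝ) ^ (-(r / 2)) := by
      rw [← Real.rpow_add hQ0]; congr 1; ring
    have h3 := mul_le_mul_of_nonneg_left hg2 (x_pos r (by omega : 0 < Q)).le
    rw [h2] at h1
    have h4 : h / 8 = (Q : ℝ) ^ (-r) * ((2 : ℝ) ^ (-r) / 16) := by rw [hh, h2Q]; ring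
    have h5 : (Q : ℝ) ^ (-r) * (6 * k * (Q : ℝ) ^ (-r) + 3 * ((Q : ℝ) ^ (-(r / 2)) / (r - 1))) =
        6 * k * ((Q : ℝ) ^ (-r)) ^ 2 + 3 * ((Q : ℝ) ^ (-r) * (Q : ℝ) ^ (-(r / 2)) / (r - 1)) := by
      ring
    rw [h5, ← h4] at h3
    linarith
  · -- `(k+1) h ≤ 1`
    rw [hVcard, hh]
    have h1 : (2 * Q : ℝ) ^ (-r) ≤ (2 * Q : ℝ) ^ (-1 : ℝ) :=
      Real.rpow_le_rpow_of_exponent_le (by linarith) (by linarith)
    rw [Real.rpow_neg_one] at h1
    have h2 : (k : ℝ) + 1 ≤ Q := by exact_mod_cast (by omega : k + 1 ≤ Q)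
    have h3 : ((k : ℝ) + 1) * ((2 * Q : ℝ) ^ (-r) / 2) ≤ Q * ((2 * Q : ℝ)⁻¹ / 2) :=
      mul_le_mul h2 (by linarith) (by positivity) hQ0.le
    have h4 : (Q : ℝ) * ((2 * Q : ℝ)⁻¹ / 2) = 1 / 4 := by field_simp; norm_num
    linarith

end H90.CD
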