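import Pool.Agent.H90.CD.Comp
import Pool.Agent.H90.CD.Frame

/-!
Separation of the classes.
-/

set_option autoImplicit false

open Finset Filter Topology

namespace H90.CD

theorem sg_fact {c : ℂ} (hc : c.re < -1) (n : ℕ) (hn : n ≠ 0) :
    sg c n = ∏ p ∈ n.primeFactors, sg c (p ^ n.factorization p) := by
  induction n using Nat.recOnPosPrimePosCoprime with
  | prime_pow p k hp hk =>
    rw [Nat.primeFactors_prime_pow (by omega) hp, prod_singleton, hp.factorization_pow,
      Finsupp.single_eq_same]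
  | zero => exact absurd rfl hn
  | one => simp [sg_one]
  | coprime a b ha hb hab iha ihb =>
    rw [sg_mul (ne_zero_of hc) hab, hab.primeFactors_mul, prod_union hab.disjoint_primeFactors,
      iha (by omega), ihb (by omega)]
    congr 1
    · apply prod_congr rfl
      intro p hp
      rw [Nat.factorization_eq_of_coprime_left hab (by simpa using hp)]
    · apply prod_congr rfl
      intro p hp
      rw [Nat.factorization_eq_of_coprime_right hab (by simpa using hp)]

theorem sep {c : ℂ} (hc : c.re < -1) {V : Finset ℕ} (hV : ∀ v ∈ V, v.Prime) {h C : ℝ} (hh : 0 < h)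
    (e R : ℕ → ℝ)
    (hl : ∀ p, p.Prime → ∀ k, 1 ≤ k → ∃ l : ℂ, sg c (p ^ k) = Complex.exp l ∧
      |l.im - (if p ∈ V then h else 0)| ≤ e p ∧ -R p ≤ l.re)
    (he : ∀ F : Finset ℕ, (∀ p ∈ F, p.Prime) → ∑ p ∈ F, e p ≤ h / 4)
    (hR : ∀ F : Finset ℕ, (∀ p ∈ F, p.Prime) → ∑ p ∈ F, R p ≤ C)
    (hm : (V.card + 1) * h ≤ 1) :
    ∀ i j, i < j → j ≤ V.card → Disjoint (closure (cls c V i)) (closure (cls c V j)) := by
  have key : ∀ n : ℕ, n ≠ 0 → ∃ l : ℂ, sg c n = Complex.exp l ∧
      |l.im - (dV V n).card * h| ≤ h / 4 ∧ -C ≤ l.re := by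
    intro n hn
    have hpf : ∀ p ∈ n.primeFactors, p.Prime := fun p hp => Nat.prime_of_mem_primeFactors hp
    have h1 : ∀ p : ℕ, ∃ l : ℂ, p ∈ n.primeFactors → (sg c (p ^ n.factorization p) = Complex.exp l ∧
      |l.im - (if p ∈ V then h else 0)| ≤ e p ∧ -R p ≤ l.re) := by
      intro p
      by_cases hp : p ∈ n.primeFactors
      · obtain ⟨l, hl'⟩ := hl p (hpf p hp) (n.factorization p) (by
          have := (Nat.prime_of_mem_primeFactors hp).factorization_pos_of_dvd hn
            (Nat.dvd_of_mem_primeFactors hp)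
          omega)
        exact ⟨l, fun _ => hl'⟩
      · exact ⟨0, fun h => absurd h hp⟩
    choose l hl' using h1
    refine ⟨∑ p ∈ n.primeFactors, l p, ?_, ?_, ?_⟩
    · rw [sg_fact hc n hn, Complex.exp_sum]
      exact prod_congr rfl fun p hp => (hl' p hp).1
    · have h2 : ((dV V n).card : ℝ) * h = ∑ p ∈ n.primeFactors, if p ∈ V then h else 0 := by
        rw [← sum_filter, sum_const, nsmul_eq_mul]
        congr 3
        ext p
        simp only [mem_dV, mem_filter, Nat.mem_primeFactors]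
        constructor
        · rintro ⟨a, b⟩; exact ⟨⟨hV p a, b, hn⟩, a⟩
        · rintro ⟨⟨_, b, _⟩, a⟩; exact ⟨a, b⟩
      rw [h2, Complex.im_sum, ← sum_sub_distrib]
      refine (abs_sum_le_sum_abs _ _).trans ?_
      exact (sum_le_sum fun p hp => (hl' p hp).2.1).trans (he _ hpf)
    · rw [Complex.re_sum]
      have h3 : ∑ p ∈ n.primeFactors, -R p ≤ ∑ p ∈ n.primeFactors, (l p).re :=
        sum_le_sum fun p hp => (hl' p hp).2.2
      rw [sum_neg_distrib] at h3
      linarith [hR _ hpf]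
  intro i j hij hj
  -- the separating functional
  set α : ℝ := (j - 1 / 2) * h with hα
  set f : ℂ → ℝ := fun z => (z * Complex.exp (-(α * Complex.I))).im with hf
  have hfc : Continuous f := by rw [hf]; fun_prop
  have hfe : ∀ l : ℂ, f (Complex.exp l) = Real.exp l.re * Real.sin (l.im - α) := by
    intro l
    rw [hf]
    simp only
    rw [← Complex.exp_add, Complex.exp_im]
    simp
    ring_nf
  have hjh : (j : ℝ) * h ≤ V.card * h :=
    mul_le_mul_of_nonneg_right (by exact_mod_cast hj) hh.le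
  have hh1 : h ≤ 1 := by
    have : 0 ≤ (V.card : ℝ) * h := by positivity
    linarith
  have hpi := Real.pi_gt_three
  have hs0 : 0 < Real.sin (h / 4) := Real.sin_pos_of_pos_of_lt_pi (by linarith) (by linarith)
  set κ : ℝ := Real.exp (-C) * Real.sin (h / 4) with hκ
  have hκ0 : 0 < κ := mul_pos (Real.exp_pos _) hs0
  have hsin : ∀ x, h / 4 ≤ x → x ≤ 1 → Real.sin (h / 4) ≤ Real.sin x := fun x h1 h2 =>
    Real.sin_le_sin_of_le_of_le_pi_div_two (by linarith) (by linarith) h1
  have hup : closure (cls c V j) ⊆ {z | κ ≤ f z} := by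
    refine closure_minimal ?_ (isClosed_le continuous_const hfc)
    rintro _ ⟨n, ⟨hn, hnj⟩, rfl⟩
    obtain ⟨l, h1, h2, h3⟩ := key n hn
    rw [hnj] at h2
    have h4 := abs_le.1 h2
    show κ ≤ f (sg c n)
    rw [h1, hfe]
    have h5 := hsin (l.im - α) (by rw [hα]; linarith [h4.1]) (by rw [hα]; linarith [h4.2])
    exact mul_le_mul (Real.exp_le_exp.2 h3) h5 hs0.le (Real.exp_pos _).le
  have hlow : closure (cls c V i) ⊆ {z | f z ≤ -κ} := by
    refine closure_minimal ?_ (isClosed_le hfc continuous_const)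
    rintro _ ⟨n, ⟨hn, hnj⟩, rfl⟩
    obtain ⟨l, h1, h2, h3⟩ := key n hn
    rw [hnj] at h2
    have h4 := abs_le.1 h2
    show f (sg c n) ≤ -κ
    rw [h1, hfe]
    have hih : (i : ℝ) * h + h ≤ j * h := by
      have : ((i : ℝ) + 1) * h ≤ j * h := mul_le_mul_of_nonneg_right (by exact_mod_cast hij) hh.le
      linarith
    have hi0 : 0 ≤ (i : ℝ) * h := by positivity
    have h5 := hsin (α - l.im) (by rw [hα]; linarith [h4.2]) (by rw [hα]; linarith [h4.1])
    have h6 : Real.sin (l.im - α) = -Real.sin (α - l.im) := by rw [← Real.sin_neg]; ring_nf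
    rw [h6, mul_neg, neg_le_neg_iff]
    exact mul_le_mul (Real.exp_le_exp.2 h3) h5 hs0.le (Real.exp_pos _).le
  rw [Set.disjoint_left]
  intro z hz1 hz2
  have a1 : f z ≤ -κ := hlow hz1
  have a2 : κ ≤ f z := hup hz2
  linarith

end H90.CD
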