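import Pool.Agent.H90.CD.Sep

/-!
All conditions together.
-/

set_option autoImplicit false

open Finset Filter Topology

namespace H90.CD

theorem tail_step {r : ℝ} (hr : 1 < r) {n : ℕ} (hn : 2 ≤ n) :
    (r - 1) * (n : ℝ) ^ (-r) ≤ ((n - 1 : ℕ) : ℝ) ^ (1 - r) - (n : ℝ) ^ (1 - r) := by
  have hn0 : (0 : ℝ) < n := by exact_mod_cast (by omega : 0 < n)
  have hn2 : (2 : ℝ) ≤ n := by exact_mod_cast hn
  have h1 : ((n - 1 : ℕ) : ℝ) = n * (1 - 1 / n) := by
    rw [Nat.cast_sub (by omega)]; field_simp; simp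
  have h2 : 0 < 1 - 1 / (n : ℝ) := by
    rw [sub_pos, div_lt_one hn0]; linarith
  have h3 : 1 + (r - 1) * (1 / n) ≤ (1 - 1 / (n : ℝ)) ^ (1 - r) := by
    rw [Real.rpow_def_of_pos h2]
    have h4 := Real.log_le_sub_one_of_pos h2
    have h5 : (r - 1) * (1 / n) ≤ Real.log (1 - 1 / n) * (1 - r) := by nlinarith
    have h6 := Real.add_one_le_exp (Real.log (1 - 1 / n) * (1 - r))
    linarith
  rw [h1, Real.mul_rpow hn0.le h2.le]
  have h7 : (n : ℝ) ^ (-r) = (n : ℝ) ^ (1 - r) * (1 / n) := by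
    rw [show -r = (1 - r) - 1 by ring, Real.rpow_sub hn0, Real.rpow_one]; ring
  rw [h7]
  have h8 : 0 < (n : ℝ) ^ (1 - r) := Real.rpow_pos_of_pos hn0 _
  nlinarith [mul_le_mul_of_nonneg_left h3 h8.le]

theorem tail_sum {r : ℝ} (hr : 1 < r) {P : ℕ} (hP : 1 ≤ P) (F : Finset ℕ) (hF : ∀ n ∈ F, P < n) :
    ∑ n ∈ F, (n : ℝ) ^ (-r) ≤ (P : ℝ) ^ (1 - r) / (r - 1) := by
  have h1 : ∀ b, P ≤ b → ∑ n ∈ Ioc P b, (r - 1) * (n : ℝ) ^ (-r) ≤
      (P : ℝ) ^ (1 - r) - (b : ℝ) ^ (1 - r) := by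
    intro b hb
    induction b, hb using Nat.le_induction with
    | base => simp
    | succ b hb ih =>
      rw [sum_Ioc_succ_top (by omega)]
      have := tail_step hr (n := b + 1) (by omega)
      rw [Nat.add_sub_cancel] at this
      linarith
  rw [le_div_iff₀ (by linarith), mul_comm, mul_sum]
  have h2 : F ⊆ Ioc P (max P (F.sup id)) := by
    intro n hn
    rw [mem_Ioc]
    exact ⟨hF n hn, le_max_of_le_right (le_sup (f := id) hn)⟩
  refine (sum_le_sum_of_subset_of_nonneg h2 fun n _ _ =>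
    mul_nonneg (by linarith) (by positivity)).trans ((h1 _ (le_max_left _ _)).trans ?_)
  have : 0 ≤ ((max P (F.sup id) : ℕ) : ℝ) ^ (1 - r) := by positivity
  linarith

theorem find_j {P q : ℕ} (hP : 1 ≤ P) (hq : P < q) : ∃ j, 2 ^ j * P < q ∧ q ≤ 2 ^ (j + 1) * P := by
  have hex : ∃ k, q ≤ 2 ^ k * P := ⟨q, (Nat.lt_two_pow_self.le).trans
    (Nat.le_mul_of_pos_right _ (by omega))⟩
  have hk := Nat.find_spec hex
  rcases h : Nat.find hex with _ | j
  · rw [h] at hk; simp at hk; omega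
  · have := Nat.find_min hex (m := j) (by omega)
    rw [h] at hk
    exact ⟨j, by omega, hk⟩

theorem setup {r τ δ h : ℝ} {P Q : ℕ} {V : Finset ℕ} (hr : 1 < r) (hr2 : r ≤ 2) (hQ : 4 ≤ Q)
    (hP : 16 ≤ P) (hQP : 2 * Q ≤ P) (hV : ∀ v ∈ V, v.Prime ∧ Q < v ∧ v ≤ 2 * Q)
    (hn : ∀ j : ℕ, 768 ≤ (PS (2 ^ j * P)).card)
    (hS : ∀ j : ℕ, ‖SS (2 ^ j * P) τ‖ ≤ (PS (2 ^ j * P)).card / 2)
    (hw : ∀ p, p.Prime → p ≤ P → p ∉ V → ‖ee (Real.log p * τ) - 1‖ ≤ δ)
    (hv : ∀ v ∈ V, |(vv (cc r τ) v).im - h| ≤ 2 * δ)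
    (hδ0 : 0 < δ) (hδ1 : P * δ ≤ LL r P / 4) (hδ2 : δ ≤ 1 / 12)
    (hkak : ∀ q, q.Prime → q ≤ P →
      3 * (q : ℝ) ^ (-r) ≤ ∑ p ∈ HH P V q, (p : ℝ) ^ (-r) / 2 + LL r P / 2)
    (hVL : 3 * ((Q : ℝ) ^ (-r)) ^ 2 ≤ LL r P / 4) (hh : 0 < h)
    (hsum : 5 * δ * P + 6 * V.card * ((Q : ℝ) ^ (-r)) ^ 2 + 3 * ((P : ℝ) ^ (1 - r) / (r - 1)) ≤ h / 4)
    (hm : (V.card + 1) * h ≤ 1) :
    ENat.card (ConnectedComponents (closure (sg (cc r τ) '' {n | 1 ≤ n}))) = (V.card + 1 : ℕ) := by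
  have hc : (cc r τ).re < -1 := by rw [cc_re]; linarith
  have hVp : ∀ v ∈ V, v.Prime := fun v hv => (hV v hv).1
  have hVP : ∀ v ∈ V, v ≤ P := fun v hv => (hV v hv).2.2.trans hQP
  have hPr : (16 : ℝ) ≤ P := by exact_mod_cast hP
  set c := cc r τ with hcdef
  set x : ℕ → ℝ := fun q => (q : ℝ) ^ (-r) with hx
  have hxp : ∀ q : ℕ, q.Prime → 0 < x q ∧ x q ≤ 1 / 2 ∧ ‖(q : ℂ) ^ c‖ = x q := by
    intro q hq
    refine ⟨x_pos r hq.pos, ?_, norm_w' r τ hq.pos⟩
    have := norm_half hc hq.two_le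
    rwa [hcdef, norm_w' r τ hq.pos] at this
  have hwn : ∀ q : ℕ, q.Prime → ‖(q : ℂ) ^ c‖ ≤ 1 / 2 := fun q hq => norm_half hc hq.two_le
  have hxQ : ∀ v ∈ V, x v ≤ (Q : ℝ) ^ (-r) := fun v hv => x_anti hr (by omega) (hV v hv).2.1.le
  have hQ4 : (Q : ℝ) ^ (-r) ≤ 1 / 4 := by
    have hQr : (4 : ℝ) ≤ Q := by exact_mod_cast hQ
    refine (Real.rpow_le_rpow_of_exponent_le (by linarith) (by linarith : -r ≤ -1)).trans ?_
    rw [Real.rpow_neg_one, one_div]
    exact inv_anti₀ (by norm_num) hQr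
  have hQ0 : 0 < (Q : ℝ) ^ (-r) := x_pos r (by omega)
  -- horizontal primes
  have hnear : ∀ p, p.Prime → p ≤ P → p ∉ V → ‖(p : ℂ) ^ c - (x p : ℝ)‖ ≤ x p * δ := by
    intro p hp h1 h2
    rw [hcdef, w_eq r τ hp.pos, ← mul_sub_one, norm_mul, Complex.norm_real,
      Real.norm_of_nonneg (hxp p hp).1.le]
    exact mul_le_mul_of_nonneg_left (hw p hp h1 h2) (hxp p hp).1.le
  have hhor : ∀ p, p.Prime → p ≤ P → p ∉ V → x p / 2 ≤ (vv c p).re ∧ |(vv c p).im| ≤ δ ∧
      (vv c p).re ≤ 3 / 2 * x p := by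
    intro p hp h1 h2
    obtain ⟨a1, a2, a3⟩ := hxp p hp
    have h3 := vv_near (hwn p hp) a1.le a2 (hnear p hp h1 h2) (by nlinarith)
    refine ⟨h3.1, h3.2.trans (by nlinarith), ?_⟩
    refine (Complex.re_le_norm _).trans ((log_bd (hwn p hp)).trans ?_)
    rw [a3]
  set l : ℝ := LL r P / 2 with hl
  have hHH : ∀ y p, p ∈ HH P V y → p.Prime ∧ p ≤ P ∧ p ∉ V := by
    intro y p hp
    simp only [HH, mem_filter, mem_pr] at hp
    exact ⟨hp.1.1, hp.1.2, hp.2.2⟩
  have hresum : ∀ y, ∑ p ∈ HH P V y, (p : ℝ) ^ (-r) / 2 ≤ ∑ p ∈ HH P V y, (vv c p).re := by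
    intro y
    apply sum_le_sum
    intro p hp
    obtain ⟨h1, h2, h3⟩ := hHH y p hp
    exact (hhor p h1 h2 h3).1
  have himsum : ∀ y, ∑ p ∈ HH P V y, |(vv c p).im| ≤ l / 2 := by
    intro y
    have h1 : ∑ p ∈ HH P V y, |(vv c p).im| ≤ (HH P V y).card • δ := by
      apply sum_le_card_nsmul
      intro p hp
      obtain ⟨h1, h2, h3⟩ := hHH y p hp
      exact (hhor p h1 h2 h3).2.1
    have h2 : (HH P V y).card ≤ P := by
      refine (card_le_card (filter_subset _ _)).trans ?_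
      unfold pr
      refine (card_le_card (filter_subset _ _)).trans ?_
      simp
    rw [nsmul_eq_mul] at h1
    have h3 : ((HH P V y).card : ℝ) * δ ≤ P * δ :=
      mul_le_mul_of_nonneg_right (by exact_mod_cast h2) hδ0.le
    rw [hl]
    linarith
  have hball : ∀ z : ℂ, ‖z‖ ≤ 2 * l → Ap c (fun p => P < p) z := by
    intro z hz
    have := ball' (τ := τ) hr hr2 hP hn hS (j := 0) (z := z) (by
      rw [pow_zero, one_mul]; rw [hl] at hz; linarith)
    simpa using this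
  have lowAp : ∀ y ≤ P, ∀ z : ℂ, |z.re| ≤ ∑ p ∈ HH P V y, (p : ℝ) ^ (-r) / 2 + l → |z.im| ≤ l / 2 →
      Ap c (fun p => y < p ∧ p ∉ V) z := by
    intro y hy z h1 h2
    refine kakeya hVP hball ?_ hy z (h1.trans (by linarith [hresum y])) (by linarith [himsum y])
    intro q hq h3 h4
    obtain ⟨a1, a2, a3⟩ := hhor q hq h3 h4
    have a4 := (hxp q hq).1
    have a5 := hkak q hq h3
    refine ⟨by linarith, ?_⟩
    have := hresum q
    have a6 : x q = (q : ℝ) ^ (-r) := rfl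
    rw [← a6] at a5
    linarith
  have hδl : 6 * δ ≤ l / 2 := by
    have : 6 * δ ≤ P * δ := mul_le_mul_of_nonneg_right (by linarith) hδ0.le
    rw [hl]
    linarith
  have hl0 : 0 < l := by linarith
  have hsg : ∀ q a, q.Prime → sg c (q ^ a) = GG ((q : ℂ) ^ c) a := fun q a hq => by
    rw [sg_pow c hq, GG]
  have hHH0 : ∀ y, 0 ≤ ∑ p ∈ HH P V y, (p : ℝ) ^ (-r) / 2 := fun y =>
    sum_nonneg fun _ _ => by positivity
  -- steps
  have hst : ∀ q, q.Prime → ∀ a, (q ∈ V → 1 ≤ a) →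
      ∃ w, sg c (q ^ (a + 1)) = sg c (q ^ a) * Complex.exp w ∧ Ap c (fun p => q < p ∧ p ∉ V) w := by
    intro q hq a ha
    obtain ⟨a1, a2, a3⟩ := hxp q hq
    refine ⟨Complex.log (1 + ze ((q : ℂ) ^ c) a), ?_, ?_⟩
    · rw [hsg q _ hq, hsg q _ hq]
      exact GG_ratio (hwn q hq) a
    have b1 := ze_le' (hwn q hq) a
    have b2 := log_bd (b1.trans (hwn q hq))
    rw [a3] at b1
    have b3 : ‖Complex.log (1 + ze ((q : ℂ) ^ c) a)‖ ≤ 3 / 2 * x q :=
      b2.trans (mul_le_mul_of_nonneg_left b1 (by norm_num))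
    by_cases hqP : q ≤ P
    · by_cases hqV : q ∈ V
      · have b4 := ze_le (hwn q hq) a (ha hqV)
        rw [a3] at b4
        have b5 : x q ^ 2 ≤ ((Q : ℝ) ^ (-r)) ^ 2 := pow_le_pow_left₀ a1.le (hxQ q hqV) 2
        have b6 : ‖Complex.log (1 + ze ((q : ℂ) ^ c) a)‖ ≤ l / 2 := by
          rw [hl]; linarith
        refine lowAp q hqP _ ?_ ((Complex.abs_im_le_norm _).trans b6)
        refine (Complex.abs_re_le_norm _).trans ?_
        linarith [hHH0 q]
      · refine lowAp q hqP _ ?_ ?_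
        · refine (Complex.abs_re_le_norm _).trans (b3.trans ?_)
          have := hkak q hq hqP
          have a6 : x q = (q : ℝ) ^ (-r) := rfl
          rw [← a6] at this
          linarith
        · refine (ze_im (hwn q hq) a1.le a2 (hnear q hq hqP hqV) a).trans ?_
          nlinarith
    · push Not at hqP
      obtain ⟨j, hj1, hj2⟩ := find_j (by omega : 1 ≤ P) hqP
      have h1 := LL_step hr2 hP hn j
      have h2 : x q ≤ ((2 ^ j * P : ℕ) : ℝ) ^ (-r) := x_anti hr (by positivity) hj1.le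
      have h3 := ball' (τ := τ) hr hr2 hP hn hS (j := j + 1) (b3.trans (le_trans (by linarith) h1))
      refine Ap_mono ?_ h3
      intro p _ hp
      refine ⟨by omega, fun hpV => ?_⟩
      have := hVP p hpV
      omega
  have hsw : ∀ a ∈ V, ∀ b ∈ V, Ap c (fun p => p ∉ V) (vv c a - vv c b) := by
    intro a ha b hb
    have h2P : 2 ≤ P := by omega
    refine Ap_mono (fun p _ hp => hp.2) (lowAp 2 h2P _ ?_ ?_)
    · refine (Complex.abs_re_le_norm _).trans ((norm_sub_le _ _).trans ?_)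
      have k := hkak 2 Nat.prime_two h2P
      have h1 := log_bd (hwn a (hVp a ha))
      have h2 := log_bd (hwn b (hVp b hb))
      rw [(hxp a (hVp a ha)).2.2] at h1
      rw [(hxp b (hVp b hb)).2.2] at h2
      have h3 : (Q : ℝ) ^ (-r) ≤ ((2 : ℕ) : ℝ) ^ (-r) := x_anti hr (by norm_num) (by omega)
      have h4 : ‖vv c a‖ + ‖vv c b‖ ≤ 3 * (Q : ℝ) ^ (-r) := by
        have := hxQ a ha
        have := hxQ b hb
        unfold vv
        linarith
      exact h4.trans ((mul_le_mul_of_nonneg_left h3 (by norm_num : (0 : ℝ) ≤ 3)).trans k)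
    · rw [Complex.sub_im]
      have h1 := abs_le.1 (hv a ha)
      have h2 := abs_le.1 (hv b hb)
      rw [abs_le]
      constructor <;> linarith [h1.1, h1.2, h2.1, h2.2]
  -- separation
  have hcardP : V.card ≤ P := by
    have : V ⊆ Icc 1 P := fun v hv => mem_Icc.2 ⟨(hVp v hv).pos, hVP v hv⟩
    simpa using card_le_card this
  refine card_comp hc hVp hst hsw (sep hc hVp hh (C := 2 * P + 3 * ((P : ℝ) ^ (1 - r) / (r - 1)))
    (fun p => (if p ≤ P then 3 * δ else 3 * x p) +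
      (if p ∈ V then 6 * ((Q : ℝ) ^ (-r)) ^ 2 + 2 * δ else 0))
    (fun p => if p ≤ P then 2 else 3 * x p) ?_ ?_ ?_ hm)
  · intro p hp k hk
    obtain ⟨a1, a2, a3⟩ := hxp p hp
    rw [hsg p k hp]
    have hre : ∀ l : ℂ, GG ((p : ℂ) ^ c) k = Complex.exp l → -2 ≤ l.re := by
      intro l hl
      have h1 := GG_ge (hwn p hp) k
      rw [hl, Complex.norm_exp] at h1
      by_contra h2
      push Not at h2
      have h3 : Real.exp l.re ≤ Real.exp (-2) := Real.exp_le_exp.2 h2.le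
      have h4 : Real.exp (-2) < 1 / 2 := by
        rw [Real.exp_neg, inv_lt_comm₀ (Real.exp_pos _) (by norm_num)]
        have := Real.add_one_le_exp (2 : ℝ)
        norm_num at this ⊢
        linarith
      linarith
    by_cases hpP : p ≤ P
    · by_cases hpV : p ∈ V
      · obtain ⟨l', h1, h2⟩ := GG_log_V (w := (p : ℂ) ^ c) (by
          rw [a3]; exact (hxQ p hpV).trans hQ4) k hk
        refine ⟨l', h1, ?_, ?_⟩
        · simp only [hpV, hpP, if_true]
          have h3 := Complex.abs_im_le_norm (l' - Complex.log (1 + (p : ℂ) ^ c))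
          rw [Complex.sub_im] at h3
          have h4 := hv p hpV
          unfold vv at h4
          have h5 : |l'.im - h| ≤ |l'.im - (Complex.log (1 + (p : ℂ) ^ c)).im| +
              |(Complex.log (1 + (p : ℂ) ^ c)).im - h| := abs_sub_le _ _ _
          rw [a3] at h2
          have b5 : x p ^ 2 ≤ ((Q : ℝ) ^ (-r)) ^ 2 := pow_le_pow_left₀ a1.le (hxQ p hpV) 2
          linarith
        · simp only [hpP, if_true]
          exact hre l' h1
      · obtain ⟨l', h1, h2⟩ := GG_log_near (hwn p hp) a1.le a2 (hnear p hp hpP hpV)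
          (by nlinarith) k
        refine ⟨l', h1, ?_, ?_⟩
        · simp only [hpV, hpP, if_true, if_false, sub_zero, add_zero]
          nlinarith
        · simp only [hpP, if_true]
          exact hre l' h1
    · have hpV : p ∉ V := fun h => hpP (hVP p h)
      have hp4 : x p ≤ 1 / 4 := (x_anti hr (by omega) (by omega : Q ≤ p)).trans hQ4
      obtain ⟨l', h1, h2⟩ := GG_log_small (w := (p : ℂ) ^ c) (by rw [a3]; exact hp4) k
      rw [a3] at h2
      refine ⟨l', h1, ?_, ?_⟩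
      · simp only [hpV, hpP, if_false, sub_zero, add_zero]
        exact (Complex.abs_im_le_norm _).trans h2
      · simp only [hpP, if_false]
        have := (abs_le.1 ((Complex.abs_re_le_norm l').trans h2)).1
        linarith
  · intro F hF
    rw [sum_add_distrib]
    have h1 : ∑ p ∈ F, (if p ≤ P then 3 * δ else 3 * x p) ≤
        3 * δ * P + 3 * ((P : ℝ) ^ (1 - r) / (r - 1)) := by
      rw [sum_ite]
      apply add_le_add
      · rw [sum_const, nsmul_eq_mul]
        have : (F.filter fun p => p ≤ P).card ≤ P := by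
          have : F.filter (fun p => p ≤ P) ⊆ Icc 1 P := fun v hv =>
            mem_Icc.2 ⟨(hF v (mem_filter.1 hv).1).pos, (mem_filter.1 hv).2⟩
          simpa using card_le_card this
        have h2 : ((F.filter fun p => p ≤ P).card : ℝ) ≤ P := by exact_mod_cast this
        nlinarith
      · rw [← mul_sum]
        refine mul_le_mul_of_nonneg_left ?_ (by norm_num)
        exact tail_sum hr (by omega) _ fun n hn => not_le.1 (mem_filter.1 hn).2
    have h2 : ∑ p ∈ F, (if p ∈ V then 6 * ((Q : ℝ) ^ (-r)) ^ 2 + 2 * δ else 0) ≤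
        V.card * (6 * ((Q : ℝ) ^ (-r)) ^ 2 + 2 * δ) := by
      rw [← sum_filter, sum_const, nsmul_eq_mul]
      refine mul_le_mul_of_nonneg_right ?_ (by positivity)
      have : F.filter (fun p => p ∈ V) ⊆ V := fun v hv => (mem_filter.1 hv).2
      exact_mod_cast card_le_card this
    have h3 : (V.card : ℝ) * (2 * δ) ≤ P * (2 * δ) :=
      mul_le_mul_of_nonneg_right (by exact_mod_cast hcardP) (by linarith)
    have h4 : (V.card : ℝ) * (6 * ((Q : ℝ) ^ (-r)) ^ 2 + 2 * δ) =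
      6 * V.card * ((Q : ℝ) ^ (-r)) ^ 2 + V.card * (2 * δ) := by ring
    linarith
  · intro F hF
    rw [sum_ite]
    apply add_le_add
    · rw [sum_const, nsmul_eq_mul]
      have : (F.filter fun p => p ≤ P).card ≤ P := by
        have : F.filter (fun p => p ≤ P) ⊆ Icc 1 P := fun v hv =>
          mem_Icc.2 ⟨(hF v (mem_filter.1 hv).1).pos, (mem_filter.1 hv).2⟩
        simpa using card_le_card this
      have h2 : ((F.filter fun p => p ≤ P).card : ℝ) ≤ P := by exact_mod_cast this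
      linarith
    · rw [← mul_sum]
      refine mul_le_mul_of_nonneg_left ?_ (by norm_num)
      exact tail_sum hr (by omega) _ fun n hn => not_le.1 (mem_filter.1 hn).2

end H90.CD
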