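import Mathlib

/-!
Zonotopes in the plane: every point of the inscribed disk is within `max ‖v i‖` of a signed
subset sum.
-/

set_option autoImplicit false

open Finset Topology

namespace H90.CD

variable {ι : Type*} [Fintype ι]

/-- the map `ε ↦ ∑ ε i • v i`. -/
noncomputable def zT (v : ι → ℂ) (e : ι → ℝ) : ℂ := ∑ i, (e i : ℂ) * v i

theorem zT_cont (v : ι → ℂ) : Continuous (zT v) := by unfold zT; fun_prop

theorem zT_add (v : ι → ℂ) (e f : ι → ℝ) : zT v (e + f) = zT v e + zT v f := by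
  simp only [zT, Pi.add_apply, Complex.ofReal_add, add_mul, sum_add_distrib]

theorem zT_smul (v : ι → ℂ) (a : ℝ) (e : ι → ℝ) : zT v (a • e) = a * zT v e := by
  simp only [zT, Pi.smul_apply, smul_eq_mul, Complex.ofReal_mul, mul_sum, mul_assoc]

/-- the cube `[-1,1]^ι`. -/
def cube (ι : Type*) : Set (ι → ℝ) := Set.pi Set.univ fun _ => Set.Icc (-1 : ℝ) 1

omit [Fintype ι] in
theorem cube_compact : IsCompact (cube ι) := isCompact_univ_pi fun _ => isCompact_Icc

omit [Fintype ι] in
theorem cube_convex : Convex ℝ (cube ι) := convex_pi fun _ _ => convex_Icc _ _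

omit [Fintype ι] in
theorem mem_cube {e : ι → ℝ} : e ∈ cube ι ↔ ∀ i, |e i| ≤ 1 := by
  simp only [cube, Set.mem_pi, Set.mem_univ, true_imp_iff, Set.mem_Icc, abs_le]

theorem zono_ball (v : ι → ℂ) (L : ℝ)
    (hL : ∀ u : ℂ, L * ‖u‖ ≤ ∑ i, |(v i * (starRingEnd ℂ) u).re|) (z : ℂ) (hz : ‖z‖ ≤ L) :
    ∃ e ∈ cube ι, zT v e = z := by
  by_contra hcon
  push Not at hcon
  have hz' : z ∉ zT v '' cube ι := by
    rintro ⟨e, he, h⟩; exact hcon e he h
  have hcl : IsClosed (zT v '' cube ι) := (cube_compact.image (zT_cont v)).isClosed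
  have hcv : Convex ℝ (zT v '' cube ι) := by
    rintro _ ⟨e, he, rfl⟩ _ ⟨f, hf, rfl⟩ a b ha hb hab
    refine ⟨a • e + b • f, cube_convex he hf ha hb hab, ?_⟩
    rw [zT_add, zT_smul, zT_smul]
    simp
  obtain ⟨f, c, h1, h2⟩ := geometric_hahn_banach_closed_point hcv hcl hz'
  set u : ℂ := ⟨f 1, f Complex.I⟩ with hu
  have hf : ∀ x : ℂ, f x = (x * (starRingEnd ℂ) u).re := by
    intro x
    have : x = x.re • (1 : ℂ) + x.im • Complex.I := by
      simp [Complex.re_add_im]
    conv_lhs => rw [this]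
    rw [map_add, map_smul, map_smul]
    simp [hu, Complex.mul_re]
  set e : ι → ℝ := fun i => if 0 ≤ (v i * (starRingEnd ℂ) u).re then 1 else -1 with he
  have he1 : e ∈ cube ι := by
    rw [mem_cube]; intro i; simp only [he]; split_ifs <;> simp
  have h3 := h1 _ ⟨e, he1, rfl⟩
  have h4 : f (zT v e) = ∑ i, |(v i * (starRingEnd ℂ) u).re| := by
    unfold zT
    rw [map_sum]
    apply sum_congr rfl
    intro i _
    rw [hf, mul_assoc, Complex.re_ofReal_mul]
    simp only [he]
    split_ifs with h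
    · rw [one_mul, abs_of_nonneg h]
    · rw [abs_of_neg (not_le.1 h)]; ring
  have h5 : f z ≤ L * ‖u‖ := by
    rw [hf]
    refine (Complex.re_le_norm _).trans ?_
    rw [norm_mul, RCLike.norm_conj]
    exact mul_le_mul_of_nonneg_right hz (norm_nonneg _)
  have := hL u
  linarith

theorem zono_ext (v : ι → ℂ) (z : ℂ) (h : ∃ e ∈ cube ι, zT v e = z) :
    ∃ e ∈ cube ι, zT v e = z ∧ (univ.filter fun i => |e i| < 1).card ≤ 2 := by
  classical
  set K : Set (ι → ℝ) := {e | e ∈ cube ι ∧ zT v e = z} with hK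
  have hKc : IsCompact K :=
    cube_compact.inter_right (isClosed_singleton.preimage (zT_cont v))
  obtain ⟨e0, he0, he0'⟩ := h
  obtain ⟨e, he⟩ := hKc.extremePoints_nonempty ⟨e0, he0, he0'⟩
  refine ⟨e, he.1.1, he.1.2, ?_⟩
  by_contra hcard
  push Not at hcard
  set F := univ.filter fun i => |e i| < 1 with hF
  have hdep : ¬ LinearIndependent ℝ (fun i : F => v i) := by
    intro hli
    have := hli.fintype_card_le_finrank
    rw [Complex.finrank_real_complex, Fintype.card_coe] at this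
    omega
  rw [Fintype.not_linearIndependent_iff] at hdep
  obtain ⟨g, hg, i0, hi0⟩ := hdep
  set G : ι → ℝ := fun i => if h : i ∈ F then g ⟨i, h⟩ else 0 with hG
  have hG0 : zT v G = 0 := by
    have h1 : zT v G = ∑ i ∈ F, (G i : ℂ) * v i := by
      unfold zT
      symm
      apply sum_subset (subset_univ _)
      intro i _ hi
      simp [hG, hi]
    rw [h1, ← sum_coe_sort]
    rw [← hg]
    apply sum_congr rfl
    intro i _
    simp [hG]
  -- a small step
  have hstep : ∃ t : ℝ, 0 < t ∧ ∀ i ∈ F, |e i| + t * |G i| ≤ 1 := by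
    by_cases hne : F.Nonempty
    swap
    · exact ⟨1, one_pos, fun i hi => absurd ⟨i, hi⟩ hne⟩
    obtain ⟨i1, hi1, hmin⟩ := exists_min_image F (fun i => 1 - |e i|) hne
    have hpos : 0 < 1 - |e i1| := by
      have := (mem_filter.1 hi1).2
      linarith
    have hS : 0 ≤ ∑ i, |G i| := sum_nonneg fun _ _ => abs_nonneg _
    refine ⟨(1 - |e i1|) / (1 + ∑ i, |G i|), by positivity, fun i hi => ?_⟩
    have h1 : |G i| ≤ 1 + ∑ i, |G i| := by
      have := single_le_sum (f := fun i => |G i|) (fun i _ => abs_nonneg _) (mem_univ i)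
      linarith
    have h2 : (1 - |e i1|) / (1 + ∑ i, |G i|) * |G i| ≤ 1 - |e i1| := by
      rw [div_mul_eq_mul_div, div_le_iff₀ (by linarith)]
      exact mul_le_mul_of_nonneg_left h1 hpos.le
    have := hmin i hi
    linarith
  obtain ⟨t, ht, hst⟩ := hstep
  have hmem : ∀ s : ℝ, |s| = t → e + s • G ∈ K := by
    intro s hs
    constructor
    · rw [mem_cube]
      intro i
      simp only [Pi.add_apply, Pi.smul_apply, smul_eq_mul]
      by_cases hi : i ∈ F
      · refine (abs_add_le _ _).trans ?_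
        rw [abs_mul, hs]
        exact hst i hi
      · have : G i = 0 := by simp [hG, hi]
        rw [this, mul_zero, add_zero]
        exact mem_cube.1 he.1.1 i
    · show zT v (e + s • G) = z
      rw [zT_add, zT_smul, hG0, mul_zero, add_zero]
      exact he.1.2
  have hseg : e ∈ openSegment ℝ (e + t • G) (e + (-t) • G) := by
    refine ⟨1 / 2, 1 / 2, by norm_num, by norm_num, by norm_num, ?_⟩
    ext i
    simp only [Pi.add_apply, Pi.smul_apply, smul_eq_mul]
    ring
  have := he.2 (hmem t (abs_of_pos ht)) (hmem (-t) (by rw [abs_neg, abs_of_pos ht])) hseg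
  have h2 := congrFun this i0
  simp only [Pi.add_apply, Pi.smul_apply, smul_eq_mul] at h2
  have h3 : t * G i0 = 0 := by linarith
  rcases mul_eq_zero.1 h3 with h | h
  · linarith
  · apply hi0
    simpa [hG] using h

theorem zono_round (v : ι → ℂ) (B : ℝ) (hB : ∀ i, ‖v i‖ ≤ B) (z : ℂ)
    (h : ∃ e ∈ cube ι, zT v e = z) :
    ∃ m : ι → ℤ, (∀ i, |m i| ≤ 1) ∧ ‖z - ∑ i, (m i : ℂ) * v i‖ ≤ B ∨ IsEmpty ι ∧ z = 0 := by
  classical
  obtain ⟨e, he, hez, hc⟩ := zono_ext v z h
  by_cases hι : Nonempty ι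
  swap
  · refine ⟨fun _ => 0, Or.inr ⟨not_nonempty_iff.1 hι, ?_⟩⟩
    have := not_nonempty_iff.1 hι
    rw [← hez]; simp [zT]
  obtain ⟨i0⟩ := hι
  have hB0 : 0 ≤ B := (norm_nonneg _).trans (hB i0)
  refine ⟨fun i => round (e i), Or.inl ⟨fun i => ?_, ?_⟩⟩
  · have h1 := mem_cube.1 he i
    have h2 := abs_sub_round (e i)
    have h3 : |(round (e i) : ℝ)| < 2 := by
      have h4 := abs_sub_abs_le_abs_sub (round (e i) : ℝ) (e i)
      rw [abs_sub_comm] at h4
      linarith
    have h5 : |round (e i)| < 2 := by exact_mod_cast h3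
    show |round (e i)| ≤ 1
    omega
  · rw [← hez, zT, ← sum_sub_distrib]
    have h1 : ∀ i ∈ (univ : Finset ι), ‖(e i : ℂ) * v i - ((round (e i) : ℤ) : ℂ) * v i‖ ≤
        if |e i| < 1 then B / 2 else 0 := by
      intro i _
      rw [← sub_mul, norm_mul, show (e i : ℂ) - ((round (e i) : ℤ) : ℂ) =
        ((e i - round (e i) : ℝ) : ℂ) by push_cast; ring, Complex.norm_real, Real.norm_eq_abs]
      split_ifs with hi
      · have := mul_le_mul (abs_sub_round (e i)) (hB i) (norm_nonneg _) (by norm_num)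
        linarith
      · have h2 : |e i| = 1 := le_antisymm (mem_cube.1 he i) (not_lt.1 hi)
        rcases eq_or_eq_neg_of_abs_eq h2 with h3 | h3
        · rw [h3]; simp
        · rw [h3]
          have : round (-1 : ℝ) = -1 := by
            have := round_intCast (α := ℝ) (-1)
            simpa using this
          rw [this]; simp
    refine (norm_sum_le_of_le _ h1).trans ?_
    rw [← sum_filter, sum_const, nsmul_eq_mul]
    have : ((univ.filter fun i => |e i| < 1).card : ℝ) ≤ 2 := by exact_mod_cast hc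
    nlinarith

/-- Final form. -/
theorem zono (F : Finset ℕ) (v : ℕ → ℂ) (L B : ℝ) (hB0 : 0 ≤ B)
    (hL : ∀ u : ℂ, L * ‖u‖ ≤ ∑ i ∈ F, |(v i * (starRingEnd ℂ) u).re|)
    (hB : ∀ i ∈ F, ‖v i‖ ≤ B) (z : ℂ) (hz : ‖z‖ ≤ L) :
    ∃ A N : Finset ℕ, A ⊆ F ∧ N ⊆ F ∧ ‖z - ∑ i ∈ A, v i + ∑ i ∈ N, v i‖ ≤ B := by
  classical
  have h1 := zono_ball (fun i : F => v i) L (fun u => by
    rw [sum_coe_sort F (fun i => |(v i * (starRingEnd ℂ) u).re|)]; exact hL u) z hz
  obtain ⟨m, hm⟩ := zono_round (fun i : F => v i) B (fun i => hB i i.2) z h1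
  rcases hm with ⟨hm1, hm2⟩ | ⟨hm1, hm2⟩
  · set M : ℕ → ℤ := fun i => if h : i ∈ F then m ⟨i, h⟩ else 0 with hM
    have h2 : ∑ i : F, (m i : ℂ) * v i = ∑ i ∈ F, (M i : ℂ) * v i := by
      rw [← sum_coe_sort F]
      apply sum_congr rfl
      intro i _
      simp [hM]
    have hMi : ∀ i ∈ F, |M i| ≤ 1 := by
      intro i hi
      simp only [hM, hi, dite_true]
      exact hm1 _
    refine ⟨F.filter (fun i => M i = 1), F.filter (fun i => M i = -1), filter_subset _ _,
      filter_subset _ _, ?_⟩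
    have h3 : ∑ i ∈ F, (M i : ℂ) * v i = ∑ i ∈ F.filter (fun i => M i = 1), v i -
        ∑ i ∈ F.filter (fun i => M i = -1), v i := by
      rw [sum_filter, sum_filter, ← sum_sub_distrib]
      apply sum_congr rfl
      intro i hi
      have h4 := abs_le.1 (hMi i hi)
      have h5 : M i = 1 ∨ M i = 0 ∨ M i = -1 := by omega
      rcases h5 with h | h | h <;> simp [h]
    rw [h2, h3] at hm2
    rw [show z - ∑ i ∈ F.filter (fun i => M i = 1), v i + ∑ i ∈ F.filter (fun i => M i = -1), v i =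
      z - (∑ i ∈ F.filter (fun i => M i = 1), v i - ∑ i ∈ F.filter (fun i => M i = -1), v i) by ring]
    exact hm2
  · exact ⟨∅, ∅, by simp, by simp, by simp [hm2, hB0]⟩

end H90.CD
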